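import Pool.Agent.MTPN.Stmts
import Pool.Agent.Helper97_MTD.Bas

/-! MTPN, module BRY: near infinity the fundamental matrix itself is a branch. -/

set_option autoImplicit false
set_option linter.unusedSectionVars false

namespace Pool.Agent.MTPN.H39

open Matrix Polynomial Pool.Agent.MT100 Pool.Agent.MT100G Pool.Agent.MT100A Pool.Agent.MT100D
  Pool.Agent.Helper78_MT
open Pool.Agent.MT100G.H43
open Pool.Agent.MT100D.H97 (ac_C diag_eN)

variable {d : Type} [Fintype d] [DecidableEq d]

/-- the fundamental matrix for another branch `L` of the logarithm, without the exponents -/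
noncomputable def YN (H : Matrix d d (PowerSeries ℚ)) (N : Matrix d d ℤ) (L : ℂ → ℂ) (w : ℂ) :
    Matrix d d ℂ := H.map (fun f => evC f w⁻¹) * eN N (-L w)

/-- the fundamental matrix for another branch `L` of the logarithm -/
noncomputable def YL (H : Matrix d d (PowerSeries ℚ)) (N : Matrix d d ℤ) (δ : d → ℚ) (L : ℂ → ℂ)
    (w : ℂ) : Matrix d d ℂ := YN H N L w * ed δ (-L w)

theorem yl_log (H : Matrix d d (PowerSeries ℚ)) (N : Matrix d d ℤ) (δ : d → ℚ) :
    YL H N δ Complex.log = YD H N δ := rfl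

theorem yl_entry (H : Matrix d d (PowerSeries ℚ)) (N : Matrix d d ℤ) (δ : d → ℚ) (L : ℂ → ℂ)
    (w : ℂ) (i j : d) :
    YL H N δ L w i j = YN H N L w i j * Complex.exp ((δ j : ℂ) * -L w) := by
  unfold YL ed
  rw [Matrix.mul_diagonal]

/-- the solutions near infinity for all the branches of the logarithm -/
theorem sol_all {H K : Matrix d d (PowerSeries ℚ)} {N : Matrix d d ℤ} {dl : d → ℚ} {q : ℤ[X]}
    {B : Matrix d d ℤ[X]} (hS : GSysW H K N dl q B) :
    ∃ R : ℝ, 0 < R ∧ ∀ (L : ℂ → ℂ) (c : ℂ) (ρ : ℝ), 0 < ρ →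
      (∀ w ∈ Metric.ball c ρ, R < ‖w‖ ∧ HasDerivAt L w⁻¹ w) → SolOn q B c ρ (YL H N dl L) := by
  -- radii
  have hH := fun i j => gtype_near (hS.gH i j)
  have hK := fun i j => gtype_near (hS.gK i j)
  choose δH hδH hHx using hH
  choose δK hδK hKx using hK
  obtain ⟨δq, hδq, hqx⟩ := zC_ne q hS.q0
  obtain ⟨δ, hδ, hδl⟩ : ∃ δ : ℝ, 0 < δ ∧ δ ≤ δq ∧ ∀ i j, δ ≤ δH i j ∧ δ ≤ δK i j := by
    have h1 : ∀ s : Finset (d × d), ∃ δ : ℝ, 0 < δ ∧ δ ≤ δq ∧
        ∀ p ∈ s, δ ≤ δH p.1 p.2 ∧ δ ≤ δK p.1 p.2 := by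
      intro s
      classical
      induction s using Finset.induction_on with
      | empty => exact ⟨δq, hδq, le_rfl, fun p hp => absurd hp (Finset.notMem_empty p)⟩
      | insert a s ha ih =>
        obtain ⟨δ, h1, h2, h3⟩ := ih
        refine ⟨min δ (min (δH a.1 a.2) (δK a.1 a.2)), lt_min h1 (lt_min (hδH _ _) (hδK _ _)),
          (min_le_left _ _).trans h2, fun p hp => ?_⟩
        rcases Finset.mem_insert.mp hp with rfl | hp
        · exact ⟨(min_le_right _ _).trans (min_le_left _ _),
            (min_le_right _ _).trans (min_le_right _ _)⟩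
        · exact ⟨(min_le_left _ _).trans (h3 p hp).1, (min_le_left _ _).trans (h3 p hp).2⟩
    obtain ⟨δ, h1, h2, h3⟩ := h1 Finset.univ
    exact ⟨δ, h1, h2, fun i j => h3 (i, j) (Finset.mem_univ _)⟩
  refine ⟨1 / δ, by positivity, ?_⟩
  intro L c ρ hρ hL
  have hgood : ∀ w ∈ Metric.ball c ρ, ‖w⁻¹‖ < δ ∧ w ≠ 0 := by
    intro w hw
    have hn := (hL w hw).1
    have hw0 : w ≠ 0 := by
      intro h
      rw [h, norm_zero] at hn
      have : (0 : ℝ) < 1 / δ := by positivity
      exact lt_asymm hn this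
    refine ⟨?_, hw0⟩
    rw [norm_inv, inv_lt_comm₀ (norm_pos_iff.mpr hw0) hδ, ← one_div]
    exact hn
  have hd : ∀ w ∈ Metric.ball c ρ, IsUnit (YL H N dl L w).det := by
    intro w hw
    obtain ⟨h1, h2⟩ := hgood w hw
    have hA : ∀ i j, AC (H i j) w⁻¹ := fun i j =>
      (hHx i j w⁻¹ (lt_of_lt_of_le h1 (hδl.2 i j).1)).1
    have hA' : ∀ i j, AC (K i j) w⁻¹ := fun i j =>
      (hKx i j w⁻¹ (lt_of_lt_of_le h1 (hδl.2 i j).2)).1
    have hHK : H.map (fun f => evC f w⁻¹) * K.map (fun f => evC f w⁻¹) = 1 := by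
      rw [← (ac_mmul hA hA').2, hS.inv]
      ext i j
      rw [Matrix.map_apply, Matrix.one_apply, Matrix.one_apply]
      by_cases hij : i = j
      · rw [if_pos hij, if_pos hij]
        have := (ac_int 1 w⁻¹).2
        rwa [Int.cast_one, Int.cast_one] at this
      · rw [if_neg hij, if_neg hij]
        have := (ac_int 0 w⁻¹).2
        rwa [Int.cast_zero, Int.cast_zero] at this
    unfold YL YN
    rw [Matrix.det_mul, Matrix.det_mul]
    refine IsUnit.mul (IsUnit.mul ?_ ?_) ?_
    · have := congrArg Matrix.det hHK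
      rw [Matrix.det_mul, Matrix.det_one] at this
      exact IsUnit.of_mul_eq_one _ this
    · have := congrArg Matrix.det (eN_mul_neg N hS.nil (-L w))
      rw [Matrix.det_mul, Matrix.det_one] at this
      exact IsUnit.of_mul_eq_one _ this
    · unfold ed
      rw [Matrix.det_diagonal, isUnit_iff_ne_zero]
      exact Finset.prod_ne_zero_iff.2 fun i _ => Complex.exp_ne_zero _
  refine ⟨hρ, fun w hw => ?_, hd, fun w hw i j => ?_⟩
  · obtain ⟨h1, h2⟩ := hgood w hw
    exact ⟨h2, hqx _ (lt_of_lt_of_le h1 hδl.1) (inv_ne_zero h2)⟩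
  · obtain ⟨h1, h2⟩ := hgood w hw
    have hq1 : zC q w⁻¹ ≠ 0 := hqx _ (lt_of_lt_of_le h1 hδl.1) (inv_ne_zero h2)
    have hA := fun i j => hHx i j w⁻¹ (lt_of_lt_of_le h1 (hδl.2 i j).1)
    have hlog : HasDerivAt (fun x => -L x) (-w⁻¹) w := (hL w hw).2.neg
    have hinv : HasDerivAt (fun x : ℂ => x⁻¹) (-(w ^ 2)⁻¹) w := hasDerivAt_inv h2
    have hD : HasDerivAt (fun x => YN H N L x i j)
        (∑ k, (evC (dv (H i k)) w⁻¹ * (-(w ^ 2)⁻¹) * eN N (-L w) k j +
          evC (H i k) w⁻¹ *
            ((N.map (fun y : ℤ => (y : ℂ)) * eN N (-L w)) k j * (-w⁻¹)))) w := by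
      have he : (fun x => YN H N L x i j) =
          fun x => ∑ k, evC (H i k) x⁻¹ * eN N (-L x) k j := by
        funext x
        unfold YN
        rw [Matrix.mul_apply]
        rfl
      rw [he]
      refine HasDerivAt.fun_sum fun k _ => ?_
      refine HasDerivAt.mul ?_ ?_
      · exact HasDerivAt.comp w (hA i k).2.2 hinv
      · exact HasDerivAt.comp w (eN_deriv N hS.nil (-L w) k j) hlog
    have hE : HasDerivAt (fun x => Complex.exp ((dl j : ℂ) * -L x))
        (Complex.exp ((dl j : ℂ) * -L w) * ((dl j : ℂ) * -w⁻¹)) w :=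
      (hlog.const_mul (dl j : ℂ)).cexp
    have hDE := hD.mul hE
    have he : (fun x => YL H N dl L x i j) =
        (fun x => YN H N L x i j) * fun x => Complex.exp ((dl j : ℂ) * -L x) := by
      funext x
      rw [yl_entry]
      rfl
    rw [he]
    refine hDE.congr_deriv ?_
    -- the differential equation
    set Em := eN N (-L w) with hEm
    set Nm : Matrix d d ℂ := N.map (fun y : ℤ => (y : ℂ)) with hNm
    set Dm : Matrix d d ℂ := diagonal fun i => ((dl i : ℚ) : ℂ) with hDm
    set Hm : Matrix d d ℂ := H.map (fun f => evC f w⁻¹) with hHm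
    set Hd : Matrix d d ℂ := H.map (fun f => evC (dv f) w⁻¹) with hHd
    set Bm : Matrix d d ℂ := B.map (fun p => zC p w⁻¹) with hBm
    have hode : (zC q w⁻¹ * w⁻¹) • Hd = Bm * Hm - zC q w⁻¹ • (Hm * (Nm + Dm)) := by
      ext a b
      have h4 := congrArg (fun M : Matrix d d (PowerSeries ℚ) => evC (M a b) w⁻¹) hS.ode
      simp only [Matrix.smul_apply, Matrix.sub_apply, Matrix.map_apply, smul_eq_mul] at h4
      have hBH := ac_mmul (A := B.map zp) (B := H) (x := w⁻¹)
        (fun i j => (ac_zp (B i j) w⁻¹).1) (fun i j => (hA i j).1)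
      have hHN := ac_mmul (A := H) (B := (AA N dl).map (fun x => PowerSeries.C x)) (x := w⁻¹)
        (fun i j => (hA i j).1) (fun i j => (ac_C (AA N dl i j) w⁻¹).1)
      have hqX := ac_mul (ac_zp q w⁻¹).1 (ac_X w⁻¹).1
      have h5 := ac_mul hqX.1 (hA a b).2.1
      have h6 := ac_mul (ac_zp q w⁻¹).1 (hHN.1 a b)
      have h7 := ac_sub (hBH.1 a b) h6.1
      rw [h5.2, hqX.2, (ac_zp q w⁻¹).2, (ac_X w⁻¹).2, h7.2, h6.2, (ac_zp q w⁻¹).2] at h4
      have h8 : evC ((B.map zp * H) a b) w⁻¹ = (Bm * Hm) a b := by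
        have := congrFun (congrFun hBH.2 a) b
        rw [Matrix.map_apply] at this
        rw [this]
        have h9 : (B.map zp).map (fun f => evC f w⁻¹) = Bm := by
          ext a b
          simp only [Matrix.map_apply, hBm]
          exact (ac_zp _ _).2
        rw [h9]
      have h9 : evC ((H * (AA N dl).map (fun x => PowerSeries.C x)) a b) w⁻¹ =
          (Hm * (Nm + Dm)) a b := by
        have := congrFun (congrFun hHN.2 a) b
        rw [Matrix.map_apply] at this
        rw [this]
        have h9 : ((AA N dl).map (fun x => PowerSeries.C x)).map (fun f => evC f w⁻¹) =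
            Nm + Dm := by
          ext a b
          rw [Matrix.map_apply, Matrix.map_apply, (ac_C _ _).2]
          unfold AA
          rw [Matrix.add_apply, Matrix.add_apply, Matrix.map_apply, hNm, hDm, Matrix.map_apply,
            Matrix.diagonal_apply, Matrix.diagonal_apply]
          by_cases hab : a = b
          · rw [if_pos hab, if_pos hab]
            push_cast
            ring
          · rw [if_neg hab, if_neg hab]
            push_cast
            ring
        rw [h9]
      rw [h8, h9] at h4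
      simp only [Matrix.smul_apply, Matrix.sub_apply, smul_eq_mul, hHd, Matrix.map_apply]
      exact h4
    have hsum : (∑ k, (evC (dv (H i k)) w⁻¹ * (-(w ^ 2)⁻¹) * Em k j +
          evC (H i k) w⁻¹ * ((Nm * Em) k j * (-w⁻¹)))) =
        (-(w ^ 2)⁻¹) * (Hd * Em) i j + (-w⁻¹) * (Hm * (Nm * Em)) i j := by
      rw [Finset.sum_add_distrib, Matrix.mul_apply, Matrix.mul_apply, Finset.mul_sum,
        Finset.mul_sum]
      congr 1
      · refine Finset.sum_congr rfl fun k _ => ?_
        simp only [hHd, Matrix.map_apply]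
        ring
      · refine Finset.sum_congr rfl fun k _ => ?_
        simp only [hHm, Matrix.map_apply]
        ring
    rw [hsum]
    have hY : YN H N L w = Hm * Em := rfl
    have hDE' : Dm * Em = Em * Dm := diag_eN hS.com (-L w)
    have h20 : (Hm * ((Nm + Dm) * Em)) i j =
        (Hm * (Nm * Em)) i j + (Hm * Em) i j * (dl j : ℂ) := by
      rw [Matrix.add_mul, Matrix.mul_add, Matrix.add_apply, hDE', ← Matrix.mul_assoc Hm Em Dm,
        hDm, Matrix.mul_diagonal]
    have h10 : w⁻¹ * (Hd * Em) i j =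
        (zC q w⁻¹)⁻¹ * (Bm * (Hm * Em)) i j - (Hm * ((Nm + Dm) * Em)) i j := by
      have h11 := congrArg (fun M : Matrix d d ℂ => (M * Em) i j) hode
      simp only [Matrix.smul_mul, Matrix.sub_mul, Matrix.smul_apply, Matrix.sub_apply,
        smul_eq_mul, Matrix.mul_assoc] at h11
      have key : ∀ (Q x a b c : ℂ), Q ≠ 0 → Q * x * a = b - Q * c → x * a = Q⁻¹ * b - c := by
        intro Q x a b c hQ h
        have : b = Q * x * a + Q * c := by rw [h]; ring
        rw [this]
        field_simp
        ring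
      exact key _ _ _ _ _ hq1 h11
    have h13 : (w ^ 2)⁻¹ * (Hd * Em) i j = w⁻¹ * (w⁻¹ * (Hd * Em) i j) := by
      field_simp
    have h14 : (Bm * YL H N dl L w) i j = (Bm * (Hm * Em)) i j *
        Complex.exp ((dl j : ℂ) * -L w) := by
      unfold YL ed
      rw [hY, ← Matrix.mul_assoc, Matrix.mul_diagonal]
    rw [h14, hY, neg_mul, h13, h10, h20, mul_inv]
    ring


/-- chains of discs in a convex set -/
theorem conv_chain {q : ℤ[X]} {B : Matrix d d ℤ[X]} {S : Set ℂ} (hS : Convex ℝ S)
    {Y : ℂ → Matrix d d ℂ}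
    (hY : ∀ (c : ℂ) (ρ : ℝ), 0 < ρ → Metric.ball c ρ ⊆ S → SolOn q B c ρ Y)
    {p p' : ℂ} {r r' : ℝ} (hr : 0 < r) (hr' : 0 < r') (hp : Metric.ball p r ⊆ S)
    (hp' : Metric.ball p' r' ⊆ S) : Cnt q B Set.univ (p, r, Y) (p', r', Y) := by
  obtain ⟨s, hs⟩ : ∃ s, s = min r r' := ⟨_, rfl⟩
  have hs0 : 0 < s := by rw [hs]; exact lt_min hr hr'
  have hsr : s ≤ r := by rw [hs]; exact min_le_left _ _
  have hsr' : s ≤ r' := by rw [hs]; exact min_le_right _ _
  have hps : Metric.ball p s ⊆ S := (Metric.ball_subset_ball hsr).trans hp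
  have hps' : Metric.ball p' s ⊆ S := (Metric.ball_subset_ball hsr').trans hp'
  -- one step
  have hstep : ∀ (a b : ℂ) (ra rb : ℝ), 0 < ra → 0 < rb → Metric.ball a ra ⊆ S →
      Metric.ball b rb ⊆ S → ‖b - a‖ < ra → Stp q B Set.univ (a, ra, Y) (b, rb, Y) := by
    intro a b ra rb ha hb hSa hSb hab
    refine ⟨hY _ _ ha hSa, hY _ _ hb hSb, Set.subset_univ _, Set.subset_univ _, ⟨b, ?_, ?_⟩,
      fun _ _ => rfl⟩
    · rw [Metric.mem_ball, dist_eq_norm]
      exact hab
    · exact Metric.mem_ball_self hb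
  have h1 : Cnt q B Set.univ (p, r, Y) (p, s, Y) :=
    Relation.ReflTransGen.single (hstep p p r s hr hs0 hp hps (by rw [sub_self, norm_zero]; exact hr))
  have h3 : Cnt q B Set.univ (p', s, Y) (p', r', Y) :=
    Relation.ReflTransGen.single (hstep p' p' s r' hs0 hr' hps' hp' (by
      rw [sub_self, norm_zero]; exact hs0))
  -- the segment
  obtain ⟨n, hn⟩ := exists_nat_gt (‖p' - p‖ / s)
  have hn0 : 0 < (n : ℝ) + 1 := by positivity
  have hseg : ∀ t : ℝ, 0 ≤ t → t ≤ 1 → Metric.ball (p + (t : ℂ) * (p' - p)) s ⊆ S := by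
    intro t ht0 ht1 w hw
    rw [Metric.mem_ball, dist_eq_norm] at hw
    have ha : w - (p + (t : ℂ) * (p' - p)) + p ∈ S := by
      apply hps
      rw [Metric.mem_ball, dist_eq_norm, add_sub_cancel_right]
      exact hw
    have hb : w - (p + (t : ℂ) * (p' - p)) + p' ∈ S := by
      apply hps'
      rw [Metric.mem_ball, dist_eq_norm, add_sub_cancel_right]
      exact hw
    have hc := hS ha hb (sub_nonneg.2 ht1) ht0 (by ring)
    have he : (1 - t) • (w - (p + (t : ℂ) * (p' - p)) + p) +
        t • (w - (p + (t : ℂ) * (p' - p)) + p') = w := by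
      rw [Complex.real_smul, Complex.real_smul]
      push_cast
      ring
    rwa [he] at hc
  have h2 : ∀ k : ℕ, k ≤ n + 1 →
      Cnt q B Set.univ (p, s, Y) (p + (((k : ℝ) / ((n : ℝ) + 1) : ℝ) : ℂ) * (p' - p), s, Y) := by
    intro k
    induction k with
    | zero =>
      intro _
      rw [Nat.cast_zero, zero_div, Complex.ofReal_zero, zero_mul, add_zero]
      exact Relation.ReflTransGen.refl
    | succ k ih =>
      intro hk
      refine (ih (Nat.le_of_succ_le hk)).tail ?_
      have hk1 : ((k : ℝ) + 1) ≤ (n : ℝ) + 1 := by exact_mod_cast hk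
      have hk0 : (0 : ℝ) ≤ k := Nat.cast_nonneg k
      refine hstep _ _ s s hs0 hs0 (hseg _ (by positivity) ?_) (hseg _ (by positivity) ?_) ?_
      · rw [div_le_one hn0]
        linarith
      · rw [div_le_one hn0]
        push_cast
        exact hk1
      · have he : p + ((((k + 1 : ℕ) : ℝ) / ((n : ℝ) + 1) : ℝ) : ℂ) * (p' - p) -
            (p + (((k : ℝ) / ((n : ℝ) + 1) : ℝ) : ℂ) * (p' - p)) =
            ((1 / ((n : ℝ) + 1) : ℝ) : ℂ) * (p' - p) := by
          push_cast
          ring
        rw [he, norm_mul, Complex.norm_real, Real.norm_of_nonneg (by positivity), one_div,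
          inv_mul_lt_iff₀ hn0]
        rw [div_lt_iff₀ hs0] at hn
        nlinarith
  have h4 := h2 (n + 1) le_rfl
  have he : (((n + 1 : ℕ) : ℝ) / ((n : ℝ) + 1) : ℝ) = 1 := by
    push_cast
    exact div_self hn0.ne'
  rw [he, Complex.ofReal_one, one_mul, add_sub_cancel] at h4
  exact (h1.trans h4).trans h3

theorem ball_re {c w : ℂ} {ρ : ℝ} (hw : w ∈ Metric.ball c ρ) : |w.re - c.re| < ρ := by
  rw [Metric.mem_ball, dist_eq_norm] at hw
  have h1 := Complex.abs_re_le_norm (w - c)
  rw [Complex.sub_re] at h1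
  exact lt_of_le_of_lt h1 hw

theorem ball_im {c w : ℂ} {ρ : ℝ} (hw : w ∈ Metric.ball c ρ) : |w.im - c.im| < ρ := by
  rw [Metric.mem_ball, dist_eq_norm] at hw
  have h1 := Complex.abs_im_le_norm (w - c)
  rw [Complex.sub_im] at h1
  exact lt_of_le_of_lt h1 hw

/-- BRY -/
theorem bry : BryStmt := by
  intro d _ _ F
  obtain ⟨H, K, N, dl, q, B, hS⟩ := F
  obtain ⟨R, hR0, hR⟩ := sol_all hS
  refine ⟨2 * R, fun x hx => ?_⟩
  have hYl : Family.Y ⟨H, K, N, dl, q, B, hS⟩ = YL H N dl Complex.log := rfl
  -- the half planes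
  have hlog : ∀ w ∈ Complex.slitPlane, HasDerivAt Complex.log w⁻¹ w := fun w hw =>
    Complex.hasDerivAt_log hw
  have s1 : ∀ (c : ℂ) (ρ : ℝ), 0 < ρ → Metric.ball c ρ ⊆ {w | R < w.re} →
      SolOn q B c ρ (YL H N dl Complex.log) := by
    intro c ρ hρ hsub
    refine hR _ c ρ hρ fun w hw => ⟨lt_of_lt_of_le (hsub hw) (Complex.re_le_norm w), hlog w ?_⟩
    exact Or.inl (hR0.trans (hsub hw))
  have s2 : ∀ (c : ℂ) (ρ : ℝ), 0 < ρ → Metric.ball c ρ ⊆ {w | R < w.im} →
      SolOn q B c ρ (YL H N dl Complex.log) := by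
    intro c ρ hρ hsub
    refine hR _ c ρ hρ fun w hw => ⟨lt_of_lt_of_le (hsub hw) (Complex.im_le_norm w), hlog w ?_⟩
    exact Or.inr (hR0.trans (hsub hw)).ne'
  have s3 : ∀ (c : ℂ) (ρ : ℝ), 0 < ρ → Metric.ball c ρ ⊆ {w | w.im < -R} →
      SolOn q B c ρ (YL H N dl Complex.log) := by
    intro c ρ hρ hsub
    refine hR _ c ρ hρ fun w hw => ?_
    have h1 : w.im < -R := hsub hw
    refine ⟨?_, hlog w (Or.inr (by linarith))⟩
    have h2 := Complex.abs_im_le_norm w
    have h3 := neg_abs_le w.im
    linarith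
  have s4 : ∀ (θ c : ℂ) (ρ : ℝ), 0 < ρ → Metric.ball c ρ ⊆ {w | w.re < -R} →
      SolOn q B c ρ (YL H N dl (fun w => Complex.log (-w) + θ)) := by
    intro θ c ρ hρ hsub
    refine hR _ c ρ hρ fun w hw => ?_
    have h1 : w.re < -R := hsub hw
    refine ⟨?_, ?_⟩
    · have h2 := Complex.abs_re_le_norm w
      have h3 := neg_abs_le w.re
      linarith
    · have h2 : HasDerivAt (fun w : ℂ => Complex.log (-w)) (-1 / -w) w := by
        refine HasDerivAt.clog (hasDerivAt_neg w) ?_
        exact Or.inl (by rw [Complex.neg_re]; linarith)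
      have h3 := h2.add_const θ
      rwa [neg_div_neg_eq, one_div] at h3
  have v1 : Convex ℝ {w : ℂ | R < w.re} := convex_halfSpace_re_gt R
  have v2 : Convex ℝ {w : ℂ | R < w.im} := convex_halfSpace_im_gt R
  have v3 : Convex ℝ {w : ℂ | w.im < -R} := convex_halfSpace_im_lt (-R)
  have v4 : Convex ℝ {w : ℂ | w.re < -R} := convex_halfSpace_re_lt (-R)
  have hc1 : ∀ᶠ c : ℝ in Filter.atTop, Metric.ball (c : ℂ) 1 ⊆ {w | R < w.re} := by
    filter_upwards [Filter.eventually_ge_atTop (R + 1)] with c hc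
    intro w hw
    have h1 := abs_lt.1 (ball_re hw)
    rw [Complex.ofReal_re] at h1
    show R < w.re
    linarith [h1.1]
  show Branch _ x (Family.Y ⟨H, K, N, dl, q, B, hS⟩ x)
  rw [hYl]
  obtain ⟨Yl, hYL⟩ : ∃ Yl, Yl = YL H N dl Complex.log := ⟨_, rfl⟩
  -- from the real axis to the corners
  have hcor : ∀ p : ℂ, p.re = R + 1 → ∀ᶠ c : ℝ in Filter.atTop,
      Cnt q B Set.univ ((c : ℂ), 1, YL H N dl Complex.log) (p, 1, YL H N dl Complex.log) := by
    intro p hp
    filter_upwards [hc1] with c hc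
    refine conv_chain v1 s1 one_pos one_pos hc ?_
    intro w hw
    have h1 := abs_lt.1 (ball_re hw)
    show R < w.re
    linarith [h1.1]
  obtain ⟨r, hr⟩ : ∃ r : ℝ, r = 1 := ⟨_, rfl⟩
  by_cases c1 : R < x.re
  · refine ⟨x.re - R, YL H N dl Complex.log, rfl, ?_⟩
    filter_upwards [hc1] with c hc
    refine conv_chain v1 s1 one_pos (sub_pos.2 c1) hc ?_
    intro w hw
    have h1 := abs_lt.1 (ball_re hw)
    show R < w.re
    linarith [h1.1]
  by_cases c2 : R < x.im
  · refine ⟨x.im - R, YL H N dl Complex.log, rfl, ?_⟩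
    filter_upwards [hcor ⟨R + 1, R + 1⟩ rfl] with c hc
    refine hc.trans (conv_chain v2 s2 one_pos (sub_pos.2 c2) ?_ ?_)
    · intro w hw
      have h1 := abs_lt.1 (ball_im hw)
      show R < w.im
      linarith [h1.1]
    · intro w hw
      have h1 := abs_lt.1 (ball_im hw)
      show R < w.im
      linarith [h1.1]
  by_cases c3 : x.im < -R
  · refine ⟨-R - x.im, YL H N dl Complex.log, rfl, ?_⟩
    filter_upwards [hcor ⟨R + 1, -(R + 1)⟩ rfl] with c hc
    refine hc.trans (conv_chain v3 s3 one_pos (sub_pos.2 c3) ?_ ?_)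
    · intro w hw
      have h1 := abs_lt.1 (ball_im hw)
      show w.im < -R
      linarith [h1.2]
    · intro w hw
      have h1 := abs_lt.1 (ball_im hw)
      show w.im < -R
      linarith [h1.2]
  have c4 : x.re < -R := by
    by_contra h4
    have h5 : |x.re| ≤ R := abs_le.2 ⟨by linarith, by linarith⟩
    have h6 : |x.im| ≤ R := abs_le.2 ⟨by linarith, by linarith⟩
    have h7 := Complex.norm_le_abs_re_add_abs_im x
    linarith
  have hlogeq : ∀ w : ℂ, Complex.log w = Complex.log (-w) + (Complex.arg w - Complex.arg (-w)) *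
      Complex.I := by
    intro w
    rw [Complex.log, Complex.log, norm_neg]
    ring
  by_cases c5 : 0 ≤ x.im
  · -- from above
    refine ⟨-R - x.re, YL H N dl (fun w => Complex.log (-w) + Real.pi * Complex.I), ?_, ?_⟩
    · have h1 : Complex.log x = Complex.log (-x) + Real.pi * Complex.I := by
        rw [hlogeq x, Complex.arg_neg_eq_arg_sub_pi_iff.2 ?_]
        · push_cast
          ring
        · rcases lt_or_eq_of_le c5 with h | h
          · exact Or.inl h
          · exact Or.inr ⟨h.symm, by linarith⟩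
      unfold YL YN
      rw [h1]
    · filter_upwards [hcor ⟨R + 1, R + 1⟩ rfl] with c hc
      refine (hc.trans (conv_chain (p' := ⟨-(R + 1), R + 1⟩) (r' := 1) v2 s2 one_pos one_pos ?_ ?_)).trans
        (Relation.ReflTransGen.head (b := (⟨-(R + 1), R + 1⟩, 1,
          YL H N dl (fun w => Complex.log (-w) + Real.pi * Complex.I))) ?_
          (conv_chain v4 (s4 _) one_pos (sub_pos.2 c4) ?_ ?_))
      · intro w hw
        have h1 := abs_lt.1 (ball_im hw)
        show R < w.im
        linarith [h1.1]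
      · intro w hw
        have h1 := abs_lt.1 (ball_im hw)
        show R < w.im
        linarith [h1.1]
      · refine ⟨s2 _ _ one_pos ?_, s4 _ _ _ one_pos ?_, Set.subset_univ _, Set.subset_univ _,
          ⟨_, Metric.mem_ball_self one_pos, Metric.mem_ball_self one_pos⟩, ?_⟩
        · intro w hw
          have h1 := abs_lt.1 (ball_im hw)
          show R < w.im
          linarith [h1.1]
        · intro w hw
          have h1 := abs_lt.1 (ball_re hw)
          show w.re < -R
          linarith [h1.2]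
        · rintro w ⟨hw, -⟩
          have h1 := abs_lt.1 (ball_im hw)
          have h2 : 0 < w.im := by
            have : R < w.im := by linarith [h1.1]
            linarith
          have h3 : Complex.log w = Complex.log (-w) + Real.pi * Complex.I := by
            rw [hlogeq w, Complex.arg_neg_eq_arg_sub_pi_of_im_pos h2]
            push_cast
            ring
          show YL H N dl Complex.log w = YL H N dl (fun w => Complex.log (-w) + Real.pi * Complex.I) w
          unfold YL YN
          rw [h3]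
      · intro w hw
        have h1 := abs_lt.1 (ball_re hw)
        show w.re < -R
        linarith [h1.2]
      · intro w hw
        have h1 := abs_lt.1 (ball_re hw)
        show w.re < -R
        linarith [h1.2]
  · -- from below
    have c6 : x.im < 0 := not_le.1 c5
    refine ⟨-R - x.re, YL H N dl (fun w => Complex.log (-w) + -(Real.pi * Complex.I)), ?_, ?_⟩
    · have h1 : Complex.log x = Complex.log (-x) + -(Real.pi * Complex.I) := by
        rw [hlogeq x, Complex.arg_neg_eq_arg_add_pi_of_im_neg c6]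
        push_cast
        ring
      unfold YL YN
      rw [h1]
    · filter_upwards [hcor ⟨R + 1, -(R + 1)⟩ rfl] with c hc
      refine (hc.trans (conv_chain (p' := ⟨-(R + 1), -(R + 1)⟩) (r' := 1) v3 s3 one_pos one_pos
        ?_ ?_)).trans
        (Relation.ReflTransGen.head (b := (⟨-(R + 1), -(R + 1)⟩, 1,
          YL H N dl (fun w => Complex.log (-w) + -(Real.pi * Complex.I)))) ?_
          (conv_chain v4 (s4 _) one_pos (sub_pos.2 c4) ?_ ?_))
      · intro w hw
        have h1 := abs_lt.1 (ball_im hw)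
        show w.im < -R
        linarith [h1.2]
      · intro w hw
        have h1 := abs_lt.1 (ball_im hw)
        show w.im < -R
        linarith [h1.2]
      · refine ⟨s3 _ _ one_pos ?_, s4 _ _ _ one_pos ?_, Set.subset_univ _, Set.subset_univ _,
          ⟨_, Metric.mem_ball_self one_pos, Metric.mem_ball_self one_pos⟩, ?_⟩
        · intro w hw
          have h1 := abs_lt.1 (ball_im hw)
          show w.im < -R
          linarith [h1.2]
        · intro w hw
          have h1 := abs_lt.1 (ball_re hw)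
          show w.re < -R
          linarith [h1.2]
        · rintro w ⟨hw, -⟩
          have h1 := abs_lt.1 (ball_im hw)
          have h2 : w.im < 0 := by
            have : w.im < -R := by linarith [h1.2]
            linarith
          have h3 : Complex.log w = Complex.log (-w) + -(Real.pi * Complex.I) := by
            rw [hlogeq w, Complex.arg_neg_eq_arg_add_pi_of_im_neg h2]
            push_cast
            ring
          show YL H N dl Complex.log w =
            YL H N dl (fun w => Complex.log (-w) + -(Real.pi * Complex.I)) w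
          unfold YL YN
          rw [h3]
      · intro w hw
        have h1 := abs_lt.1 (ball_re hw)
        show w.re < -R
        linarith [h1.2]
      · intro w hw
        have h1 := abs_lt.1 (ball_re hw)
        show w.re < -R
        linarith [h1.2]

end Pool.Agent.MTPN.H39
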