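import Pool.Agent.Helper39_MTP.Moe

/-! MTPN, module MOB: the connected monodromy group from any specialisation. -/

set_option autoImplicit false
set_option linter.unusedSectionVars false

namespace Pool.Agent.MTPN.H39

open Matrix Polynomial Pool.Agent.MT100 Pool.Agent.MT100G Pool.Agent.MT100A Pool.Agent.MT100D
  Pool.Agent.Helper78_MT Pool.Agent.MTL Pool.Agent.Helper3_MT
open Pool.Agent.MT100A.H97 (det_uni zcl_one zcl_inv clo_sub des_group pev_ring span_pev Uni_aut)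

universe u

variable {d : Type} [Fintype d] [DecidableEq d]

/-- points over `L` and over `ℂ` -/
theorem zerosL_C {L : Type} [Field L] (ι : L →+* ℂ) (J : Set (MvPolynomial (d × d) L))
    (g : GL d L) : (g : Matrix d d L) ∈ zerosL J L ↔ (g : Matrix d d L).map ι ∈ zerosC ι J := by
  constructor
  · rintro ⟨h1, h2⟩
    refine ⟨?_, fun p hp => ?_⟩
    · have h3 := h1.map ι
      rwa [RingHom.map_det, RingHom.mapMatrix_apply] at h3
    · rw [pev_ring, h2 p hp, map_zero]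
  · rintro ⟨h1, h2⟩
    refine ⟨gl_unit g, fun p hp => ?_⟩
    have h3 := h2 p hp
    rw [pev_ring] at h3
    exact (map_eq_zero_iff ι ι.injective).1 h3

/-- the elements with image in an algebraic group over `L` -/
def Xl {L : Type} [Field L] (ι : L →+* ℂ) {Γ : Type*} [Group Γ] (ρ : Γ →* GL d L)
    {J : Set (MvPolynomial (d × d) L)} (hJ : IsAlgSubL ι J) : Subgroup Γ where
  carrier := {σ | (ρ σ : Matrix d d L) ∈ zerosL J L}
  mul_mem' := by
    intro a b ha hb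
    show (ρ (a * b) : Matrix d d L) ∈ zerosL J L
    rw [zerosL_C ι, map_mul, GeneralLinearGroup.coe_mul]
    have h1 := map_mul ι.mapMatrix (ρ a : Matrix d d L) (ρ b : Matrix d d L)
    rw [RingHom.mapMatrix_apply, RingHom.mapMatrix_apply, RingHom.mapMatrix_apply] at h1
    rw [h1]
    exact hJ.2.1 _ ((zerosL_C ι J _).1 ha) _ ((zerosL_C ι J _).1 hb)
  one_mem' := by
    show (ρ 1 : Matrix d d L) ∈ zerosL J L
    rw [zerosL_C ι, map_one, GeneralLinearGroup.coe_one,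
      Matrix.map_one ι (map_zero ι) (map_one ι)]
    exact hJ.1
  inv_mem' := by
    intro a ha
    show (ρ a⁻¹ : Matrix d d L) ∈ zerosL J L
    rw [zerosL_C ι]
    have h1 : (ρ a : Matrix d d L).map ι * (ρ a⁻¹ : Matrix d d L).map ι = 1 := by
      have h2 := map_mul ι.mapMatrix (ρ a : Matrix d d L) (ρ a⁻¹ : Matrix d d L)
      rw [RingHom.mapMatrix_apply, RingHom.mapMatrix_apply, RingHom.mapMatrix_apply] at h2
      rw [← h2, ← GeneralLinearGroup.coe_mul, ← map_mul, mul_inv_cancel, map_one,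
        GeneralLinearGroup.coe_one, Matrix.map_one ι (map_zero ι) (map_one ι)]
    rw [(Matrix.inv_eq_right_inv h1).symm]
    exact hJ.2.2 _ ((zerosL_C ι J _).1 ha)

theorem mem_Xl {L : Type} [Field L] (ι : L →+* ℂ) {Γ : Type*} [Group Γ]
    (ρ : Γ →* GL d L) {J : Set (MvPolynomial (d × d) L)} (hJ : IsAlgSubL ι J) (σ : Γ) :
    σ ∈ Xl ι ρ hJ ↔ (ρ σ : Matrix d d L) ∈ zerosL J L := Iff.rfl

/-- the words in the unipotents -/
theorem uni_group {M : Set (Matrix d d ℂ)} (hr : ∀ τ : ℂ ≃+* ℂ, ∀ γ ∈ M, γ.map τ = γ) :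
    ∃ I : Set (MvPolynomial (d × d) ℚ), IsAlgSubgroup I ∧ (∀ u ∈ Uni M, u ∈ zeros I ℂ) ∧
      ∀ (L : Type) [Field L] [CharZero L] (ι : L →+* ℂ) (J : Set (MvPolynomial (d × d) L)),
        IsAlgSubL ι J → (∀ u ∈ Uni M, u ∈ zerosC ι J) → ∀ g : Matrix d d L, g ∈ zeros I L →
          g ∈ zerosL J L := by
  obtain ⟨Z, hZ⟩ : ∃ Z : Submonoid (Matrix d d ℂ), Z = Submonoid.closure (Uni M) := ⟨_, rfl⟩
  have haut : ∀ (τ : ℂ ≃+* ℂ), ∀ z ∈ (Z : Set (Matrix d d ℂ)), z.map τ ∈ (Z : Set (Matrix d d ℂ)) := by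
    intro τ z hz
    rw [hZ] at hz ⊢
    have hz' : z ∈ Submonoid.closure (Uni M) := hz
    show z.map τ ∈ Submonoid.closure (Uni M)
    clear hz
    induction hz' using Submonoid.closure_induction with
    | mem x hx => exact Submonoid.subset_closure (Uni_aut hr τ hx)
    | one =>
      rw [Matrix.map_one τ (map_zero τ) (map_one τ)]
      exact Submonoid.one_mem _
    | mul x y _ _ hx hy =>
      have h1 : (x * y).map τ = x.map τ * y.map τ := by
        have := map_mul (τ : ℂ →+* ℂ).mapMatrix x y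
        rwa [RingHom.mapMatrix_apply, RingHom.mapMatrix_apply, RingHom.mapMatrix_apply] at this
      rw [h1]
      exact Submonoid.mul_mem _ hx hy
  obtain ⟨hze, hzg⟩ := des_group H64.des (Z := (Z : Set (Matrix d d ℂ)))
    (fun a ha b hb => Submonoid.mul_mem _ ha hb) (Submonoid.one_mem _) haut
  refine ⟨_, hzg, ?_, ?_⟩
  · intro u hu
    rw [hze]
    refine ⟨by rw [det_uni hu]; exact isUnit_one, fun p hp => hp _ ?_⟩
    rw [hZ]
    exact Submonoid.subset_closure hu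
  · intro L _ _ ι J hJ hUJ g hg
    refine ⟨hg.1, fun f hf => ?_⟩
    have h6 := H64.des d (Z : Set (Matrix d d ℂ)) haut L ι f (by
      intro z hz
      rw [hZ] at hz
      have hz' : z ∈ Submonoid.closure (Uni M) := hz
      clear hz
      have hzJ : z ∈ zerosC ι J := by
        induction hz' using Submonoid.closure_induction with
        | mem x hx => exact hUJ x hx
        | one => exact hJ.1
        | mul x y _ _ hx hy => exact hJ.2.1 _ hx _ hy
      exact hzJ.2 f hf)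
    exact span_pev hg.2 h6

/-- MOB -/
theorem mob (hD : DeaStmt) : MobStmt.{u} := by
  intro d _ _ M hr ℓ _ ι ρ hgeo a H0 ρ0 hH0 hsp K _ _ _
  obtain ⟨hc1, Γg, hΓg, hc2⟩ := hgeo
  obtain ⟨hH0a, π, hπ, hs⟩ := hsp
  refine Set.Subset.antisymm ?_ ?_
  · intro x hx J hJ hmon hU
    obtain ⟨I, hI, hUI, hIJ⟩ := uni_group hr
    obtain ⟨H1, hH1, hn⟩ := noe d ℓ H0 ρ0
    have hX1 : ((Xl ι ρ hJ).subgroupOf Ggeo).FiniteIndex := by
      have := hΓg
      refine Subgroup.finiteIndex_of_le (H := Γg) ?_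
      intro γ hγ
      rw [Subgroup.mem_subgroupOf, mem_Xl]
      exact hIJ ℚ_[ℓ] ι J hJ hU _ (hc2 γ hγ I hI hUI)
    have hX2 : (Xl ι ρ hJ ⊔ Ggeo).FiniteIndex := by
      have hfi : (H1.map H0.subtype).FiniteIndex := by
        refine ⟨?_⟩
        rw [Subgroup.index_map_subtype]
        exact mul_ne_zero hH1.index_ne_zero hH0.index_ne_zero
      refine geo hD a π hπ (H1.map H0.subtype) hfi ?_ _ le_sup_right ?_
      · rintro _ ⟨g, -, rfl⟩
        exact hH0a _ g.2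
      · rintro σ _ ⟨g, hg, rfl⟩ h
        apply Subgroup.mem_sup_left
        rw [mem_Xl, ← hs σ g h]
        exact hmon (hn g hg)
    have hX := idx GT Ggeo (Xl ι ρ hJ) gno hX1 hX2
    obtain ⟨h1, h2⟩ := hx _ hX
    refine ⟨h1, fun p hp => h2 p ?_⟩
    rintro _ ⟨γ, hγ, rfl⟩
    exact ((mem_Xl ι ρ hJ γ).1 hγ).2 p hp
  · intro x hx Γ' hΓ'
    obtain ⟨T, hT⟩ : ∃ T : Set (Matrix d d ℂ),
      T = {X | ∃ γ ∈ Γ', X = (ρ γ : Matrix d d ℚ_[ℓ]).map ι} := ⟨_, rfl⟩
    have hTm : ∀ a ∈ T, ∀ b ∈ T, a * b ∈ T := by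
      rw [hT]
      rintro _ ⟨a, ha, rfl⟩ _ ⟨b, hb, rfl⟩
      refine ⟨a * b, Γ'.mul_mem ha hb, ?_⟩
      rw [map_mul, GeneralLinearGroup.coe_mul]
      have := map_mul ι.mapMatrix (ρ a : Matrix d d ℚ_[ℓ]) (ρ b : Matrix d d ℚ_[ℓ])
      rw [RingHom.mapMatrix_apply, RingHom.mapMatrix_apply, RingHom.mapMatrix_apply] at this
      exact this.symm
    have hT1 : (1 : Matrix d d ℂ) ∈ T := by
      rw [hT]
      refine ⟨1, Γ'.one_mem, ?_⟩
      rw [map_one, GeneralLinearGroup.coe_one]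
      exact (Matrix.map_one ι (map_zero ι) (map_one ι)).symm
    obtain ⟨J, hJ⟩ : ∃ J : Set (MvPolynomial (d × d) ℚ_[ℓ]),
      J = {f | ∀ γ ∈ Γ', pev (ρ γ : Matrix d d ℚ_[ℓ]) f = 0} := ⟨_, rfl⟩
    let _ : Algebra ℚ_[ℓ] ℂ := ι.toAlgebra
    have hJT : zerosC ι J = zcl T := by
      refine Set.Subset.antisymm ?_ ?_
      · intro g hg
        refine ⟨hg.1, fun q hq => ?_⟩
        refine vanish_basechange (F := ℚ_[ℓ]) (K := ℂ)
          (S := {X | ∃ γ ∈ Γ', X = (ρ γ : Matrix d d ℚ_[ℓ])}) ?_ q ?_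
        · intro p hp
          have h6 := hg.2 p (by rw [hJ]; exact fun γ hγ => hp _ ⟨γ, hγ, rfl⟩)
          have h7 : pev g (MvPolynomial.map (algebraMap ℚ_[ℓ] ℂ) p) = pev g p := pev_map g p
          rw [← h7]
          exact h6
        · rintro _ ⟨γ, hγ, rfl⟩
          apply hq
          rw [hT]
          exact ⟨γ, hγ, rfl⟩
      · intro g hg
        refine ⟨hg.1, fun p hp => hg.2 _ ?_⟩
        rw [hT]
        rintro _ ⟨γ, hγ, rfl⟩
        rw [hJ] at hp
        rw [pev_ring, hp γ hγ, map_zero]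
    have hJg : IsAlgSubL ι J := by
      unfold IsAlgSubL
      rw [hJT]
      exact ⟨zcl_one hT1, fun a ha b hb => zcl_mul hTm ha hb, fun a ha => zcl_inv hTm hT1 ha⟩
    have h1 := hx J hJg ?_ ?_
    · refine ⟨h1.1, fun p hp => h1.2 p ?_⟩
      rw [hJ]
      exact fun γ hγ => hp _ ⟨γ, hγ, rfl⟩
    · intro g hg
      obtain ⟨H, hH, hHs⟩ := dfi hD a π hπ H0 hH0a Γ' hΓ'
      obtain ⟨h1, h2⟩ := hg H hH
      refine ⟨h1, fun p hp => h2 p ?_⟩
      rintro _ ⟨γ, hγ, rfl⟩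
      obtain ⟨σ, hσ, hσ2⟩ := hHs γ hγ
      rw [hs σ γ hσ2]
      rw [hJ] at hp
      exact hp σ hσ
    · intro u hu
      refine ⟨by rw [det_uni hu]; exact isUnit_one, fun p hp => ?_⟩
      have hfi : (Γ'.subgroupOf Ggeo).FiniteIndex := by
        have := hΓ'
        infer_instance
      rw [hJ] at hp
      exact hc1 (Γ'.subgroupOf Ggeo) hfi p (fun γ hγ => hp _ (Subgroup.mem_subgroupOf.1 hγ)) u hu

end Pool.Agent.MTPN.H39
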