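import Pool.Agent.Helper39_MTP.Lig
import Pool.Agent.Helper78_MTD.Cst

/-! MTPN, modules BRA, TRB, TSG, GEQ: the Deligne torus of every fibre is in the group generated by the
unipotents and the torus of one fibre. -/

set_option autoImplicit false
set_option linter.unusedSectionVars false

namespace Pool.Agent.MTPN.H39

open Matrix Pool.Agent.MT100 Pool.Agent.MT100G Pool.Agent.MT100A Pool.Agent.Helper78_MT
  Pool.Agent.MT100A.H64 Pool.Agent.Helper46_MT Pool.Agent.MTA.H64T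
open Pool.Agent.MT100D (Family GenM)
open Pool.Agent.MT100A.H34 (e2 e2_val e2_tA eq_inv stable_of_pair Pup_idem Pup_range phi_eq trace_Pup
  card_add pth pth_cont pth_one pth_two pair_fil mt_sub Hdg Pup)

universe u

variable {d : Type} [Fintype d] [DecidableEq d] {w : ℕ} {E E' : Matrix d d ℚ}
  {V V' : ℕ → Submodule ℂ (d → ℂ)} {lev : d → ℕ} {P : Matrix d d ℂ} {π : ℕ → Matrix d d ℂ}
  {F : Family d}

/-! ### Branches -/

/-- the data of a branch -/
theorem br_sol {x : ℂ} {Z : Matrix d d ℂ} (h : Branch F x Z) :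
    ∃ (r : ℝ) (Y0 : ℂ → Matrix d d ℂ), Z = Y0 x ∧ SolOn F.q F.B x r Y0 ∧
      ∀ᶠ c : ℝ in Filter.atTop, Cnt F.q F.B Set.univ ((c : ℂ), 1, F.Y) (x, r, Y0) := by
  obtain ⟨r, Y0, hZ, hc⟩ := h
  refine ⟨r, Y0, hZ, ?_, hc⟩
  obtain ⟨c, hc1, hc2⟩ := (hc.and (Filter.eventually_gt_atTop x.re)).exists
  rcases Relation.ReflTransGen.cases_tail hc1 with h1 | ⟨y, -, h1⟩
  · exfalso
    have h2 := congrArg (fun z : ℂ × ℝ × (ℂ → Matrix d d ℂ) => z.1.re) h1
    simp only [Complex.ofReal_re] at h2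
    linarith
  · exact h1.2.1

/-- the solution on a smaller disc -/
theorem sol_sub {q : Polynomial ℤ} {B : Matrix d d (Polynomial ℤ)} {x y : ℂ} {r s : ℝ}
    {Y0 : ℂ → Matrix d d ℂ} (h : SolOn q B x r Y0) (hs : 0 < s)
    (hsub : Metric.ball y s ⊆ Metric.ball x r) : SolOn q B y s Y0 :=
  ⟨hs, fun w hw => h.reg w (hsub hw), fun w hw => h.det w (hsub hw), fun w hw => h.ode w (hsub hw)⟩

/-- the values at the other points of the disc are branches -/
theorem br_move {x : ℂ} {r : ℝ} {Y0 : ℂ → Matrix d d ℂ} (h : SolOn F.q F.B x r Y0)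
    (hc : ∀ᶠ c : ℝ in Filter.atTop, Cnt F.q F.B Set.univ ((c : ℂ), 1, F.Y) (x, r, Y0))
    {p : ℂ} (hp : p ∈ Metric.ball x r) : Branch F p (Y0 p) := by
  obtain ⟨s, hs, hsub⟩ := Metric.isOpen_iff.1 Metric.isOpen_ball p hp
  refine ⟨s, Y0, rfl, hc.mono fun c hcc => Relation.ReflTransGen.tail hcc ?_⟩
  refine ⟨h, sol_sub h hs hsub, Set.subset_univ _, Set.subset_univ _, ?_, fun w _ => rfl⟩
  exact ⟨p, hp, Metric.mem_ball_self hs⟩

/-- BRA -/
theorem bra : BraStmt := by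
  intro d _ _ F x Z h
  obtain ⟨r, Y0, rfl, hs, -⟩ := br_sol h
  exact hs.det x (Metric.mem_ball_self hs.pos)

theorem pz_li (hP : IsUnit P.det) {Z : Matrix d d ℂ} (hZ : IsUnit Z.det) :
    LinearIndependent ℂ (fun a => P *ᵥ Z a) := by
  have h1 : Matrix.of (fun a => P *ᵥ Z a) = Z * Pᵀ := by
    ext a i
    show (P *ᵥ Z a) i = _
    rw [Matrix.mul_apply]
    show ∑ j, P i j * Z a j = _
    exact Finset.sum_congr rfl fun j _ => by rw [transpose_apply, mul_comm]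
  have h2 : IsUnit (Matrix.of (fun a => P *ᵥ Z a)) := by
    rw [isUnit_iff_isUnit_det, h1, det_mul, det_transpose]
    exact hZ.mul hP
  exact Matrix.linearIndependent_rows_iff_isUnit.2 h2

theorem pth_ball {x : ℂ} {r : ℝ} {p q : ℂ} (hp : p ∈ Metric.ball x r) (hq : q ∈ Metric.ball x r)
    (s : ℝ) : pth p q s ∈ Metric.ball x r := by
  unfold pth
  obtain ⟨u, hu⟩ : ∃ u, u = max 0 (min 1 (s - 1)) := ⟨_, rfl⟩
  have h0 : 0 ≤ u := by rw [hu]; exact le_max_left _ _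
  have h1 : u ≤ 1 := by
    rw [hu]
    exact max_le zero_le_one (min_le_left _ _)
  rw [← hu]
  have h2 := (convex_ball x r) hp hq (sub_nonneg.2 h1) h0 (by ring)
  have h3 : (1 - u) • p + u • q = p + (u : ℂ) * (q - p) := by
    rw [Complex.real_smul, Complex.real_smul]
    push_cast
    ring
  rwa [h3] at h2

open Classical in
/-- the traces at two points of a disc -/
theorem disc_tr (hP : IsUnit P.det) (A : Set d) (Q : Matrix d d ℂ)
    (hst : ∀ (x : ℂ) (Z : Matrix d d ℂ), Branch F x Z → ∀ a ∈ A,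
      Q *ᵥ (P *ᵥ Z a) ∈ Submodule.span ℂ ((fun a => P *ᵥ Z a) '' A))
    {x : ℂ} {r : ℝ} {Y0 : ℂ → Matrix d d ℂ} (h : SolOn F.q F.B x r Y0)
    (hc : ∀ᶠ c : ℝ in Filter.atTop, Cnt F.q F.B Set.univ ((c : ℂ), 1, F.Y) (x, r, Y0))
    {p p' : ℂ} (hp : p ∈ Metric.ball x r) (hp' : p' ∈ Metric.ball x r) (N N' : Matrix A A ℂ)
    (hN : ∀ a : A, Q *ᵥ (P *ᵥ Y0 p a) = ∑ b : A, N b a • (P *ᵥ Y0 p b))
    (hN' : ∀ a : A, Q *ᵥ (P *ᵥ Y0 p' a) = ∑ b : A, N' b a • (P *ᵥ Y0 p' b)) :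
    N.trace = N'.trace := by
  obtain ⟨c, hc'⟩ := trc (R := 0) (per := fun s a => P *ᵥ Y0 (pth p p' s) a) (fun a => by
      intro s _
      refine ContinuousAt.continuousWithinAt ?_
      refine continuousAt_pi.2 fun i => ?_
      show ContinuousAt (fun s : ℝ => ∑ j, P i j * Y0 (pth p p' s) a j) s
      refine tendsto_finsetSum _ fun j _ => ?_
      refine ContinuousAt.mul continuousAt_const ?_
      exact ContinuousAt.comp (f := pth p p') (g := fun z => Y0 z a j)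
        (h.ode _ (pth_ball hp hp' s) a j).continuousAt (pth_cont p p').continuousAt)
    (fun s _ => pz_li hP (h.det _ (pth_ball hp hp' s))) A Q
    (fun s _ a ha => hst _ _ (br_move h hc (pth_ball hp hp' s)) a ha)
  have h3 := hc' 1 one_pos N (by
    simp only [pth_one]
    exact hN)
  have h4 := hc' 2 two_pos N' (by
    simp only [pth_two]
    exact hN')
  rw [h3, h4]

open Classical in
/-- the traces at the two ends of a chain -/
theorem chain_tr (hP : IsUnit P.det) (A : Set d) (Q : Matrix d d ℂ)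
    (hst : ∀ (x : ℂ) (Z : Matrix d d ℂ), Branch F x Z → ∀ a ∈ A,
      Q *ᵥ (P *ᵥ Z a) ∈ Submodule.span ℂ ((fun a => P *ᵥ Z a) '' A))
    {y z : ℂ × ℝ × (ℂ → Matrix d d ℂ)} (hy : SolOn F.q F.B y.1 y.2.1 y.2.2)
    (hc : ∀ᶠ c : ℝ in Filter.atTop, Cnt F.q F.B Set.univ ((c : ℂ), 1, F.Y) y)
    (h : Cnt F.q F.B Set.univ y z) :
    SolOn F.q F.B z.1 z.2.1 z.2.2 ∧
    (∀ᶠ c : ℝ in Filter.atTop, Cnt F.q F.B Set.univ ((c : ℂ), 1, F.Y) z) ∧
    ∀ (N N' : Matrix A A ℂ),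
      (∀ a : A, Q *ᵥ (P *ᵥ y.2.2 y.1 a) = ∑ b : A, N b a • (P *ᵥ y.2.2 y.1 b)) →
      (∀ a : A, Q *ᵥ (P *ᵥ z.2.2 z.1 a) = ∑ b : A, N' b a • (P *ᵥ z.2.2 z.1 b)) →
      N.trace = N'.trace := by
  induction h with
  | refl =>
    refine ⟨hy, hc, fun N N' h1 h2 => ?_⟩
    exact disc_tr hP A Q hst hy hc (Metric.mem_ball_self hy.pos) (Metric.mem_ball_self hy.pos) N N'
      h1 h2
  | @tail b c hb hs ih =>
    obtain ⟨ih1, ih2, ih3⟩ := ih
    have hcc : ∀ᶠ e : ℝ in Filter.atTop, Cnt F.q F.B Set.univ ((e : ℂ), 1, F.Y) c :=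
      ih2.mono fun e he => Relation.ReflTransGen.tail he hs
    obtain ⟨s1, s2, -, -, ⟨p, hp1, hp2⟩, heq⟩ := hs
    refine ⟨s2, hcc, fun N N' h1 h2 => ?_⟩
    have hb1 : Branch F b.1 (b.2.2 b.1) := ⟨b.2.1, b.2.2, rfl, ih2⟩
    have hbp : Branch F p (b.2.2 p) := br_move ih1 ih2 hp1
    obtain ⟨N1, hN1⟩ := exN (v := fun a => P *ᵥ b.2.2 b.1 a) A Q (hst _ _ hb1)
    obtain ⟨N2, hN2⟩ := exN (v := fun a => P *ᵥ b.2.2 p a) A Q (hst _ _ hbp)
    rw [ih3 N N1 h1 hN1, disc_tr hP A Q hst ih1 ih2 (Metric.mem_ball_self ih1.pos) hp1 N1 N2 hN1 hN2]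
    refine disc_tr hP A Q hst s2 hcc hp2 (Metric.mem_ball_self s2.pos) N2 N' ?_ h2
    rw [← heq p ⟨hp1, hp2⟩]
    exact hN2

theorem cnt_symm {q : Polynomial ℤ} {B : Matrix d d (Polynomial ℤ)} {U : Set ℂ}
    {y z : ℂ × ℝ × (ℂ → Matrix d d ℂ)} (h : Cnt q B U y z) : Cnt q B U z y := by
  have hs : ∀ a b : ℂ × ℝ × (ℂ → Matrix d d ℂ), Stp q B U a b → Stp q B U b a := by
    rintro a b ⟨h1, h2, h3, h4, h5, h6⟩
    refine ⟨h2, h1, h4, h3, by rwa [Set.inter_comm], fun w hw => (h6 w ⟨hw.2, hw.1⟩).symm⟩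
  induction h with
  | refl => exact Relation.ReflTransGen.refl
  | tail _ hs' ih => exact Relation.ReflTransGen.head (hs _ _ hs') ih

/-- two branches are connected by a chain -/
theorem br_chain {x x' : ℂ} {r r' : ℝ} {Y0 Y0' : ℂ → Matrix d d ℂ}
    (hc : ∀ᶠ c : ℝ in Filter.atTop, Cnt F.q F.B Set.univ ((c : ℂ), 1, F.Y) (x, r, Y0))
    (hc' : ∀ᶠ c : ℝ in Filter.atTop, Cnt F.q F.B Set.univ ((c : ℂ), 1, F.Y) (x', r', Y0')) :
    Cnt F.q F.B Set.univ (x, r, Y0) (x', r', Y0') := by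
  obtain ⟨c, h1, h2⟩ := (hc.and hc').exists
  exact (cnt_symm h1).trans h2

open Classical in
/-- the traces for two branches -/
theorem br_tr (hP : IsUnit P.det) (A : Set d) (Q : Matrix d d ℂ)
    (hst : ∀ (x : ℂ) (Z : Matrix d d ℂ), Branch F x Z → ∀ a ∈ A,
      Q *ᵥ (P *ᵥ Z a) ∈ Submodule.span ℂ ((fun a => P *ᵥ Z a) '' A))
    {x x' : ℂ} {Z Z' : Matrix d d ℂ} (h : Branch F x Z) (h' : Branch F x' Z') (N N' : Matrix A A ℂ)
    (hN : ∀ a : A, Q *ᵥ (P *ᵥ Z a) = ∑ b : A, N b a • (P *ᵥ Z b))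
    (hN' : ∀ a : A, Q *ᵥ (P *ᵥ Z' a) = ∑ b : A, N' b a • (P *ᵥ Z' b)) :
    N.trace = N'.trace := by
  obtain ⟨r, Y0, rfl, hs, hc⟩ := br_sol h
  obtain ⟨r', Y0', rfl, hs', hc'⟩ := br_sol h'
  exact (chain_tr hP A Q hst (y := (x, r, Y0)) (z := (x', r', Y0')) hs hc (br_chain hc hc')).2.2
    N N' hN hN'

/-- TRB -/
theorem trb : TrbStmt := by
  intro d _ _ F P hP A Q hst
  classical
  by_cases hne : ∃ (x : ℂ) (Z : Matrix d d ℂ), Branch F x Z
  · obtain ⟨x, Z, h⟩ := hne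
    obtain ⟨N, hN⟩ := exN (v := fun a => P *ᵥ Z a) A Q (hst _ _ h)
    refine ⟨N.trace, fun x' Z' h' N' hN' => ?_⟩
    exact (br_tr hP A Q hst h h' N N' hN hN').symm
  · push Not at hne
    exact ⟨0, fun x Z h => absurd h (hne x Z)⟩

/-! ### Hodge tensors -/

/-- a Hodge form of degree four is a Hodge tensor for the branch -/
theorem hodgeZ_of_hdg {Z : Matrix d d ℂ} (hFil : FilAt lev P Z V) {t : (Fin 4 → d) → ℚ}
    (ht : Hdg w V t) : HodgeZ lev P w Z t := by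
  intro a ha
  exact MT100G.H97.frm_fil t V w (fun p x hx hp => ht p x hx (by omega))
    (fun j => lev (a j)) (show 2 * w < ∑ j, lev (a j) by omega) (fun j => P *ᵥ Z (a j)) (fun j => by
      rw [hFil (lev (a j))]
      exact Submodule.subset_span ⟨a j, le_refl _, rfl⟩)

/-- a Hodge tensor for the branch is a Hodge form of degree four -/
theorem hdg_of_hodgeZ {Z : Matrix d d ℂ} (hV : PolHodge w E V) (hFil : FilAt lev P Z V)
    {t : (Fin 4 → d) → ℚ} (ht : HodgeZ lev P w Z t) : Hdg w V t := by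
  have hup : ∀ (p : Fin 4 → ℕ) (x : Fin 4 → d → ℂ), (∀ j, x j ∈ V (p j)) → 2 * w < ∑ j, p j →
      ∑ β, (t β : ℂ) * ∏ j, x j (β j) = 0 := by
    intro p x hx hp
    have h1 := MT100G.H97.frm_span t 1 (fun j => {y | ∃ a : d, p j ≤ lev a ∧ y = P *ᵥ Z a})
      (fun y hy => by
        choose a ha hya using hy
        have h2 := ht a (by
          have := Finset.sum_le_sum fun j (_ : j ∈ Finset.univ) => ha j
          omega)
        unfold MT100G.H97.frm
        rw [← h2]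
        refine Finset.sum_congr rfl fun β _ => ?_
        congr 1
        refine Finset.prod_congr rfl fun j _ => ?_
        show ((1 : Matrix d d ℂ) *ᵥ y j) (β j) = _
        rw [one_mulVec, hya j]) x (fun j => by
        rw [← hFil (p j)]
        refine (?_ : V (p j) ≤ _) (hx j)
        exact le_iSup₂_of_le (p j) (Set.mem_Ici.2 (le_refl _)) (le_refl _))
    simp only [one_mulVec] at h1
    exact h1
  intro p x hx hp
  by_cases hlt : 2 * w < ∑ j, p j
  · exact hup p x hx hlt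
  by_cases hple : ∀ j, p j ≤ w
  · have h1 := hup (fun j => w - p j) (fun j => star (x j))
      (fun j => hV.conj (p j) (hple j) (x j) (hx j)) (by
        have h2 : ∑ j : Fin 4, (w - p j) + ∑ j, p j = 4 * w := by
          rw [← Finset.sum_add_distrib]
          rw [Finset.sum_congr rfl (fun j _ => Nat.sub_add_cancel (hple j))]
          simp
        omega)
    have h2 := congrArg star h1
    rw [star_zero, star_sum] at h2
    rw [← h2]
    refine Finset.sum_congr rfl fun β _ => ?_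
    rw [star_mul', star_prod]
    congr 1
    · simp
    · refine Finset.prod_congr rfl fun j _ => ?_
      rw [Pi.star_apply, star_star]
  · push Not at hple
    obtain ⟨j, hj⟩ := hple
    have hx0 : x j = 0 := by
      have := hx j
      rw [hV.top (p j) hj, Submodule.mem_bot] at this
      exact this
    refine Finset.sum_eq_zero fun β _ => ?_
    rw [Finset.prod_eq_zero (Finset.mem_univ j) (by rw [hx0, Pi.zero_apply]), mul_zero]

/-- the unipotents preserve the polarisation -/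
theorem uniI (F : Family d) (hInv : F.InvM P E) :
    ∀ u ∈ Uni (F.Mo P), uᵀ * E.map (algebraMap ℚ ℂ) * u = E.map (algebraMap ℚ ℂ) := by
  rintro u ⟨X, -, rfl, hcl⟩
  exact MT100A.H97.iso_zclosure hInv (hcl 1)

/-- an invariant bilinear Hodge tensor for one branch is a Hodge tensor for all the branches -/
theorem pairZ (hFP : FixedPartB F lev P w) {A : Matrix d d ℚ}
    (hA : ∀ u ∈ Uni (F.Mo P), uᵀ * A.map (algebraMap ℚ ℂ) * u = A.map (algebraMap ℚ ℂ))
    {x y : ℂ} {Z Z' : Matrix d d ℂ} (hx : Branch F x Z) (hy : Branch F y Z')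
    (h : ∀ a b : d, w < lev a + lev b →
      (P *ᵥ Z a) ⬝ᵥ (A.map (algebraMap ℚ ℂ) *ᵥ (P *ᵥ Z b)) = 0) :
    ∀ a b : d, w < lev a + lev b →
      (P *ᵥ Z' a) ⬝ᵥ (A.map (algebraMap ℚ ℂ) *ᵥ (P *ᵥ Z' b)) = 0 := by
  intro a b hab
  have h1 : HodgeZ lev P w Z (e2 A) := by
    intro c hc
    rw [Fin.sum_univ_two] at hc
    rw [e2_val A fun j => P *ᵥ Z (c j)]
    exact h (c 0) (c 1) (by omega)
  have h2 := hFP 2 (e2 A) (fun u hu => e2_tA A (hA u hu)) x y Z Z' hx hy h1 ![a, b] (by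
    rw [Fin.sum_univ_two]
    simp only [Matrix.cons_val_zero, Matrix.cons_val_one]
    omega)
  rw [e2_val A fun j => P *ᵥ Z' (![a, b] j)] at h2
  exact h2

theorem setZ (P Z : Matrix d d ℂ) (lev : d → ℕ) (p : ℕ) :
    {y | ∃ a : d, p ≤ lev a ∧ y = P *ᵥ Z a} = (fun a => P *ᵥ Z a) '' {a | p ≤ lev a} := by
  ext y
  constructor
  · rintro ⟨a, ha, rfl⟩
    exact ⟨a, ha, rfl⟩
  · rintro ⟨a, ha, rfl⟩
    exact ⟨a, ha, rfl⟩

/-- TSG -/
theorem tsg : TsgStmt := by
  intro d _ _ F P w lev hP hw hFP x y Z Z' hx hy E E' V V' hV hInv hFil hV' hFil'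
  classical
  have hiso := uniI F hInv
  have hFd : IsUnit (E.map (algebraMap ℚ ℂ)).det := det_map (det_ne hV)
  refine lig d w E E' V V' (F.Mo P) hw hV hV' hiso (fun t hti ht => ?_) ?_
  · exact hdg_of_hodgeZ hV' hFil' (hFP 4 t hti x y Z Z' hx hy (hodgeZ_of_hdg hFil ht))
  · intro Q hQu hQ hQ' π π' hπ hπ' h1 h1' h2 h2'
    have hmem : ∀ (p : ℕ) (a : d), p ≤ lev a → P *ᵥ Z a ∈ ⨆ p' ∈ Set.Ici p, V p' := by
      intro p a ha
      rw [hFil p]
      exact Submodule.subset_span ⟨a, ha, rfl⟩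
    have hE : ∀ (y : ℂ) (W : Matrix d d ℂ), Branch F y W → ∀ a b : d, w < lev a + lev b →
        (P *ᵥ W a) ⬝ᵥ (E.map (algebraMap ℚ ℂ) *ᵥ (P *ᵥ W b)) = 0 := by
      intro y W hW
      refine pairZ hFP hiso hx hW fun a b hab => ?_
      have h3 := pair_fil hV (Q := 1) (fun p x hx => by rwa [one_mulVec]) hab
        (hmem (lev a) a (le_refl _)) (hmem (lev b) b (le_refl _))
      rwa [one_mulVec] at h3
    have hEQ : ∀ (y : ℂ) (W : Matrix d d ℂ), Branch F y W → ∀ a b : d, w < lev a + lev b →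
        (P *ᵥ W a) ⬝ᵥ ((E * Q).map (algebraMap ℚ ℂ) *ᵥ (P *ᵥ W b)) = 0 := by
      intro y W hW
      refine pairZ hFP (fun u hu => ?_) hx hW fun a b hab => ?_
      · exact eq_inv hFd (hiso u hu) (zt_inv hiso hQu u hu)
      · have h3 := pair_fil hV (Q := Q.map (algebraMap ℚ ℂ)) hQ hab
          (hmem (lev a) a (le_refl _)) (hmem (lev b) b (le_refl _))
        rw [Matrix.map_mul, ← mulVec_mulVec]
        exact h3
    have hli : ∀ (y : ℂ) (W : Matrix d d ℂ), Branch F y W →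
        LinearIndependent ℂ (fun a => P *ᵥ W a) := fun y W hW =>
      pz_li hP (bra d F y W hW)
    -- the filtration is preserved at every point
    have hst : ∀ (y : ℂ) (W : Matrix d d ℂ), Branch F y W → ∀ p < w, ∀ a ∈ {a : d | p + 1 ≤ lev a},
        (Q.map (algebraMap ℚ ℂ)).mulVec (P *ᵥ W a) ∈
          Submodule.span ℂ ((fun a => P *ᵥ W a) '' {a : d | p + 1 ≤ lev a}) := by
      intro y W hW p hp
      refine stable_of_pair (hli y W hW) hFd {a : d | p + 1 ≤ lev a} {a : d | w - p ≤ lev a} ?_ ?_ ?_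
      · exact card_add hV hπ h1 h2 (hli x Z hx) (fun p => by rw [hFil p, setZ]) hp.le
      · intro a ha b hb
        exact hE y W hW b a (by
          have h3 : p + 1 ≤ lev a := ha
          have h4 : w - p ≤ lev b := hb
          omega)
      · intro a ha b hb
        have h3 := hEQ y W hW b a (by
          have h3 : p + 1 ≤ lev a := ha
          have h4 : w - p ≤ lev b := hb
          omega)
        rw [Matrix.map_mul] at h3
        exact h3
    -- the traces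
    have htr : ∀ p < w, (Q.map (algebraMap ℚ ℂ) * Pup w π (p + 1)).trace =
        (Q.map (algebraMap ℚ ℂ) * Pup w π' (p + 1)).trace := by
      intro p hp
      obtain ⟨A, hA⟩ : ∃ A : Set d, {a : d | p + 1 ≤ lev a} = A := ⟨_, rfl⟩
      have hst' : ∀ (y : ℂ) (W : Matrix d d ℂ), Branch F y W → ∀ a ∈ A,
          (Q.map (algebraMap ℚ ℂ)).mulVec (P *ᵥ W a) ∈
            Submodule.span ℂ ((fun a => P *ᵥ W a) '' A) := by
        intro y W hW
        rw [← hA]
        exact hst y W hW p hp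
      obtain ⟨N, hN⟩ := exN (v := fun a => P *ᵥ Z a) A (Q.map (algebraMap ℚ ℂ)) (hst' x Z hx)
      obtain ⟨N', hN'⟩ := exN (v := fun a => P *ᵥ Z' a) A (Q.map (algebraMap ℚ ℂ)) (hst' y Z' hy)
      have h3 := br_tr hP A (Q.map (algebraMap ℚ ℂ)) hst' hx hy N N' hN hN'
      have h5 := trp (hli x Z hx) A _ N hN (Pup w π (p + 1))
        (Pup_idem hπ _) (by rw [Pup_range hV.top hπ h1 h2, hFil, setZ, hA])
      have h6 := trp (hli y Z' hy) A _ N' hN' (Pup w π' (p + 1))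
        (Pup_idem hπ' _) (by rw [Pup_range hV'.top hπ' h1' h2', hFil', setZ, hA])
      rw [h5, h6, h3]
    rw [phi_eq, phi_eq, Finset.mul_sum, Finset.mul_sum, trace_sum, trace_sum]
    exact Finset.sum_congr rfl fun p hp => htr p (Finset.mem_range.1 hp)

/-- GEQ -/
theorem geq : GeqStmt.{u} := by
  have key : ∀ (d : Type) [Fintype d] [DecidableEq d] (F : Family d) (P : Matrix d d ℂ) (w : ℕ)
      (lev : d → ℕ), IsUnit P.det → 1 ≤ w → FixedPartB F lev P w →
      ∀ (x y : ℂ) (Z Z' : Matrix d d ℂ), Branch F x Z → Branch F y Z' →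
      ∀ (E E' : Matrix d d ℚ) (V V' : ℕ → Submodule ℂ (d → ℂ)), PolHodge w E V → F.InvM P E →
      FilAt lev P Z V → PolHodge w E' V' → FilAt lev P Z' V' →
      ∀ (K : Type u) [Field K] [CharZero K],
        GenM (F.Mo P) w V' K ⊆ GenM (F.Mo P) w V K := by
    intro d _ _ F P w lev hP hw hFP x y Z Z' hx hy E E' V V' hV hInv hFil hV' hFil' K _ _ M hM I hI
      hT hU
    refine hM I hI (fun T hT' => ?_) hU
    exact tsg d F P w lev hP hw hFP x y Z Z' hx hy E E' V V' hV hInv hFil hV' hFil' hT' I hI hT hU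
  intro d _ _ F P w lev hP hw hFP x y Z Z' hx hy E E' V V' hV hInv hFil hV' hInv' hFil' K _ _
  exact Set.Subset.antisymm
    (key d F P w lev hP hw hFP y x Z' Z hy hx E' E V' V hV' hInv' hFil' hV hFil K)
    (key d F P w lev hP hw hFP x y Z Z' hx hy E E' V V' hV hInv hFil hV' hFil' K)

end Pool.Agent.MTPN.H39
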