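import Pool.Agent.MTPN.Final
import Pool.Agent.Helper39_MTP.Tsg
import Pool.Agent.Helper39_MTP.Bry
import Pool.Agent.Helper39_MTP.Mob

/-! MTPN: assembly. -/

set_option autoImplicit false
set_option linter.unusedSectionVars false

namespace Pool.Agent.MTPN.H39

open Matrix Polynomial NumberField Pool.Agent.MT100 Pool.Agent.MT100G Pool.Agent.MT100A
  Pool.Agent.MT100D Pool.Agent.Helper78_MT Pool.Agent.MTL Pool.Agent.MTN Pool.Agent.HIK

universe u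

/-- the stabiliser of an algebraic number has finite index -/
theorem stab_fi (a : QB) : (Stab a).FiniteIndex := by
  have hal : Algebra.IsAlgebraic ℚ QB := AlgebraicClosure.isAlgebraic ℚ
  have hint : IsIntegral ℚ a := (hal.isAlgebraic a).isIntegral
  have hfin : (MulAction.orbit GQ a).Finite := by
    refine ((minpoly ℚ a).rootSet_finite QB).subset ?_
    rintro _ ⟨g, rfl⟩
    rw [Polynomial.mem_rootSet]
    refine ⟨minpoly.ne_zero hint, ?_⟩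
    have h1 := Polynomial.aeval_algHom_apply (g : QB →ₐ[ℚ] QB) a (minpoly ℚ a)
    rw [minpoly.aeval, map_zero] at h1
    exact h1
  have : Finite (MulAction.orbit GQ a) := hfin
  rw [Subgroup.finiteIndex_iff_finite_quotient]
  exact Finite.of_equiv _ (MulAction.orbitEquivQuotientStabilizer GQ a)

theorem spec_h {G : Type*} [Group G] {ρ : GT →* G} {a : QB} {ρ0 : Stab a →* G}
    (h : SpecializesAt ρ a ρ0) : SpecH ρ a (Stab a) ρ0 := by
  obtain ⟨π, h1, h2⟩ := h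
  exact ⟨fun g hg => hg, π, h1, fun σ g => h2 σ g⟩

theorem int_aut {d : Type} [Fintype d] [DecidableEq d] {F : Family d} {P : Matrix d d ℂ}
    (h : F.IntM P) (τ : ℂ ≃+* ℂ) : ∀ γ ∈ F.Mo P, γ.map τ = γ := by
  intro γ hγ
  obtain ⟨A, rfl⟩ := h γ hγ
  ext i j
  simp

/-- the final statement -/
theorem prop (hN : N1hStmt.{u}) (hW : WdzStmt) (hP : PidStmt) (hZ : DzcStmt) (hF : FinStmt.{u})
    (hD : DekStmt) : PropStmt.{u} := by
  intro d _ _ F w lev hw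
  obtain ⟨C, R1, R0, hC⟩ := hN d F w lev hw
  obtain ⟨RF, hRF⟩ := bry d F
  refine ⟨C, fun m A K => max (R1 m A K) (RF + K + 1), fun P hPu hPi hFP => ?_⟩
  obtain ⟨S, hS1, -, hS3⟩ := hC P hPu hPi
  obtain ⟨S', hS'⟩ : ∃ S' : Set ℂ, S' = S ∪ {x | ‖x‖ ≤ RF} := ⟨_, rfl⟩
  have hwin : ∀ (m A K : ℕ), ∀ x ∈ Pts m A, max (R1 m A K) (RF + K + 1) ≤ ‖x‖ →
      Nat.card {κ : ℕ // κ < K ∧ x - κ ∈ S'} ≤ C := by
    intro m A K x hx hxR
    have h1 : ∀ κ : ℕ, (κ < K ∧ x - κ ∈ S') ↔ (κ < K ∧ x - κ ∈ S) := by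
      intro κ
      rw [hS']
      refine and_congr_right fun hκ => ⟨?_, fun h => Or.inl h⟩
      rintro (h | h)
      · exact h
      · exfalso
        have h2 : ‖x - κ‖ ≤ RF := h
        have h3 : ‖x‖ ≤ ‖x - κ‖ + ‖(κ : ℂ)‖ := by
          have := norm_add_le (x - (κ : ℂ)) (κ : ℂ)
          rwa [sub_add_cancel] at this
        rw [Complex.norm_natCast] at h3
        have h4 : (κ : ℝ) < K := by exact_mod_cast hκ
        have h5 := (le_max_right _ _).trans hxR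
        linarith
    rw [Nat.card_congr (Equiv.subtypeEquivRight h1)]
    exact hS1 m A K x hx ((le_max_left _ _).trans hxR)
  have hHodge : ∀ x : ℂ, x ∉ S' → ∀ (E : Matrix d d ℚ) (V : ℕ → Submodule ℂ (d → ℂ)),
      FibreC F lev P w x E V →
      ∀ (y : ℂ) (V0 : ℕ → Submodule ℂ (d → ℂ)), FibreB F lev P w y V0 →
      ∀ (K : Type u) [Field K] [CharZero K], mtGroup w V K = GenM (F.Mo P) w V0 K := by
    intro x hx E V hV y V0 hV0 K _ _
    rw [hS'] at hx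
    have hx1 : x ∉ S := fun h => hx (Or.inl h)
    have hx2 : RF < ‖x‖ := not_le.1 fun h => hx (Or.inr h)
    rw [(hS3 x hx1 E V hV).1 K]
    obtain ⟨Z, E0, hb, hp, hi, hf⟩ := hV0
    exact geq d F P w lev hPu hw hFP x y (F.Y x) Z (hRF x hx2) hb E E0 V V0 hV.1 hV.2.1 hV.2.2 hp hi
      hf K
  have hdz : ∀ (k : Type) [Field k] [NumberField k] (σ : k →+* ℂ), DZ k {a : 𝓞 k | σ a ∈ S'} :=
    hW S' C _ hwin
  refine ⟨S', hwin, hdz, hHodge, ?_⟩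
  intro ρ hρ k _ _ σ
  -- the sets for all primes
  have hex : ∀ ℓ : ℕ, ∃ Sl : Set (𝓞 k), DZ k Sl ∧ ∀ [Fact ℓ.Prime], ∀ a ∉ Sl,
      ∀ (ψ : k →+* QB) (ρa : Stab (ψ a) →* GL d ℚ_[ℓ]), SpecializesAt (ρ ℓ) (ψ a) ρa →
        ∀ (F : Type u) [Field F] [Algebra ℚ_[ℓ] F], monodromy ρa F = monodromy (ρ ℓ) F := by
    intro ℓ
    by_cases hl : ℓ.Prime
    · have : Fact ℓ.Prime := ⟨hl⟩
      obtain ⟨Sl, h1, h2⟩ := hF k d ℓ (ρ ℓ) (hρ ℓ)
      exact ⟨Sl, h1, fun a ha ψ ρa h => h2 a ha ψ ρa h⟩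
    · refine ⟨∅, (hZ k).2.2.1 ∅ Set.finite_empty, ?_⟩
      intro hl'
      exact absurd hl'.out hl
  choose Sl hSl1 hSl2 using hex
  obtain ⟨T', N, hT'1, hT'2⟩ := hP k Sl hSl1
  refine ⟨T' ∪ {a : 𝓞 k | σ a ∈ S'}, N, ?_, ?_⟩
  · have h1 := (hZ k).2.1 Bool (fun b => if b then T' else {a : 𝓞 k | σ a ∈ S'}) (by
      intro b
      cases b
      · exact hdz k σ
      · exact hT'1)
    refine (hZ k).1 _ _ ?_ h1
    rintro a (ha | ha)
    · exact Set.mem_iUnion.2 ⟨true, ha⟩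
    · exact Set.mem_iUnion.2 ⟨false, ha⟩
  · intro ℓ _ ι hgeo a0 ρ0 hs0 a ha hN ψ ρa hsa
    have ha1 : a ∉ Sl ℓ := fun h => ha (Or.inl (hT'2 ℓ a h hN))
    have ha2 : (σ a : ℂ) ∉ S' := fun h => ha (Or.inr h)
    have hmon := hSl2 ℓ a ha1 ψ ρa hsa
    refine ⟨fun K _ _ _ => ?_, ?_⟩
    · rw [hmon K]
      exact mob hD d (F.Mo P) (int_aut hPi) ℓ ι (ρ ℓ) hgeo a0 (Stab a0) ρ0 (stab_fi a0)
        (spec_h hs0) K
    · intro ε V0 hV0 hmt E V hV K _ _ _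
      rw [hmon K, hHodge _ ha2 E V hV (ε a0) V0 hV0 K]
      exact moe hD d (F.Mo P) (int_aut hPi) ℓ ι (ρ ℓ) hgeo w V0 a0 (Stab a0) ρ0 (stab_fi a0)
        (spec_h hs0) hmt K

end Pool.Agent.MTPN.H39
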