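import Pool.Agent.Helper39_MTP.AssC
import Pool.Agent.HIK.All
import Pool.Agent.Helper21_HIK.SML
import Pool.Agent.Helper88_MTN.N1h
import Pool.Agent.Helper97_MTD.Ass
import Pool.Agent.Helper76_MTN.NMZ
import Pool.Agent.Helper64_MTN.ELZ
import Pool.Agent.Helper21_MTN.MAZ
import Pool.Agent.Helper21_MTN.GFE
import Pool.Agent.Helper1_MTN.Gme
import Pool.Agent.Helper1_MTN.Vgc
import Pool.Agent.Helper29_MTN.FSC
import Pool.Agent.Helper38_MTN.AMP
import Pool.Agent.Helper63_MTN.TRP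
import Pool.Agent.Helper92_MTN.FPZ
import Pool.Agent.Helper49_MTN.PTH
import Pool.Agent.Helper82_MTN.WDZ
import Pool.Agent.Helper10_MTN.Pid

/-! MTPN: unconditional assembly. -/

set_option autoImplicit false

namespace Pool.Agent.MTPN.H39

open Pool.Agent.MT100D Pool.Agent.MTN Pool.Agent.HIK

universe u

theorem vgcA : VgcStmt := MTN.H1.vgc
theorem fscA : FscStmt := MTN.H29.fsc MT100D.H97.fsa' vgcA MT100D.H20.trgD
theorem gmeA : GmeStmt := MTN.H1.gme MTN.H21.gfe
theorem nmzA : NmzStmt :=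
  MTN.H76.nmz gmeA vgcA fscA MTN.H38.amp MT100D.H20.trgD MT100D.H83.sysD
theorem elzA : ElzStmt := MTN.H64.elz nmzA MTN.H63.trp
theorem mazA : MazStmt.{u} :=
  MTN.H21.maz elzA MT100A.H20.ten MT100A.H78.teu MT100A.H64.lie MT100D.H97.bas MT100D.H97.moa
theorem smlA : HIK.SmlStmt := HIK.H21.sml avgA
theorem wdzA : WdzStmt := MTN.H82.wdz MTN.H49.pth avwA smlA dzcA boxA
theorem n1hA : N1hStmt.{u} := MTN.H88.n1h mazA wdzA MTN.H92.fpz
theorem pidA : PidStmt := MTN.H10.pid dzcA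

/-- the theorem for families over curves -/
theorem propCA : PropCStmt.{u} := propC n1hA wdzA pidA dzcA srbA monA dekA

end Pool.Agent.MTPN.H39
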