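import Pool.Agent.Helper39_MTP.AssU
import Pool.Agent.Helper88_PSV.AllZ
import Pool.Agent.Helper39_HUK.SUA
import Pool.Agent.Helper37_HUK.EXA
import Pool.Agent.Helper20_HUK.FRC
import Pool.Agent.Helper62_HUK.SPM

/-! MTPN: unconditional assembly, uniform over all number fields. -/

set_option autoImplicit false

namespace Pool.Agent.MTPN.H39

open Pool.Agent.MT100D Pool.Agent.MTN Pool.Agent.HIK Pool.Agent.PSV Pool.Agent.PSV.H88

universe u

/-- the theorem for families over curves, uniform over all number fields -/
theorem propUA : PropUStmt.{u} :=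
  propU H60.szm maqA (HUK.H39U.sua svaA) HUK.H13.sca HUK.H84.sda HUK.H37.exa HUK.H20.frc
    (HUK.H62.spm HUK.H81.hbc) monA dekA

end Pool.Agent.MTPN.H39
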