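import Pool.Agent.Helper39_MTP.AssV
import Pool.Agent.Helper88_PSV.AllZ
import Pool.Agent.Helper39_HUK.SUA

/-! MTPN: unconditional assembly, uniform over all number fields, with explicit exponents. -/

set_option autoImplicit false

namespace Pool.Agent.MTPN.H39

open Pool.Agent.MT100D Pool.Agent.MTN Pool.Agent.HIK Pool.Agent.PSV Pool.Agent.PSV.H88

universe u

/-- the theorem for families over curves, uniform over all number fields -/
theorem propVA : PropVStmt.{u} :=
  propV H60.szm maqA (HUK.H39U.sua svaA) HUK.H13.sca HUK.H84.sda HUK.H81.hbc monA dekA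

end Pool.Agent.MTPN.H39
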