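import Pool.Agent.Helper39_MTP.Blk
import Pool.Agent.Helper39_MTP.Mob
import Pool.Agent.Helper39_MTP.Ass

/-! MTPN: the connected monodromy groups for open subgroups of the Galois group of `ℚ(t)`. -/

set_option autoImplicit false
set_option linter.unusedSectionVars false

namespace Pool.Agent.MTPN.H39

open Matrix Polynomial Pool.Agent.MT100 Pool.Agent.MT100G Pool.Agent.MT100A Pool.Agent.MT100D
  Pool.Agent.Helper78_MT Pool.Agent.MTL Pool.Agent.Helper3_MT Pool.Agent.HIK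
open Pool.Agent.MT100A.H97 (det_uni zcl_one zcl_inv clo_sub des_group pev_ring span_pev Uni_aut)

universe u

/-! ### Galois groups -/

theorem geoN (H : Subgroup GT) : (Ggeo.subgroupOf H).Normal :=
  Subgroup.Normal.comap gno H.subtype

/-- the decomposition groups have finite index -/
theorem stabH_fi (hD : DekStmt) {H : Subgroup GT} (hH : H.FiniteIndex) (π : BB →+* QB) :
    (StabH H π).FiniteIndex := by
  obtain ⟨H', h1, h2⟩ := dfi hD (π (algebraMap ℚ[X] BB X)) π rfl (Stab (π (algebraMap ℚ[X] BB X)))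
    (fun g hg => hg) H hH
  have h3 : (H'.map (Stab (π (algebraMap ℚ[X] BB X))).subtype).FiniteIndex := by
    refine ⟨?_⟩
    rw [Subgroup.index_map_subtype]
    exact mul_ne_zero h1.index_ne_zero (stab_fi _).index_ne_zero
  refine Subgroup.finiteIndex_of_le (H := H'.map (Stab (π (algebraMap ℚ[X] BB X))).subtype) ?_
  rintro _ ⟨g, hg, rfl⟩
  exact h2 g hg

/-- GEO for open subgroups -/
theorem geoH (hD : DekStmt) {H : Subgroup GT} (hH : H.FiniteIndex) (π : BB →+* QB)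
    (H1 : Subgroup (StabH H π)) (hH1 : H1.FiniteIndex) (X : Subgroup H)
    (hX1 : Ggeo.subgroupOf H ≤ X)
    (hX2 : ∀ (σ : H), ∀ g ∈ H1, (∀ b : BB, π ((σ : GT) • b) = ((g : StabH H π) : GQ) (π b)) →
      σ ∈ X) : X.FiniteIndex := by
  obtain ⟨j, hj⟩ := ex_iso π
  let θ : GT →* GQ := (AlgEquiv.autCongr j).toMonoidHom.comp rsC
  have hθ : ∀ (σ : GT) (c : Cs), θ σ (π (cB c)) = π (σ • cB c) := by
    intro σ c
    have h1 : θ σ (j c) = j (rsC σ c) := by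
      show j (rsC σ (j.symm (j c))) = _
      rw [AlgEquiv.symm_apply_apply]
    rw [hj, hj] at h1
    rw [h1]
    congr 1
    apply Subtype.ext
    rw [cB_coe, rsC_apply]
    rfl
  have hfi1 : (H1.map (StabH H π).subtype).FiniteIndex := by
    refine ⟨?_⟩
    rw [Subgroup.index_map_subtype]
    exact mul_ne_zero hH1.index_ne_zero (stabH_fi hD hH π).index_ne_zero
  have hfi : ((H1.map (StabH H π).subtype).comap (θ.comp H.subtype)).FiniteIndex := by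
    refine ⟨?_⟩
    rw [Subgroup.index_comap]
    exact (inferInstance : ((H1.map (StabH H π).subtype).subgroupOf
      (θ.comp H.subtype).range).FiniteIndex).index_ne_zero
  refine Subgroup.finiteIndex_of_le
    (H := (H1.map (StabH H π).subtype).comap (θ.comp H.subtype)) ?_
  rintro σ ⟨g, hg, hgσ⟩
  have hgσ' : (g : GQ) = θ (σ : GT) := hgσ
  obtain ⟨δ, hδH, hδ⟩ := g.2
  have hδX : (⟨δ, hδH⟩ : H) ∈ X := hX2 ⟨δ, hδH⟩ g hg hδ
  have hgeo : δ⁻¹ * (σ : GT) ∈ Ggeo := by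
    intro x hx
    have h1 : ∀ c : Cs, (σ : GT) (c : Om) = δ (c : Om) := by
      intro c
      have h2 : π ((σ : GT) • cB c) = π (δ • cB c) := by rw [hδ, hgσ', hθ]
      have h3 : (σ : GT) • cB c = cB (rsC (σ : GT) c) :=
        Subtype.ext (by rw [cB_coe, rsC_apply]; rfl)
      have h4 : δ • cB c = cB (rsC δ c) := Subtype.ext (by rw [cB_coe, rsC_apply]; rfl)
      rw [h3, h4, ← hj, ← hj] at h2
      have h5 := congrArg (fun z : Cs => (z : Om)) (j.injective h2)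
      simp only [rsC_apply] at h5
      exact h5
    have hxi : x ∈ Cs := mem_algebraicClosure_iff.2 hx
    show δ⁻¹ ((σ : GT) x) = x
    rw [h1 ⟨x, hxi⟩]
    exact δ.symm_apply_apply x
  have h6 : σ = (⟨δ, hδH⟩ : H) * ((⟨δ, hδH⟩ : H)⁻¹ * σ) := by rw [mul_inv_cancel_left]
  rw [h6]
  refine X.mul_mem hδX (hX1 ?_)
  rw [Subgroup.mem_subgroupOf]
  exact hgeo

/-- DFI for open subgroups -/
theorem dfiH (H : Subgroup GT) (π : BB →+* QB) (Γ' : Subgroup H) (hΓ' : Γ'.FiniteIndex) :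
    ∃ H' : Subgroup (StabH H π), H'.FiniteIndex ∧ ∀ g ∈ H', ∃ σ ∈ Γ', ∀ b : BB,
      π ((σ : GT) • b) = ((g : StabH H π) : GQ) (π b) := by
  have hmul : ∀ (σ σ' : H) (g g' : StabH H π), (∀ b : BB, π ((σ : GT) • b) = (g : GQ) (π b)) →
      (∀ b : BB, π ((σ' : GT) • b) = (g' : GQ) (π b)) →
      ∀ b : BB, π (((σ * σ' : H) : GT) • b) = ((g * g' : StabH H π) : GQ) (π b) := by
    intro σ σ' g g' h h' b
    rw [Subgroup.coe_mul, mul_smul, h, h']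
    rfl
  have hinv : ∀ (σ : H) (g : StabH H π), (∀ b : BB, π ((σ : GT) • b) = (g : GQ) (π b)) →
      ∀ b : BB, π (((σ⁻¹ : H) : GT) • b) = ((g⁻¹ : StabH H π) : GQ) (π b) := by
    intro σ g h b
    have h1 := h ((σ : GT)⁻¹ • b)
    rw [smul_inv_smul] at h1
    rw [Subgroup.coe_inv, h1]
    exact ((g : GQ).symm_apply_apply _).symm
  let H' : Subgroup (StabH H π) :=
    { carrier := {g | ∃ σ ∈ Γ', ∀ b : BB, π ((σ : GT) • b) = ((g : StabH H π) : GQ) (π b)}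
      mul_mem' := fun {g g'} ⟨σ, h1, h2⟩ ⟨σ', h1', h2'⟩ =>
        ⟨σ * σ', Γ'.mul_mem h1 h1', hmul σ σ' g g' h2 h2'⟩
      one_mem' := ⟨1, Γ'.one_mem, fun b => by rw [Subgroup.coe_one, one_smul]; rfl⟩
      inv_mem' := fun {g} ⟨σ, h1, h2⟩ => ⟨σ⁻¹, Γ'.inv_mem h1, hinv σ g h2⟩ }
  refine ⟨H', ?_, fun g hg => hg⟩
  have hch : ∀ g : StabH H π, ∃ σ : H, ∀ b : BB, π ((σ : GT) • b) = (g : GQ) (π b) := by
    rintro ⟨g, σ, hσ, h⟩
    exact ⟨⟨σ, hσ⟩, h⟩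
  choose s hs using hch
  have := hΓ'
  rw [Subgroup.finiteIndex_iff_finite_quotient]
  refine Finite.of_injective (fun q : (StabH H π) ⧸ H' => ((s q.out : H) : H ⧸ Γ')) ?_
  intro q q' hq
  have h1 : (s q.out)⁻¹ * s q'.out ∈ Γ' := QuotientGroup.eq.1 hq
  have h2 : (q.out)⁻¹ * q'.out ∈ H' :=
    ⟨_, h1, hmul _ _ _ _ (hinv _ _ (hs q.out)) (hs q'.out)⟩
  have h3 := QuotientGroup.eq.2 h2
  rwa [QuotientGroup.out_eq', QuotientGroup.out_eq'] at h3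

/-! ### The connected monodromy groups -/

variable {d : Type} [Fintype d] [DecidableEq d]

/-- the words in the elements of `U` -/
theorem clo_aut {U : Set (Matrix d d ℂ)} (hr : ∀ τ : ℂ ≃+* ℂ, ∀ u ∈ U, u.map τ ∈ U) (τ : ℂ ≃+* ℂ) :
    ∀ z ∈ (Submonoid.closure U : Set (Matrix d d ℂ)),
      z.map τ ∈ (Submonoid.closure U : Set (Matrix d d ℂ)) := by
  intro z hz
  have hz' : z ∈ Submonoid.closure U := hz
  show z.map τ ∈ Submonoid.closure U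
  clear hz
  induction hz' using Submonoid.closure_induction with
  | mem x hx => exact Submonoid.subset_closure (hr τ x hx)
  | one =>
    rw [Matrix.map_one τ (map_zero τ) (map_one τ)]
    exact Submonoid.one_mem _
  | mul x y _ _ hx hy =>
    have h1 : (x * y).map τ = x.map τ * y.map τ := by
      have := map_mul (τ : ℂ →+* ℂ).mapMatrix x y
      rwa [RingHom.mapMatrix_apply, RingHom.mapMatrix_apply, RingHom.mapMatrix_apply] at this
    rw [h1]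
    exact Submonoid.mul_mem _ hx hy

/-- the algebraic group over `ℚ` generated by `U` -/
theorem u_group {U : Set (Matrix d d ℂ)} (hr : ∀ τ : ℂ ≃+* ℂ, ∀ u ∈ U, u.map τ ∈ U)
    (hdet : ∀ u ∈ U, IsUnit u.det) :
    ∃ I : Set (MvPolynomial (d × d) ℚ), IsAlgSubgroup I ∧ U ⊆ zeros I ℂ ∧
      ∀ (L : Type) [Field L] [CharZero L] (ι : L →+* ℂ) (J : Set (MvPolynomial (d × d) L)),
        IsAlgSubL ι J → U ⊆ zerosC ι J → ∀ g : Matrix d d L, g ∈ zeros I L →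
          g ∈ zerosL J L := by
  obtain ⟨Z, hZ⟩ : ∃ Z : Submonoid (Matrix d d ℂ), Z = Submonoid.closure U := ⟨_, rfl⟩
  have haut : ∀ (τ : ℂ ≃+* ℂ), ∀ z ∈ (Z : Set (Matrix d d ℂ)), z.map τ ∈ (Z : Set (Matrix d d ℂ)) := by
    rw [hZ]
    exact clo_aut hr
  obtain ⟨hze, hzg⟩ := des_group H64.des (Z := (Z : Set (Matrix d d ℂ)))
    (fun a ha b hb => Submonoid.mul_mem _ ha hb) (Submonoid.one_mem _) haut
  refine ⟨_, hzg, ?_, ?_⟩
  · intro u hu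
    rw [hze]
    refine ⟨hdet u hu, fun p hp => hp _ ?_⟩
    rw [hZ]
    exact Submonoid.subset_closure hu
  · intro L _ _ ι J hJ hUJ g hg
    refine ⟨hg.1, fun f hf => ?_⟩
    have h6 := H64.des d (Z : Set (Matrix d d ℂ)) haut L ι f (by
      intro z hz
      rw [hZ] at hz
      have hz' : z ∈ Submonoid.closure U := hz
      clear hz
      have hzJ : z ∈ zerosC ι J := by
        induction hz' using Submonoid.closure_induction with
        | mem x hx => exact hUJ hx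
        | one => exact hJ.1
        | mul x y _ _ hx hy => exact hJ.2.1 _ hx _ hy
      exact hzJ.2 f hf)
    exact span_pev hg.2 h6

section mono
variable {H : Subgroup GT} {U : Set (Matrix d d ℂ)} {ℓ : ℕ} [Fact ℓ.Prime] {ι : ℚ_[ℓ] →+* ℂ}
  {ρ : H →* GL d ℚ_[ℓ]} {π : BB →+* QB} {ρ0 : StabH H π →* GL d ℚ_[ℓ]}

/-- the first inclusion, Mumford-Tate groups -/
theorem moeH_le (hD : DekStmt) (hH : H.FiniteIndex) (hgeo : GeoU U H ι ρ) {w : ℕ}
    {V : ℕ → Submodule ℂ (d → ℂ)} (hsp : HIK.SpecH H ρ π ρ0)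
    (hmt : monodromy ρ0 ℚ_[ℓ] ⊆ mtGroup w V ℚ_[ℓ])
    {K : Type u} [Field K] [CharZero K] [Algebra ℚ_[ℓ] K] {x : Matrix d d K}
    (hx : x ∈ monodromy ρ K) : x ∈ GenU U w V K := by
  intro I hI hT hU
  obtain ⟨-, Γg, hΓg, hΓg', hc2⟩ := hgeo
  obtain ⟨H1, hH1, hn⟩ := noe d ℓ (StabH H π) ρ0
  have hX1 : ((Xi ι ρ hI).subgroupOf (Ggeo.subgroupOf H)).FiniteIndex := by
    have := hΓg
    refine Subgroup.finiteIndex_of_le (H := Γg.subgroupOf (Ggeo.subgroupOf H)) ?_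
    intro γ hγ
    rw [Subgroup.mem_subgroupOf] at hγ
    rw [Subgroup.mem_subgroupOf, mem_Xi]
    exact hc2 _ hγ I hI hU
  have hX2 : (Xi ι ρ hI ⊔ Ggeo.subgroupOf H).FiniteIndex := by
    refine geoH hD hH π H1 hH1 _ le_sup_right ?_
    intro σ g hg h
    apply Subgroup.mem_sup_left
    rw [mem_Xi, ← hsp σ g h]
    exact hmt (hn g hg) I hI hT
  have hX := idx H (Ggeo.subgroupOf H) (Xi ι ρ hI) (geoN H) hX1 hX2
  obtain ⟨h1, h2⟩ := hx _ hX
  refine ⟨h1, fun p hp => ?_⟩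
  have h3 := h2 (MvPolynomial.map (algebraMap ℚ ℚ_[ℓ]) p) (by
    rintro _ ⟨γ, hγ, rfl⟩
    rw [pev_map]
    exact ((mem_Xi ι ρ hI γ).1 hγ).2 p hp)
  rwa [pev_map] at h3

/-- the second inclusion, Mumford-Tate groups -/
theorem moeH_ge (hr : ∀ τ : ℂ ≃+* ℂ, ∀ u ∈ U, u.map τ ∈ U) (hdet : ∀ u ∈ U, IsUnit u.det)
    (hgeo : GeoU U H ι ρ) {w : ℕ} {V : ℕ → Submodule ℂ (d → ℂ)} (hsp : HIK.SpecH H ρ π ρ0)
    (hmt : ∀ (K : Type) [Field K] [CharZero K] [Algebra ℚ_[ℓ] K], mtGroup w V K ⊆ monodromy ρ0 K)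
    {K : Type u} [Field K] [CharZero K] [Algebra ℚ_[ℓ] K] {x : Matrix d d K}
    (hx : x ∈ GenU U w V K) : x ∈ monodromy ρ K := by
  intro Γ' hΓ'
  obtain ⟨hc1, -⟩ := hgeo
  obtain ⟨T, hT⟩ : ∃ T : Set (Matrix d d ℂ), T = {X | ∃ γ ∈ Γ', X = (ρ γ : Matrix d d ℚ_[ℓ]).map ι} :=
    ⟨_, rfl⟩
  have hmap : ∀ a b : H, (ρ (a * b) : Matrix d d ℚ_[ℓ]).map ι =
      (ρ a : Matrix d d ℚ_[ℓ]).map ι * (ρ b : Matrix d d ℚ_[ℓ]).map ι := by
    intro a b
    rw [map_mul, GeneralLinearGroup.coe_mul]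
    have := map_mul ι.mapMatrix (ρ a : Matrix d d ℚ_[ℓ]) (ρ b : Matrix d d ℚ_[ℓ])
    rwa [RingHom.mapMatrix_apply, RingHom.mapMatrix_apply, RingHom.mapMatrix_apply] at this
  have hmap1 : (ρ 1 : Matrix d d ℚ_[ℓ]).map ι = 1 := by
    rw [map_one, GeneralLinearGroup.coe_one]
    exact Matrix.map_one ι (map_zero ι) (map_one ι)
  have hTm : ∀ a ∈ T, ∀ b ∈ T, a * b ∈ T := by
    rw [hT]
    rintro _ ⟨a, ha, rfl⟩ _ ⟨b, hb, rfl⟩
    exact ⟨a * b, Γ'.mul_mem ha hb, (hmap a b).symm⟩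
  have hT1 : (1 : Matrix d d ℂ) ∈ T := by
    rw [hT]
    exact ⟨1, Γ'.one_mem, hmap1.symm⟩
  let _ : Algebra ℚ_[ℓ] ℂ := ι.toAlgebra
  have hUT : ∀ u ∈ U, u ∈ zcl T := by
    intro u hu
    refine ⟨hdet u hu, fun q hq => ?_⟩
    refine vanish_basechange (F := ℚ_[ℓ]) (K := ℂ)
      (S := {X | ∃ γ ∈ Γ', X = (ρ γ : Matrix d d ℚ_[ℓ])}) ?_ q ?_
    · intro p hp
      have hfi : ((Γ' ⊓ Ggeo.subgroupOf H).subgroupOf (Ggeo.subgroupOf H)).FiniteIndex := by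
        rw [Subgroup.inf_subgroupOf_right]
        have := hΓ'
        infer_instance
      have h6 := hc1 (Γ' ⊓ Ggeo.subgroupOf H) hfi inf_le_right p
        (fun γ hγ => hp _ ⟨γ, hγ.1, rfl⟩) u hu
      have h7 : pev u (MvPolynomial.map (algebraMap ℚ_[ℓ] ℂ) p) = pev u p := pev_map u p
      rw [← h7]
      exact h6
    · rintro _ ⟨γ, hγ, rfl⟩
      apply hq
      rw [hT]
      exact ⟨γ, hγ, rfl⟩
  obtain ⟨H', hH', hHs⟩ := dfiH H π Γ' hΓ'
  have hMT : ∀ g ∈ mtGroup w V ℂ, g ∈ zcl T := by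
    intro g hg
    obtain ⟨h1, h2⟩ := hmt ℂ hg H' hH'
    refine ⟨h1, fun q hq => ?_⟩
    refine vanish_basechange (F := ℚ_[ℓ]) (K := ℂ)
      (S := {X | ∃ γ ∈ Γ', X = (ρ γ : Matrix d d ℚ_[ℓ])}) ?_ q ?_
    · intro p hp
      apply h2
      rintro _ ⟨γ, hγ, rfl⟩
      obtain ⟨σ, hσ, hσ2⟩ := hHs γ hγ
      rw [hsp σ γ hσ2]
      exact hp _ ⟨σ, hσ, rfl⟩
    · rintro _ ⟨γ, hγ, rfl⟩
      apply hq
      rw [hT]
      exact ⟨γ, hγ, rfl⟩
  obtain ⟨Z, hZ⟩ : ∃ Z : Submonoid (Matrix d d ℂ), Z = Submonoid.closure (U ∪ mtGroup w V ℂ) :=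
    ⟨_, rfl⟩
  have hZT : (Z : Set (Matrix d d ℂ)) ⊆ zcl T := by
    rw [hZ]
    apply clo_sub hTm hT1
    rintro z (hz | hz)
    · exact hUT z hz
    · exact hMT z hz
  have haut : ∀ (τ : ℂ ≃+* ℂ), ∀ z ∈ (Z : Set (Matrix d d ℂ)), z.map τ ∈ (Z : Set (Matrix d d ℂ)) := by
    rw [hZ]
    refine clo_aut ?_
    rintro τ u (hu | hu)
    · exact Or.inl (hr τ u hu)
    · exact Or.inr fun I hI hT => zeros_aut τ (hu I hI hT)
  obtain ⟨hze, hzg⟩ := des_group H64.des (Z := (Z : Set (Matrix d d ℂ)))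
    (fun a ha b hb => Submonoid.mul_mem _ ha hb) (Submonoid.one_mem _) haut
  have hxz := hx _ hzg (by
    intro t ht
    rw [hze]
    refine ⟨(hMT t (tor_mt ht)).1, fun p hp => hp _ ?_⟩
    rw [hZ]
    exact Submonoid.subset_closure (Or.inr (tor_mt ht))) (by
    intro u hu
    rw [hze]
    refine ⟨hdet u hu, fun p hp => hp _ ?_⟩
    rw [hZ]
    exact Submonoid.subset_closure (Or.inl hu))
  refine ⟨hxz.1, fun f hf => ?_⟩
  have h6 := H64.des d (Z : Set (Matrix d d ℂ)) haut ℚ_[ℓ] ι f (by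
    intro z hz
    apply (hZT hz).2
    rw [hT]
    rintro _ ⟨γ, hγ, rfl⟩
    rw [pev_ring, hf _ ⟨γ, hγ, rfl⟩, map_zero])
  exact span_pev hxz.2 h6

/-- MOB for open subgroups -/
theorem mobH (hD : DekStmt) (hH : H.FiniteIndex) (hr : ∀ τ : ℂ ≃+* ℂ, ∀ u ∈ U, u.map τ ∈ U)
    (hdet : ∀ u ∈ U, IsUnit u.det) (hgeo : GeoU U H ι ρ) (hsp : HIK.SpecH H ρ π ρ0)
    (K : Type u) [Field K] [CharZero K] [Algebra ℚ_[ℓ] K] : monodromy ρ K = GenR U ι ρ0 K := by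
  obtain ⟨hc1, Γg, hΓg, hΓg', hc2⟩ := hgeo
  refine Set.Subset.antisymm ?_ ?_
  · intro x hx J hJ hmon hU
    obtain ⟨I, hI, hUI, hIJ⟩ := u_group hr hdet
    obtain ⟨H1, hH1, hn⟩ := noe d ℓ (StabH H π) ρ0
    have hX1 : ((Xl ι ρ hJ).subgroupOf (Ggeo.subgroupOf H)).FiniteIndex := by
      have := hΓg
      refine Subgroup.finiteIndex_of_le (H := Γg.subgroupOf (Ggeo.subgroupOf H)) ?_
      intro γ hγ
      rw [Subgroup.mem_subgroupOf] at hγ
      rw [Subgroup.mem_subgroupOf, mem_Xl]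
      exact hIJ ℚ_[ℓ] ι J hJ hU _ (hc2 _ hγ I hI hUI)
    have hX2 : (Xl ι ρ hJ ⊔ Ggeo.subgroupOf H).FiniteIndex := by
      refine geoH hD hH π H1 hH1 _ le_sup_right ?_
      intro σ g hg h
      apply Subgroup.mem_sup_left
      rw [mem_Xl, ← hsp σ g h]
      exact hmon (hn g hg)
    have hX := idx H (Ggeo.subgroupOf H) (Xl ι ρ hJ) (geoN H) hX1 hX2
    obtain ⟨h1, h2⟩ := hx _ hX
    refine ⟨h1, fun p hp => h2 p ?_⟩
    rintro _ ⟨γ, hγ, rfl⟩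
    exact ((mem_Xl ι ρ hJ γ).1 hγ).2 p hp
  · intro x hx Γ' hΓ'
    obtain ⟨T, hT⟩ : ∃ T : Set (Matrix d d ℂ),
      T = {X | ∃ γ ∈ Γ', X = (ρ γ : Matrix d d ℚ_[ℓ]).map ι} := ⟨_, rfl⟩
    have hTm : ∀ a ∈ T, ∀ b ∈ T, a * b ∈ T := by
      rw [hT]
      rintro _ ⟨a, ha, rfl⟩ _ ⟨b, hb, rfl⟩
      refine ⟨a * b, Γ'.mul_mem ha hb, ?_⟩
      rw [map_mul, GeneralLinearGroup.coe_mul]
      have := map_mul ι.mapMatrix (ρ a : Matrix d d ℚ_[ℓ]) (ρ b : Matrix d d ℚ_[ℓ])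
      rw [RingHom.mapMatrix_apply, RingHom.mapMatrix_apply, RingHom.mapMatrix_apply] at this
      exact this.symm
    have hT1 : (1 : Matrix d d ℂ) ∈ T := by
      rw [hT]
      refine ⟨1, Γ'.one_mem, ?_⟩
      rw [map_one, GeneralLinearGroup.coe_one]
      exact (Matrix.map_one ι (map_zero ι) (map_one ι)).symm
    obtain ⟨J, hJ⟩ : ∃ J : Set (MvPolynomial (d × d) ℚ_[ℓ]),
      J = {f | ∀ γ ∈ Γ', pev (ρ γ : Matrix d d ℚ_[ℓ]) f = 0} := ⟨_, rfl⟩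
    let _ : Algebra ℚ_[ℓ] ℂ := ι.toAlgebra
    have hJT : zerosC ι J = zcl T := by
      refine Set.Subset.antisymm ?_ ?_
      · intro g hg
        refine ⟨hg.1, fun q hq => ?_⟩
        refine vanish_basechange (F := ℚ_[ℓ]) (K := ℂ)
          (S := {X | ∃ γ ∈ Γ', X = (ρ γ : Matrix d d ℚ_[ℓ])}) ?_ q ?_
        · intro p hp
          have h6 := hg.2 p (by rw [hJ]; exact fun γ hγ => hp _ ⟨γ, hγ, rfl⟩)
          have h7 : pev g (MvPolynomial.map (algebraMap ℚ_[ℓ] ℂ) p) = pev g p := pev_map g p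
          rw [← h7]
          exact h6
        · rintro _ ⟨γ, hγ, rfl⟩
          apply hq
          rw [hT]
          exact ⟨γ, hγ, rfl⟩
      · intro g hg
        refine ⟨hg.1, fun p hp => hg.2 _ ?_⟩
        rw [hT]
        rintro _ ⟨γ, hγ, rfl⟩
        rw [hJ] at hp
        rw [pev_ring, hp γ hγ, map_zero]
    have hJg : IsAlgSubL ι J := by
      unfold IsAlgSubL
      rw [hJT]
      exact ⟨zcl_one hT1, fun a ha b hb => zcl_mul hTm ha hb, fun a ha => zcl_inv hTm hT1 ha⟩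
    have h1 := hx J hJg ?_ ?_
    · refine ⟨h1.1, fun p hp => h1.2 p ?_⟩
      rw [hJ]
      exact fun γ hγ => hp _ ⟨γ, hγ, rfl⟩
    · intro g hg
      obtain ⟨H', hH', hHs⟩ := dfiH H π Γ' hΓ'
      obtain ⟨h1, h2⟩ := hg H' hH'
      refine ⟨h1, fun p hp => h2 p ?_⟩
      rintro _ ⟨γ, hγ, rfl⟩
      obtain ⟨σ, hσ, hσ2⟩ := hHs γ hγ
      rw [hsp σ γ hσ2]
      rw [hJ] at hp
      exact hp σ hσ
    · intro u hu
      refine ⟨hdet u hu, fun p hp => ?_⟩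
      have hfi : ((Γ' ⊓ Ggeo.subgroupOf H).subgroupOf (Ggeo.subgroupOf H)).FiniteIndex := by
        rw [Subgroup.inf_subgroupOf_right]
        have := hΓ'
        infer_instance
      rw [hJ] at hp
      exact hc1 (Γ' ⊓ Ggeo.subgroupOf H) hfi inf_le_right p (fun γ hγ => hp _ hγ.1) u hu

/-- MOE for open subgroups -/
theorem moeH (hD : DekStmt) (hH : H.FiniteIndex) (hr : ∀ τ : ℂ ≃+* ℂ, ∀ u ∈ U, u.map τ ∈ U)
    (hdet : ∀ u ∈ U, IsUnit u.det) (hgeo : GeoU U H ι ρ) (hsp : HIK.SpecH H ρ π ρ0) {w : ℕ}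
    {V : ℕ → Submodule ℂ (d → ℂ)}
    (hmt : ∀ (K : Type) [Field K] [CharZero K] [Algebra ℚ_[ℓ] K], monodromy ρ0 K = mtGroup w V K)
    (K : Type u) [Field K] [CharZero K] [Algebra ℚ_[ℓ] K] : monodromy ρ K = GenU U w V K := by
  refine Set.Subset.antisymm ?_ ?_
  · intro x hx
    exact moeH_le hD hH hgeo hsp (hmt ℚ_[ℓ]).subset hx
  · intro x hx
    exact moeH_ge hr hdet hgeo hsp (fun K _ _ _ => (hmt K).symm.subset) hx

end mono

end Pool.Agent.MTPN.H39
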