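import Pool.Agent.MTPN.FinalC
import Pool.Agent.Helper39_MTP.Hgr

/-! MTPN: assembly for families over curves. -/

set_option autoImplicit false
set_option linter.unusedSectionVars false

namespace Pool.Agent.MTPN.H39

open Matrix Polynomial NumberField Pool.Agent.MT100 Pool.Agent.MT100G Pool.Agent.MT100A
  Pool.Agent.MT100D Pool.Agent.Helper78_MT Pool.Agent.MTL Pool.Agent.MTN Pool.Agent.HIK
open Pool.Agent.MT100A.H97 (det_uni Uni_aut)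

universe u

section fst
variable {d e : Type} [Fintype d] [DecidableEq d] [Fintype e] [DecidableEq e]
  {M : Set (Matrix (d ⊕ e) (d ⊕ e) ℂ)}

theorem fst_det : ∀ u ∈ Fst (Uni M), IsUnit u.det := by
  rintro u ⟨u', hu⟩
  have h1 := det_uni hu
  rw [det_blk] at h1
  exact IsUnit.of_mul_eq_one _ h1

theorem fst_aut (hr : ∀ τ : ℂ ≃+* ℂ, ∀ γ ∈ M, γ.map τ = γ) :
    ∀ τ : ℂ ≃+* ℂ, ∀ u ∈ Fst (Uni M), u.map τ ∈ Fst (Uni M) := by
  rintro τ u ⟨u', hu⟩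
  refine ⟨u'.map τ, ?_⟩
  have h1 := Uni_aut hr τ hu
  rw [fromBlocks_map, Matrix.map_zero _ (map_zero τ), Matrix.map_zero _ (map_zero τ)] at h1
  exact h1

end fst

/-- open subgroups have finite index -/
theorem open_fi {H : Subgroup GT} (hH : IsOpen (H : Set GT)) : H.FiniteIndex := by
  rw [Subgroup.finiteIndex_iff_finite_quotient]
  exact Subgroup.quotient_finite_of_isOpen H hH

/-- the final statement for families over curves -/
theorem propC (hN : N1hStmt.{0}) (hW : WdzStmt) (hP : PidStmt) (hZ : DzcStmt) (hS : SrbStmt)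
    (hM : HIK.MonStmt.{u}) (hD : DekStmt) : PropCStmt.{u} := by
  intro d e _ _ _ _ F w lev hw
  obtain ⟨C, R1, R0, hC⟩ := hN (d ⊕ e) F w lev hw
  obtain ⟨RF, hRF⟩ := bry (d ⊕ e) F
  refine ⟨C, fun m A K => max (R1 m A K) (RF + K + 1), fun P hPu hPi hFP hBl => ?_⟩
  obtain ⟨S, hS1, -, hS3⟩ := hC P hPu hPi
  obtain ⟨S', hS'⟩ : ∃ S' : Set ℂ, S' = S ∪ {x | ‖x‖ ≤ RF} := ⟨_, rfl⟩
  have hwin : ∀ (m A K : ℕ), ∀ x ∈ Pts m A, max (R1 m A K) (RF + K + 1) ≤ ‖x‖ →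
      Nat.card {κ : ℕ // κ < K ∧ x - κ ∈ S'} ≤ C := by
    intro m A K x hx hxR
    have h1 : ∀ κ : ℕ, (κ < K ∧ x - κ ∈ S') ↔ (κ < K ∧ x - κ ∈ S) := by
      intro κ
      rw [hS']
      refine and_congr_right fun hκ => ⟨?_, fun h => Or.inl h⟩
      rintro (h | h)
      · exact h
      · exfalso
        have h2 : ‖x - κ‖ ≤ RF := h
        have h3 : ‖x‖ ≤ ‖x - κ‖ + ‖(κ : ℂ)‖ := by
          have := norm_add_le (x - (κ : ℂ)) (κ : ℂ)
          rwa [sub_add_cancel] at this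
        rw [Complex.norm_natCast] at h3
        have h4 : (κ : ℝ) < K := by exact_mod_cast hκ
        have h5 := (le_max_right _ _).trans hxR
        linarith
    rw [Nat.card_congr (Equiv.subtypeEquivRight h1)]
    exact hS1 m A K x hx ((le_max_left _ _).trans hxR)
  have hHodge : ∀ x : ℂ, x ∉ S' → ∀ W : ℕ → Submodule ℂ (d → ℂ), FibX F lev P w x W →
      ∀ (y : ℂ) (W0 : ℕ → Submodule ℂ (d → ℂ)), FibY F lev P w y W0 →
      ∀ (K : Type u) [Field K] [CharZero K], mtGroup w W K = GenU (Fst (Uni (F.Mo P))) w W0 K := by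
    intro x hx W hWx y W0 hWy K _ _
    obtain ⟨E, V, hV, hVW⟩ := hWx
    obtain ⟨V0, hV0, hVW0⟩ := hWy
    rw [hS'] at hx
    have hx1 : x ∉ S := fun h => hx (Or.inl h)
    have hx2 : RF < ‖x‖ := not_le.1 fun h => hx (Or.inr h)
    have h1 := (hS3 x hx1 E V hV).1 ℂ
    obtain ⟨Z, E0, hb, hp, hi, hf⟩ := hV0
    have h2 := geq (d ⊕ e) F P w lev hPu hw hFP x y (F.Y x) Z (hRF x hx2) hb E E0 V V0 hV.1 hV.2.1
      hV.2.2 hp hi hf ℂ
    exact mt_sum hBl hV.1 hp hVW hVW0 (h1.trans h2) K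
  have hdz : ∀ (k : Type) [Field k] [NumberField k] (σ : k →+* ℂ), DZ k {a : 𝓞 k | σ a ∈ S'} :=
    hW S' C _ hwin
  refine ⟨S', hwin, hdz, hHodge, ?_⟩
  intro H hH ρ hρ k _ _ σ
  have hHf := open_fi hH
  -- the sets for all primes
  have hex : ∀ ℓ : ℕ, ∃ Sl : Set (𝓞 k), DZ k Sl ∧ ∀ [Fact ℓ.Prime], ∀ a ∉ Sl,
      ∀ (ψ : k →+* QB) (π : BB →+* QB), π (algebraMap ℚ[X] BB X) = ψ a →
        ∀ ρa : StabH H π →* GL d ℚ_[ℓ], HIK.SpecH H (ρ ℓ) π ρa →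
        ∀ (K : Type u) [Field K] [Algebra ℚ_[ℓ] K], monodromy ρa K = monodromy (ρ ℓ) K := by
    intro ℓ
    by_cases hl : ℓ.Prime
    · have : Fact ℓ.Prime := ⟨hl⟩
      obtain ⟨Sl, h1, h2⟩ := hS k H hH d ℓ (ρ ℓ) (hρ ℓ)
      refine ⟨Sl, h1, fun a ha ψ π hπ ρa h K _ _ => ?_⟩
      obtain ⟨h3, h4⟩ := h2 a ha ψ π hπ ρa h
      exact hM d ℚ_[ℓ] H (StabH H π) (ρ ℓ) ρa h3 h4 K
    · refine ⟨∅, (hZ k).2.2.1 ∅ Set.finite_empty, ?_⟩
      intro hl'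
      exact absurd hl'.out hl
  choose Sl hSl1 hSl2 using hex
  obtain ⟨T', N, hT'1, hT'2⟩ := hP k Sl hSl1
  refine ⟨T' ∪ {a : 𝓞 k | σ a ∈ S'}, N, ?_, ?_⟩
  · have h1 := (hZ k).2.1 Bool (fun b => if b then T' else {a : 𝓞 k | σ a ∈ S'}) (by
      intro b
      cases b
      · exact hdz k σ
      · exact hT'1)
    refine (hZ k).1 _ _ ?_ h1
    rintro a (ha | ha)
    · exact Set.mem_iUnion.2 ⟨true, ha⟩
    · exact Set.mem_iUnion.2 ⟨false, ha⟩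
  · intro ℓ _ ι hgeo π0 ρ0 hs0 a ha hNa ψ π hπ ρa hsa
    have ha1 : a ∉ Sl ℓ := fun h => ha (Or.inl (hT'2 ℓ a h hNa))
    have ha2 : (σ a : ℂ) ∉ S' := fun h => ha (Or.inr h)
    have hmon := hSl2 ℓ a ha1 ψ π hπ ρa hsa
    refine ⟨fun K _ _ _ => ?_, ?_⟩
    · rw [hmon K]
      exact mobH hD hHf (fst_aut (int_aut hPi)) fst_det hgeo hs0 K
    · intro ε W0 hW0 hmt W hWa K _ _ _
      rw [hmon K, hHodge _ ha2 W hWa (ε (π0 (algebraMap ℚ[X] BB X))) W0 hW0 K]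
      exact moeH hD hHf (fst_aut (int_aut hPi)) fst_det hgeo hs0 hmt K

end Pool.Agent.MTPN.H39
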