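import Pool.Agent.MTPN.FinalD
import Pool.Agent.Helper39_MTP.All

/-! MTPN: the final statement for curves. -/

set_option autoImplicit false
set_option linter.unusedSectionVars false

namespace Pool.Agent.MTPN.H39

open Matrix Polynomial NumberField Pool.Agent.MT100 Pool.Agent.MT100G Pool.Agent.MT100A
  Pool.Agent.MT100D Pool.Agent.Helper78_MT Pool.Agent.MTL Pool.Agent.MTN Pool.Agent.HIK

universe u

/-- the group of the residue field -/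
theorem res_eq (S : Curve) (π : Place) : HIK.StabH S.H π = S.res π := by
  have h1 : {τ | ∃ σ : S.G, π.Ind (S.el σ) τ} = (HIK.StabH S.H π : Set GQ) := by
    ext τ
    constructor
    · rintro ⟨σ, h⟩
      exact ⟨S.el σ, Subtype.prop (p := fun σ => σ ∈ S.H) σ, h⟩
    · rintro ⟨σ, hσ, h⟩
      exact ⟨(⟨σ, hσ⟩ : S.H), h⟩
  unfold Curve.res
  rw [h1, Subgroup.closure_eq]

/-- the compatibility -/
theorem geo_iff {d : Type} [Fintype d] [DecidableEq d] (S : Curve) {U : Set (Matrix d d ℂ)} {ℓ : ℕ}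
    [Fact ℓ.Prime] {ι : ℚ_[ℓ] →+* ℂ} {ρ : S.G →* GL d ℚ_[ℓ]} (h : S.Geo U ι ρ) :
    GeoU U S.H ι ρ := by
  obtain ⟨h1, Γ, h2, h3, h4⟩ := h
  refine ⟨fun Γ' hf hle f hp u hu => ?_, Γ, ?_, h2, fun γ hγ I hI hU => h4 γ hγ I hI hU⟩
  · exact h1 Γ' hle hf.index_ne_zero f hp u hu
  · exact ⟨h3⟩

/-- the final statement -/
theorem propD : PropDStmt.{u} := by
  intro d e _ _ _ _ F w lev hw
  obtain ⟨C, R1, h⟩ := propCA.{u} d e F w lev hw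
  refine ⟨C, R1, fun P hP hInt hF hB => ?_⟩
  obtain ⟨Ex, h1, h2, h3, h4⟩ := h P hP hInt hF hB
  refine ⟨Ex, h1, h2, h3, fun S ρ hρ k _ _ σ => ?_⟩
  obtain ⟨T, N, hT, h5⟩ := h4 S.H S.isOpen ρ hρ k σ
  refine ⟨T, N, hT, ?_⟩
  intro ℓ _ ι hgeo π₀ ρ₀ hs₀ a ha hN ψ π hπ ρa hsa
  have h6 := h5 ℓ ι (geo_iff S hgeo)
  have key : ∀ (R₀ R : Subgroup GQ), HIK.StabH S.H π₀ = R₀ → HIK.StabH S.H π = R →
      ∀ (ρ₀ : R₀ →* GL d ℚ_[ℓ]) (ρa : R →* GL d ℚ_[ℓ]),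
      (∀ (σ : S.G) (τ : R₀), π₀.Ind (S.el σ) τ → ρ₀ τ = ρ ℓ σ) →
      (∀ (σ : S.G) (τ : R), π.Ind (S.el σ) τ → ρa τ = ρ ℓ σ) →
      (∀ (K : Type u) [Field K] [CharZero K] [Algebra ℚ_[ℓ] K],
        monodromy ρa K = GenR (Fst (Uni (F.Mo P))) ι ρ₀ K) ∧
      ∀ (ε : AlgebraicClosure ℚ →+* ℂ) (W₀ : ℕ → Submodule ℂ (d → ℂ)),
        FibY F lev P w (ε π₀.t) W₀ →
        (∀ (K : Type) [Field K] [CharZero K] [Algebra ℚ_[ℓ] K],
          monodromy ρ₀ K = mtGroup w W₀ K) →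
        ∀ W : ℕ → Submodule ℂ (d → ℂ), FibX F lev P w (σ a) W →
          ∀ (K : Type u) [Field K] [CharZero K] [Algebra ℚ_[ℓ] K],
            monodromy ρa K = mtGroup w W K := by
    intro R₀ R e₀ e₁ ρ₀ ρa hs₀ hsa
    subst e₀
    subst e₁
    exact h6 π₀ ρ₀ hs₀ a ha hN ψ π hπ ρa hsa
  exact key (S.res π₀) (S.res π) (res_eq S π₀) (res_eq S π) ρ₀ ρa hs₀ hsa

end Pool.Agent.MTPN.H39
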