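import Pool.Agent.MTPN.FinalU
import Pool.Agent.Helper39_MTP.AssD

/-! MTPN: assembly for families over curves, uniform over all number fields. -/

set_option autoImplicit false
set_option linter.unusedSectionVars false

namespace Pool.Agent.MTPN.H39

open Matrix Polynomial NumberField Pool.Agent.MT100 Pool.Agent.MT100G Pool.Agent.MT100A
  Pool.Agent.MT100D Pool.Agent.Helper78_MT Pool.Agent.MTL Pool.Agent.MTN Pool.Agent.HIK
  Pool.Agent.PSV Pool.Agent.HIP Pool.Agent.HUK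
open Pool.Agent.MT100A.H97 (det_uni Uni_aut)

universe u

/-- the final statement for families over curves, uniform over all number fields -/
theorem propU (hSz : SzmStmt) (hMa : MaqStmt.{0}) (hS : SuaStmt) (hSca : ScaStmt) (hSda : SdaStmt)
    (hExa : HUK.ExaStmt) (hFrc : FrcStmt) (hSpm : SpmStmt)
    (hM : HIK.MonStmt.{u}) (hD : DekStmt) : PropUStmt.{u} := by
  intro d e _ _ _ _ F w lev hw
  obtain ⟨n, B, hFB⟩ := hSz.2 (d ⊕ e) F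
  obtain ⟨c, α0, hC⟩ := hMa n
  obtain ⟨RF, hRF⟩ := bry (d ⊕ e) F
  -- the constant
  obtain ⟨C, hC1, hC2, hC3⟩ : ∃ C : ℕ, B ≤ C ∧ B ^ c ≤ C ∧ RF + 1 ≤ (C : ℝ) := by
    refine ⟨B + B ^ c + ⌈RF + 1⌉₊, by omega, by omega, ?_⟩
    have h1 := Nat.le_ceil (RF + 1)
    push_cast
    have h2 : (0 : ℝ) ≤ B := Nat.cast_nonneg _
    have h3 : (0 : ℝ) ≤ (B : ℝ) ^ c := by positivity
    linarith
  have hB2 : 2 ≤ B := hFB.two
  have hCp : 1 ≤ C := by omega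
  refine ⟨C, fun m A => α0 m A + 1, fun P hPu hPi hFP hBl => ?_⟩
  obtain ⟨S, hS1, hS3⟩ := hC (d ⊕ e) F B hFB w lev hw P hPu hPi
  obtain ⟨S', hS'⟩ : ∃ S' : Set ℂ, S' = S ∪ {x | ‖x‖ ≤ RF} := ⟨_, rfl⟩
  have hwin : ∀ (m A K : ℕ), ∀ x ∈ Pts m A, ((C : ℝ) * (K + 1)) ^ (α0 m A + 1) ≤ ‖x‖ →
      Nat.card {κ : ℕ // κ < K ∧ x - κ ∈ S'} ≤ C := by
    intro m A K x hx hxR
    have hK : (0 : ℝ) ≤ (K : ℝ) := Nat.cast_nonneg K
    have hC1' : (1 : ℝ) ≤ C := by exact_mod_cast hCp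
    have hge1 : (1 : ℝ) ≤ (C : ℝ) * (K + 1) := by nlinarith
    have hb1 : (C : ℝ) * (K + 1) ≤ ‖x‖ := by
      refine le_trans ?_ hxR
      calc (C : ℝ) * (K + 1) = ((C : ℝ) * (K + 1)) ^ 1 := (pow_one _).symm
        _ ≤ _ := pow_le_pow_right₀ hge1 (by omega)
    have hb2 : ((B * (K + 1) : ℕ) : ℝ) ^ α0 m A ≤ ‖x‖ := by
      refine le_trans ?_ hxR
      calc ((B * (K + 1) : ℕ) : ℝ) ^ α0 m A ≤ ((C : ℝ) * (K + 1)) ^ α0 m A := by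
            apply pow_le_pow_left₀ (Nat.cast_nonneg _)
            push_cast
            have : (B : ℝ) ≤ C := by exact_mod_cast hC1
            nlinarith
        _ ≤ _ := pow_le_pow_right₀ hge1 (by omega)
    have h1 : ∀ κ : ℕ, (κ < K ∧ x - κ ∈ S') ↔ (κ < K ∧ x - κ ∈ S) := by
      intro κ
      rw [hS']
      refine and_congr_right fun hκ => ⟨?_, fun h => Or.inl h⟩
      rintro (h | h)
      · exact h
      · exfalso
        have h2 : ‖x - κ‖ ≤ RF := h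
        have h3 : ‖x‖ ≤ ‖x - κ‖ + ‖(κ : ℂ)‖ := by
          have := norm_add_le (x - (κ : ℂ)) (κ : ℂ)
          rwa [sub_add_cancel] at this
        rw [Complex.norm_natCast] at h3
        have h4 : (κ : ℝ) < K := by exact_mod_cast hκ
        nlinarith
    rw [Nat.card_congr (Equiv.subtypeEquivRight h1)]
    exact (hS1 m A K x hx hb2).trans hC2
  have hHodge : ∀ x : ℂ, x ∉ S' → ∀ W : ℕ → Submodule ℂ (d → ℂ), FibX F lev P w x W →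
      ∀ (y : ℂ) (W0 : ℕ → Submodule ℂ (d → ℂ)), FibY F lev P w y W0 →
      ∀ (K : Type u) [Field K] [CharZero K], mtGroup w W K = GenU (Fst (Uni (F.Mo P))) w W0 K := by
    intro x hx W hWx y W0 hWy K _ _
    obtain ⟨E, V, hV, hVW⟩ := hWx
    obtain ⟨V0, hV0, hVW0⟩ := hWy
    rw [hS'] at hx
    have hx1 : x ∉ S := fun h => hx (Or.inl h)
    have hx2 : RF < ‖x‖ := not_le.1 fun h => hx (Or.inr h)
    have h1 := hS3 x hx1 E V hV ℂ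
    obtain ⟨Z, E0, hb, hp, hi, hf⟩ := hV0
    have h2 := geq (d ⊕ e) F P w lev hPu hw hFP x y (F.Y x) Z (hRF x hx2) hb E E0 V V0 hV.1 hV.2.1
      hV.2.2 hp hi hf ℂ
    exact mt_sum hBl hV.1 hp hVW hVW0 (h1.trans h2) K
  refine ⟨S', hwin, few_of_sra hSca hFrc hSpm (hExa C (fun m A => α0 m A + 1) S' hCp hwin), hHodge, ?_⟩
  intro Sc ρ hρ
  have hHf := open_fi Sc.isOpen
  -- the sets for all primes
  have hex : ∀ ℓ : ℕ, ∃ Sl : Set QB, Spa QB (1 / 4) Sl ∧ ∀ [Fact ℓ.Prime],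
      ∀ π : BB →+* QB, π (algebraMap ℚ[X] BB X) ∉ Sl →
        ∀ ρa : StabH Sc.H π →* GL d ℚ_[ℓ], HIK.SpecH Sc.H (ρ ℓ) π ρa →
        ∀ (K : Type u) [Field K] [Algebra ℚ_[ℓ] K], monodromy ρa K = monodromy (ρ ℓ) K := by
    intro ℓ
    by_cases hl : ℓ.Prime
    · have : Fact ℓ.Prime := ⟨hl⟩
      obtain ⟨Sl, h1, h2⟩ := hS Sc.H Sc.isOpen d ℓ (ρ ℓ) (hρ ℓ)
      refine ⟨Sl, h1, fun π hπ ρa h K _ _ => ?_⟩
      obtain ⟨h3, h4⟩ := h2 π hπ ρa h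
      exact hM d ℚ_[ℓ] Sc.H (StabH Sc.H π) (ρ ℓ) ρa h3 h4 K
    · refine ⟨∅, (hSca QB (1 / 4)).2.2.2.2.1, ?_⟩
      intro hl'
      exact absurd hl'.out hl
  choose Sl hSl1 hSl2 using hex
  obtain ⟨T, N, hT1, hT2⟩ := hSda QB (1 / 4) (1 / 5) (by norm_num) Sl hSl1
  refine ⟨T, N, few_of_spa hSca hFrc hSpm (by norm_num) hT1, ?_⟩
  intro ℓ _ ι hgeo π₀ ρ₀ hs₀ π hπT hN ρa hsa
  have ha1 : π.t ∉ Sl ℓ := fun h => hπT (hT2 ℓ π.t h hN)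
  have key : ∀ (R₀ R : Subgroup GQ), HIK.StabH Sc.H π₀ = R₀ → HIK.StabH Sc.H π = R →
      ∀ (ρ₀ : R₀ →* GL d ℚ_[ℓ]) (ρa : R →* GL d ℚ_[ℓ]),
      (∀ (σ : Sc.G) (τ : R₀), π₀.Ind (Sc.el σ) τ → ρ₀ τ = ρ ℓ σ) →
      (∀ (σ : Sc.G) (τ : R), π.Ind (Sc.el σ) τ → ρa τ = ρ ℓ σ) →
      (∀ (K : Type u) [Field K] [CharZero K] [Algebra ℚ_[ℓ] K],
        monodromy ρa K = GenR (Fst (Uni (F.Mo P))) ι ρ₀ K) ∧
      ∀ (ε₀ : AlgebraicClosure ℚ →+* ℂ) (W₀ : ℕ → Submodule ℂ (d → ℂ)),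
        FibY F lev P w (ε₀ π₀.t) W₀ →
        (∀ (K : Type) [Field K] [CharZero K] [Algebra ℚ_[ℓ] K],
          monodromy ρ₀ K = mtGroup w W₀ K) →
        ∀ ε : AlgebraicClosure ℚ →+* ℂ, ε π.t ∉ S' →
        ∀ W : ℕ → Submodule ℂ (d → ℂ), FibX F lev P w (ε π.t) W →
          ∀ (K : Type u) [Field K] [CharZero K] [Algebra ℚ_[ℓ] K],
            monodromy ρa K = mtGroup w W K := by
    intro R₀ R e₀ e₁ ρ₀ ρa hs₀ hsa
    subst e₀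
    subst e₁
    have hmon := hSl2 ℓ π ha1 ρa hsa
    refine ⟨fun K _ _ _ => ?_, ?_⟩
    · rw [hmon K]
      exact mobH hD hHf (fst_aut (int_aut hPi)) fst_det (geo_iff Sc hgeo) hs₀ K
    · intro ε₀ W0 hW0 hmt ε hε W hWa K _ _ _
      rw [hmon K, hHodge _ hε W hWa (ε₀ (π₀.t)) W0 hW0 K]
      exact moeH hD hHf (fst_aut (int_aut hPi)) fst_det (geo_iff Sc hgeo) hs₀ hmt K
  exact key (Sc.res π₀) (Sc.res π) (res_eq Sc π₀) (res_eq Sc π) ρ₀ ρa hs₀ hsa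

end Pool.Agent.MTPN.H39
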