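import Pool.Agent.Helper39_MTP.Gal

/-! MTPN, module MOE: the connected monodromy group of the representation of the Galois group of `ℚ(t)`
from one fibre. -/

set_option autoImplicit false
set_option linter.unusedSectionVars false

namespace Pool.Agent.MTPN.H39

open Matrix Polynomial Pool.Agent.MT100 Pool.Agent.MT100G Pool.Agent.MT100A Pool.Agent.MT100D
  Pool.Agent.Helper78_MT Pool.Agent.MTL Pool.Agent.Helper3_MT
open Pool.Agent.MT100A.H97 (det_uni zcl_one clo_sub des_group pev_ring span_pev Uni_aut)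

universe u

variable {d : Type} [Fintype d] [DecidableEq d]

theorem gl_unit {L : Type*} [Field L] (g : GL d L) : IsUnit (g : Matrix d d L).det :=
  (isUnit_iff_isUnit_det _).1 g.isUnit

/-- points over `L` and over a larger field -/
theorem zeros_hom {L L' : Type*} [Field L] [CharZero L] [Field L'] [CharZero L'] (ι : L →+* L')
    (I : Set (MvPolynomial (d × d) ℚ)) (g : GL d L) :
    (g : Matrix d d L) ∈ zeros I L ↔ (g : Matrix d d L).map ι ∈ zeros I L' := by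
  constructor
  · rintro ⟨h1, h2⟩
    refine ⟨?_, fun p hp => ?_⟩
    · have h3 := h1.map ι
      rwa [RingHom.map_det, RingHom.mapMatrix_apply] at h3
    · rw [pev_hom ι, h2 p hp, map_zero]
  · rintro ⟨h1, h2⟩
    refine ⟨gl_unit g, fun p hp => ?_⟩
    have h3 := h2 p hp
    rw [pev_hom ι] at h3
    exact (map_eq_zero_iff ι ι.injective).1 h3

/-- the elements with image in an algebraic group over `ℚ` -/
def Xi {L : Type*} [Field L] [CharZero L] (ι : L →+* ℂ) {Γ : Type*} [Group Γ] (ρ : Γ →* GL d L)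
    {I : Set (MvPolynomial (d × d) ℚ)} (hI : IsAlgSubgroup I) : Subgroup Γ where
  carrier := {σ | (ρ σ : Matrix d d L) ∈ zeros I L}
  mul_mem' := by
    intro a b ha hb
    show (ρ (a * b) : Matrix d d L) ∈ zeros I L
    rw [zeros_hom ι, map_mul, GeneralLinearGroup.coe_mul]
    have h1 := map_mul ι.mapMatrix (ρ a : Matrix d d L) (ρ b : Matrix d d L)
    rw [RingHom.mapMatrix_apply, RingHom.mapMatrix_apply, RingHom.mapMatrix_apply] at h1
    rw [h1]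
    exact hI.2.1 _ ((zeros_hom ι I _).1 ha) _ ((zeros_hom ι I _).1 hb)
  one_mem' := by
    show (ρ 1 : Matrix d d L) ∈ zeros I L
    rw [zeros_hom ι, map_one, GeneralLinearGroup.coe_one,
      Matrix.map_one ι (map_zero ι) (map_one ι)]
    exact hI.1
  inv_mem' := by
    intro a ha
    show (ρ a⁻¹ : Matrix d d L) ∈ zeros I L
    rw [zeros_hom ι]
    have h1 : (ρ a : Matrix d d L).map ι * (ρ a⁻¹ : Matrix d d L).map ι = 1 := by
      have h2 := map_mul ι.mapMatrix (ρ a : Matrix d d L) (ρ a⁻¹ : Matrix d d L)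
      rw [RingHom.mapMatrix_apply, RingHom.mapMatrix_apply, RingHom.mapMatrix_apply] at h2
      rw [← h2, ← GeneralLinearGroup.coe_mul, ← map_mul, mul_inv_cancel, map_one,
        GeneralLinearGroup.coe_one, Matrix.map_one ι (map_zero ι) (map_one ι)]
    rw [(Matrix.inv_eq_right_inv h1).symm]
    exact hI.2.2 _ ((zeros_hom ι I _).1 ha)

theorem mem_Xi {L : Type*} [Field L] [CharZero L] (ι : L →+* ℂ) {Γ : Type*} [Group Γ]
    (ρ : Γ →* GL d L) {I : Set (MvPolynomial (d × d) ℚ)} (hI : IsAlgSubgroup I) (σ : Γ) :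
    σ ∈ Xi ι ρ hI ↔ (ρ σ : Matrix d d L) ∈ zeros I L := Iff.rfl

/-- the torus is in the Mumford-Tate group -/
theorem tor_mt {w : ℕ} {V : ℕ → Submodule ℂ (d → ℂ)} {T : Matrix d d ℂ} (hT : T ∈ hodgeTorus w V) :
    T ∈ mtGroup w V ℂ := fun _ _ h => h T hT

/-- the first inclusion -/
theorem moe_le (hD : DeaStmt) {M : Set (Matrix d d ℂ)} {ℓ : ℕ} [Fact ℓ.Prime]
    {ι : ℚ_[ℓ] →+* ℂ} {ρ : GT →* GL d ℚ_[ℓ]} (hgeo : GeoC M ι ρ) {w : ℕ} {V : ℕ → Submodule ℂ (d → ℂ)}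
    {a : AlgebraicClosure ℚ} {H0 : Subgroup GQ} {ρ0 : H0 →* GL d ℚ_[ℓ]} (hH0 : H0.FiniteIndex)
    (hsp : SpecH ρ a H0 ρ0)
    (hmt : monodromy ρ0 ℚ_[ℓ] ⊆ mtGroup w V ℚ_[ℓ])
    {K : Type u} [Field K] [CharZero K] [Algebra ℚ_[ℓ] K] {x : Matrix d d K}
    (hx : x ∈ monodromy ρ K) : x ∈ GenM M w V K := by
  intro I hI hT hU
  obtain ⟨-, Γg, hΓg, hc2⟩ := hgeo
  obtain ⟨hH0a, π, hπ, hs⟩ := hsp
  obtain ⟨H1, hH1, hn⟩ := noe d ℓ H0 ρ0
  have hX1 : ((Xi ι ρ hI).subgroupOf Ggeo).FiniteIndex := by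
    have := hΓg
    refine Subgroup.finiteIndex_of_le (H := Γg) ?_
    intro γ hγ
    rw [Subgroup.mem_subgroupOf, mem_Xi]
    exact hc2 γ hγ I hI hU
  have hX2 : (Xi ι ρ hI ⊔ Ggeo).FiniteIndex := by
    have hfi : (H1.map H0.subtype).FiniteIndex := by
      refine ⟨?_⟩
      rw [Subgroup.index_map_subtype]
      exact mul_ne_zero hH1.index_ne_zero hH0.index_ne_zero
    refine geo hD a π hπ (H1.map H0.subtype) hfi ?_ _ le_sup_right ?_
    · rintro _ ⟨g, -, rfl⟩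
      exact hH0a _ g.2
    · rintro σ _ ⟨g, hg, rfl⟩ h
      apply Subgroup.mem_sup_left
      rw [mem_Xi, ← hs σ g h]
      exact hmt (hn g hg) I hI hT
  have hX := idx GT Ggeo (Xi ι ρ hI) gno hX1 hX2
  obtain ⟨h1, h2⟩ := hx _ hX
  refine ⟨h1, fun p hp => ?_⟩
  have h3 := h2 (MvPolynomial.map (algebraMap ℚ ℚ_[ℓ]) p) (by
    rintro _ ⟨γ, hγ, rfl⟩
    rw [pev_map]
    exact ((mem_Xi ι ρ hI γ).1 hγ).2 p hp)
  rwa [pev_map] at h3

/-- the second inclusion -/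
theorem moe_ge (hD : DeaStmt) {M : Set (Matrix d d ℂ)}
    (hr : ∀ τ : ℂ ≃+* ℂ, ∀ γ ∈ M, γ.map τ = γ) {ℓ : ℕ} [Fact ℓ.Prime]
    {ι : ℚ_[ℓ] →+* ℂ} {ρ : GT →* GL d ℚ_[ℓ]} (hgeo : GeoC M ι ρ) {w : ℕ} {V : ℕ → Submodule ℂ (d → ℂ)}
    {a : AlgebraicClosure ℚ} {H0 : Subgroup GQ} {ρ0 : H0 →* GL d ℚ_[ℓ]}
    (hsp : SpecH ρ a H0 ρ0)
    (hmt : ∀ (K : Type) [Field K] [CharZero K] [Algebra ℚ_[ℓ] K], mtGroup w V K ⊆ monodromy ρ0 K)
    {K : Type u} [Field K] [CharZero K] [Algebra ℚ_[ℓ] K] {x : Matrix d d K}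
    (hx : x ∈ GenM M w V K) : x ∈ monodromy ρ K := by
  intro Γ' hΓ'
  obtain ⟨hc1, -⟩ := hgeo
  obtain ⟨hH0a, π, hπ, hs⟩ := hsp
  obtain ⟨T, hT⟩ : ∃ T : Set (Matrix d d ℂ), T = {X | ∃ γ ∈ Γ', X = (ρ γ : Matrix d d ℚ_[ℓ]).map ι} :=
    ⟨_, rfl⟩
  have hmap : ∀ a b : GT, (ρ (a * b) : Matrix d d ℚ_[ℓ]).map ι =
      (ρ a : Matrix d d ℚ_[ℓ]).map ι * (ρ b : Matrix d d ℚ_[ℓ]).map ι := by
    intro a b
    rw [map_mul, GeneralLinearGroup.coe_mul]
    have := map_mul ι.mapMatrix (ρ a : Matrix d d ℚ_[ℓ]) (ρ b : Matrix d d ℚ_[ℓ])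
    rwa [RingHom.mapMatrix_apply, RingHom.mapMatrix_apply, RingHom.mapMatrix_apply] at this
  have hmap1 : (ρ 1 : Matrix d d ℚ_[ℓ]).map ι = 1 := by
    rw [map_one, GeneralLinearGroup.coe_one]
    exact Matrix.map_one ι (map_zero ι) (map_one ι)
  have hTm : ∀ a ∈ T, ∀ b ∈ T, a * b ∈ T := by
    rw [hT]
    rintro _ ⟨a, ha, rfl⟩ _ ⟨b, hb, rfl⟩
    exact ⟨a * b, Γ'.mul_mem ha hb, (hmap a b).symm⟩
  have hT1 : (1 : Matrix d d ℂ) ∈ T := by
    rw [hT]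
    exact ⟨1, Γ'.one_mem, hmap1.symm⟩
  let _ : Algebra ℚ_[ℓ] ℂ := ι.toAlgebra
  -- the unipotents
  have hUT : ∀ u ∈ Uni M, u ∈ zcl T := by
    intro u hu
    refine ⟨by rw [det_uni hu]; exact isUnit_one, fun q hq => ?_⟩
    refine vanish_basechange (F := ℚ_[ℓ]) (K := ℂ)
      (S := {X | ∃ γ ∈ Γ', X = (ρ γ : Matrix d d ℚ_[ℓ])}) ?_ q ?_
    · intro p hp
      have hfi : (Γ'.subgroupOf Ggeo).FiniteIndex := by
        have := hΓ'
        infer_instance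
      have h6 := hc1 (Γ'.subgroupOf Ggeo) hfi p
        (fun γ hγ => hp _ ⟨(γ : GT), Subgroup.mem_subgroupOf.1 hγ, rfl⟩) u hu
      have h7 : pev u (MvPolynomial.map (algebraMap ℚ_[ℓ] ℂ) p) = pev u p := pev_map u p
      rw [← h7]
      exact h6
    · rintro _ ⟨γ, hγ, rfl⟩
      apply hq
      rw [hT]
      exact ⟨γ, hγ, rfl⟩
  -- the Mumford-Tate group of the fibre
  obtain ⟨H, hH, hHs⟩ := dfi hD a π hπ H0 hH0a Γ' hΓ'
  have hMT : ∀ g ∈ mtGroup w V ℂ, g ∈ zcl T := by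
    intro g hg
    obtain ⟨h1, h2⟩ := hmt ℂ hg H hH
    refine ⟨h1, fun q hq => ?_⟩
    refine vanish_basechange (F := ℚ_[ℓ]) (K := ℂ)
      (S := {X | ∃ γ ∈ Γ', X = (ρ γ : Matrix d d ℚ_[ℓ])}) ?_ q ?_
    · intro p hp
      apply h2
      rintro _ ⟨γ, hγ, rfl⟩
      obtain ⟨σ, hσ, hσ2⟩ := hHs γ hγ
      rw [hs σ γ hσ2]
      exact hp _ ⟨σ, hσ, rfl⟩
    · rintro _ ⟨γ, hγ, rfl⟩
      apply hq
      rw [hT]
      exact ⟨γ, hγ, rfl⟩
  -- descent
  obtain ⟨Z, hZ⟩ : ∃ Z : Submonoid (Matrix d d ℂ), Z = Submonoid.closure (Uni M ∪ mtGroup w V ℂ) :=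
    ⟨_, rfl⟩
  have hZT : (Z : Set (Matrix d d ℂ)) ⊆ zcl T := by
    rw [hZ]
    apply clo_sub hTm hT1
    rintro z (hz | hz)
    · exact hUT z hz
    · exact hMT z hz
  have haut : ∀ (τ : ℂ ≃+* ℂ), ∀ z ∈ (Z : Set (Matrix d d ℂ)), z.map τ ∈ (Z : Set (Matrix d d ℂ)) := by
    intro τ z hz
    rw [hZ] at hz ⊢
    have hz' : z ∈ Submonoid.closure (Uni M ∪ mtGroup w V ℂ) := hz
    show z.map τ ∈ Submonoid.closure (Uni M ∪ mtGroup w V ℂ)
    clear hz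
    induction hz' using Submonoid.closure_induction with
    | mem x hx =>
      apply Submonoid.subset_closure
      rcases hx with hx | hx
      · exact Or.inl (Uni_aut hr τ hx)
      · exact Or.inr fun I hI hT => zeros_aut τ (hx I hI hT)
    | one =>
      rw [Matrix.map_one τ (map_zero τ) (map_one τ)]
      exact Submonoid.one_mem _
    | mul x y _ _ hx hy =>
      have h1 : (x * y).map τ = x.map τ * y.map τ := by
        have := map_mul (τ : ℂ →+* ℂ).mapMatrix x y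
        rwa [RingHom.mapMatrix_apply, RingHom.mapMatrix_apply, RingHom.mapMatrix_apply] at this
      rw [h1]
      exact Submonoid.mul_mem _ hx hy
  obtain ⟨hze, hzg⟩ := des_group H64.des (Z := (Z : Set (Matrix d d ℂ)))
    (fun a ha b hb => Submonoid.mul_mem _ ha hb) (Submonoid.one_mem _) haut
  have hxz := hx _ hzg (by
    intro t ht
    rw [hze]
    refine ⟨(hMT t (tor_mt ht)).1, fun p hp => hp _ ?_⟩
    rw [hZ]
    exact Submonoid.subset_closure (Or.inr (tor_mt ht))) (by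
    intro u hu
    rw [hze]
    refine ⟨by rw [det_uni hu]; exact isUnit_one, fun p hp => hp _ ?_⟩
    rw [hZ]
    exact Submonoid.subset_closure (Or.inl hu))
  refine ⟨hxz.1, fun f hf => ?_⟩
  have h6 := H64.des d (Z : Set (Matrix d d ℂ)) haut ℚ_[ℓ] ι f (by
    intro z hz
    apply (hZT hz).2
    rw [hT]
    rintro _ ⟨γ, hγ, rfl⟩
    rw [pev_ring, hf _ ⟨γ, hγ, rfl⟩, map_zero])
  exact span_pev hxz.2 h6

/-- MOE -/
theorem moe (hD : DeaStmt) : MoeStmt.{u} := by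
  intro d _ _ M hr ℓ _ ι ρ hgeo w V a H0 ρ0 hH0 hsp hmt K _ _ _
  refine Set.Subset.antisymm ?_ ?_
  · intro x hx
    exact moe_le hD hgeo hH0 hsp (hmt ℚ_[ℓ]).subset hx
  · intro x hx
    exact moe_ge hD hr hgeo hsp (fun K _ _ _ => (hmt K).symm.subset) hx

end Pool.Agent.MTPN.H39
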