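import Pool.Agent.MTPN.FinalC
import Pool.Agent.Helper39_MTP.Moe

/-! MTPN: direct summands of Hodge structures and their Mumford-Tate groups. -/

set_option autoImplicit false
set_option linter.unusedSectionVars false

namespace Pool.Agent.MTPN.H39

open Matrix Polynomial Pool.Agent.MT100 Pool.Agent.MT100G Pool.Agent.MT100A Pool.Agent.MT100D
  Pool.Agent.Helper78_MT Pool.Agent.MTL Pool.Agent.Helper3_MT
open Pool.Agent.Helper46_MT (Proj proj_of hz hz_torus)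

universe u

variable {d e : Type} [Fintype d] [DecidableEq d] [Fintype e] [DecidableEq e]

/-! ### Pull back of algebraic groups -/

/-- the pull back of the equations `I` to the block diagonal matrices -/
def Pb (e : Type) (I : Set (MvPolynomial (d × d) ℚ)) :
    Set (MvPolynomial ((d ⊕ e) × (d ⊕ e)) ℚ) :=
  (MvPolynomial.rename (Prod.map Sum.inl Sum.inl) '' I) ∪
    ({p | ∃ (i : d) (j : e), p = MvPolynomial.X (Sum.inl i, Sum.inr j)} ∪
      {p | ∃ (i : d) (j : e), p = MvPolynomial.X (Sum.inr j, Sum.inl i)})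

theorem pev_ren {L : Type*} [Field L] [CharZero L] (X : Matrix (d ⊕ e) (d ⊕ e) L)
    (p : MvPolynomial (d × d) ℚ) :
    pev X (MvPolynomial.rename (Prod.map Sum.inl Sum.inl) p) = pev X.toBlocks₁₁ p := by
  unfold pev
  rw [MvPolynomial.aeval_rename]
  rfl

theorem det_blk {L : Type*} [Field L] (A : Matrix d d L) (B : Matrix e e L) :
    (fromBlocks A 0 0 B).det = A.det * B.det := det_fromBlocks_zero₂₁ A 0 B

theorem mem_pb {L : Type*} [Field L] [CharZero L] {I : Set (MvPolynomial (d × d) ℚ)}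
    {X : Matrix (d ⊕ e) (d ⊕ e) L} :
    X ∈ zeros (Pb e I) L ↔ ∃ A B, X = fromBlocks A 0 0 B ∧ A ∈ zeros I L ∧ IsUnit B.det := by
  constructor
  · rintro ⟨h1, h2⟩
    have h12 : X.toBlocks₁₂ = 0 := by
      ext i j
      have := h2 _ (Or.inr (Or.inl ⟨i, j, rfl⟩))
      rw [pev_X] at this
      exact this
    have h21 : X.toBlocks₂₁ = 0 := by
      ext j i
      have := h2 _ (Or.inr (Or.inr ⟨i, j, rfl⟩))
      rw [pev_X] at this
      exact this
    have hX : X = fromBlocks X.toBlocks₁₁ 0 0 X.toBlocks₂₂ := by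
      conv_lhs => rw [← fromBlocks_toBlocks X, h12, h21]
    have hu : IsUnit (X.toBlocks₁₁.det * X.toBlocks₂₂.det) := by
      rw [← det_blk, ← hX]
      exact h1
    refine ⟨X.toBlocks₁₁, X.toBlocks₂₂, hX, ⟨isUnit_of_mul_isUnit_left hu, fun p hp => ?_⟩,
      isUnit_of_mul_isUnit_right hu⟩
    have := h2 _ (Or.inl ⟨p, hp, rfl⟩)
    rwa [pev_ren] at this
  · rintro ⟨A, B, rfl, ⟨h1, h2⟩, h3⟩
    refine ⟨by rw [det_blk]; exact h1.mul h3, ?_⟩
    rintro _ (⟨p, hp, rfl⟩ | ⟨i, j, rfl⟩ | ⟨i, j, rfl⟩)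
    · rw [pev_ren, toBlocks_fromBlocks₁₁]
      exact h2 p hp
    · rw [pev_X]
      rfl
    · rw [pev_X]
      rfl

theorem pb_group {I : Set (MvPolynomial (d × d) ℚ)} (hI : IsAlgSubgroup I) :
    IsAlgSubgroup (Pb e I) := by
  refine ⟨mem_pb.2 ⟨1, 1, fromBlocks_one.symm, hI.1, by rw [det_one]; exact isUnit_one⟩, ?_, ?_⟩
  · intro X hX Y hY
    obtain ⟨A, B, rfl, hA, hB⟩ := mem_pb.1 hX
    obtain ⟨A', B', rfl, hA', hB'⟩ := mem_pb.1 hY
    refine mem_pb.2 ⟨A * A', B * B', ?_, hI.2.1 A hA A' hA', by rw [det_mul]; exact hB.mul hB'⟩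
    rw [fromBlocks_multiply]
    simp
  · intro X hX
    obtain ⟨A, B, rfl, hA, hB⟩ := mem_pb.1 hX
    refine mem_pb.2 ⟨A⁻¹, B⁻¹, ?_, hI.2.2 A hA, ?_⟩
    · apply Matrix.inv_eq_right_inv
      rw [fromBlocks_multiply]
      simp [Matrix.mul_nonsing_inv A hA.1, Matrix.mul_nonsing_inv B hB]
    · rw [det_nonsing_inv]
      exact hB.ringInverse

/-! ### Tori -/

/-- the elements of the torus are invertible -/
theorem tor_unit {w : ℕ} {E : Matrix d d ℚ} {V : ℕ → Submodule ℂ (d → ℂ)} (hV : PolHodge w E V)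
    {T : Matrix d d ℂ} (hT : T ∈ hodgeTorus w V) : IsUnit T.det := by
  obtain ⟨π, hπ, h1, h2, h3⟩ := proj_of hV
  obtain ⟨a, ha, hTa⟩ := hT
  have ha' : a⁻¹ ≠ 0 := inv_ne_zero ha
  obtain ⟨T', hT'⟩ : ∃ T' : Matrix d d ℂ, ∀ p ≤ w, ∀ x ∈ V p,
      T' *ᵥ x = (a⁻¹ ^ p * star a⁻¹ ^ (w - p)) • x := by
    refine ⟨hz w π a⁻¹, fun p hp x hx => ?_⟩
    unfold hz
    conv_lhs => rw [← h2 p x hx]
    rw [mulVec_mulVec, hπ.mul_sum (fun p => a⁻¹ ^ p * (starRingEnd ℂ a⁻¹) ^ (w - p)) hp, smul_mulVec,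
      h2 p x hx]
    rfl
  have h4 : T * T' = 1 := by
    apply Helper46_MT.ind hV.span hV.top
    intro p hp x hx
    rw [← mulVec_mulVec, hT' p hp x hx, mulVec_smul, hTa p hp x hx, smul_smul, one_mulVec]
    have hs : star a ≠ 0 := by
      intro h
      exact ha (star_eq_zero.1 h)
    have h5 : a⁻¹ ^ p * star a⁻¹ ^ (w - p) * (a ^ p * star a ^ (w - p)) = 1 := by
      rw [star_inv₀]
      have e1 : a⁻¹ ^ p * a ^ p = 1 := by rw [← mul_pow, inv_mul_cancel₀ ha, one_pow]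
      have e2 : (star a)⁻¹ ^ (w - p) * star a ^ (w - p) = 1 := by
        rw [← mul_pow, inv_mul_cancel₀ hs, one_pow]
      calc a⁻¹ ^ p * (star a)⁻¹ ^ (w - p) * (a ^ p * star a ^ (w - p)) =
          (a⁻¹ ^ p * a ^ p) * ((star a)⁻¹ ^ (w - p) * star a ^ (w - p)) := by ring
        _ = 1 := by rw [e1, e2, mul_one]
    rw [h5, one_smul]
  have h5 := congrArg Matrix.det h4
  rw [det_mul, det_one] at h5
  exact IsUnit.of_mul_eq_one _ h5

section sum
variable {V : ℕ → Submodule ℂ (d ⊕ e → ℂ)} {W : ℕ → Submodule ℂ (d → ℂ)}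

theorem sum_mem_inl (h : Sum1 V W) {p : ℕ} {x : d → ℂ} (hx : x ∈ W p) :
    (Sum.elim x 0 : d ⊕ e → ℂ) ∈ V p := by
  obtain ⟨W', hW'⟩ := h
  rw [hW']
  exact ⟨hx, (W' p).zero_mem⟩

/-- the first summand spans -/
theorem sum_span (h : Sum1 V W) (hs : ⨆ p, V p = ⊤) : ⨆ p, W p = ⊤ := by
  obtain ⟨W', hW'⟩ := h
  rw [eq_top_iff]
  intro x _
  have key : ∀ v ∈ ⨆ p, V p, (fun i => v (Sum.inl i)) ∈ ⨆ p, W p := by
    intro v hv
    induction hv using Submodule.iSup_induction' with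
    | mem q v hv => exact Submodule.mem_iSup_of_mem q ((hW' q v).1 hv).1
    | zero => exact Submodule.zero_mem _
    | add a b _ _ ha hb => exact Submodule.add_mem _ ha hb
  have := key (Sum.elim x 0) (by rw [hs]; trivial)
  simpa using this

theorem sum_span' {W' : ℕ → Submodule ℂ (e → ℂ)} (hW' : ∀ (p : ℕ) (v : d ⊕ e → ℂ),
    v ∈ V p ↔ (fun i => v (Sum.inl i)) ∈ W p ∧ (fun i => v (Sum.inr i)) ∈ W' p)
    (hs : ⨆ p, V p = ⊤) : ⨆ p, W' p = ⊤ := by
  rw [eq_top_iff]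
  intro x _
  have key : ∀ v ∈ ⨆ p, V p, (fun i => v (Sum.inr i)) ∈ ⨆ p, W' p := by
    intro v hv
    induction hv using Submodule.iSup_induction' with
    | mem q v hv => exact Submodule.mem_iSup_of_mem q ((hW' q v).1 hv).2
    | zero => exact Submodule.zero_mem _
    | add a b _ _ ha hb => exact Submodule.add_mem _ ha hb
  have := key (Sum.elim 0 x) (by rw [hs]; trivial)
  simpa using this

theorem sum_top (h : Sum1 V W) {w : ℕ} (ht : ∀ p, w < p → V p = ⊥) :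
    ∀ p, w < p → W p = ⊥ := by
  intro p hp
  rw [Submodule.eq_bot_iff]
  intro x hx
  have h1 := sum_mem_inl (e := e) h hx
  rw [ht p hp, Submodule.mem_bot] at h1
  funext i
  exact congrFun h1 (Sum.inl i)

theorem sum_top' {W' : ℕ → Submodule ℂ (e → ℂ)} (hW' : ∀ (p : ℕ) (v : d ⊕ e → ℂ),
    v ∈ V p ↔ (fun i => v (Sum.inl i)) ∈ W p ∧ (fun i => v (Sum.inr i)) ∈ W' p)
    {w : ℕ} (ht : ∀ p, w < p → V p = ⊥) : ∀ p, w < p → W' p = ⊥ := by
  intro p hp
  rw [Submodule.eq_bot_iff]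
  intro x hx
  have h1 : (Sum.elim 0 x : d ⊕ e → ℂ) ∈ V p := by
    rw [hW']
    exact ⟨(W p).zero_mem, hx⟩
  rw [ht p hp, Submodule.mem_bot] at h1
  funext i
  exact congrFun h1 (Sum.inr i)

/-- the torus of a sum -/
theorem tor_sum {w : ℕ} {E : Matrix (d ⊕ e) (d ⊕ e) ℚ} (hV : PolHodge w E V) (h : Sum1 V W) {a : ℂ}
    {T : Matrix (d ⊕ e) (d ⊕ e) ℂ}
    (hT : ∀ p ≤ w, ∀ x ∈ V p, T *ᵥ x = (a ^ p * star a ^ (w - p)) • x) :
    ∃ A B, T = fromBlocks A 0 0 B ∧ ∀ p ≤ w, ∀ x ∈ W p, A *ᵥ x = (a ^ p * star a ^ (w - p)) • x := by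
  have hsum : ∀ {p : ℕ} {x : d → ℂ}, x ∈ W p → (Sum.elim x 0 : d ⊕ e → ℂ) ∈ V p :=
    fun hx => sum_mem_inl h hx
  obtain ⟨W', hW'⟩ := id h
  have hsum' : ∀ {p : ℕ} {x : e → ℂ}, x ∈ W' p → (Sum.elim 0 x : d ⊕ e → ℂ) ∈ V p := by
    intro p x hx
    rw [hW']
    exact ⟨(W p).zero_mem, hx⟩
  have hb := fromBlocks_toBlocks T
  have hm : ∀ (x : d → ℂ), T *ᵥ (Sum.elim x 0 : d ⊕ e → ℂ) =
      Sum.elim (T.toBlocks₁₁ *ᵥ x) (T.toBlocks₂₁ *ᵥ x) := by
    intro x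
    conv_lhs => rw [← hb]
    rw [fromBlocks_mulVec]
    simp
  have hm' : ∀ (x : e → ℂ), T *ᵥ (Sum.elim 0 x : d ⊕ e → ℂ) =
      Sum.elim (T.toBlocks₁₂ *ᵥ x) (T.toBlocks₂₂ *ᵥ x) := by
    intro x
    conv_lhs => rw [← hb]
    rw [fromBlocks_mulVec]
    simp
  have hA : ∀ p ≤ w, ∀ x ∈ W p, T.toBlocks₁₁ *ᵥ x = (a ^ p * star a ^ (w - p)) • x ∧
      T.toBlocks₂₁ *ᵥ x = 0 := by
    intro p hp x hx
    have h1 := hT p hp _ (hsum hx)
    rw [hm] at h1
    refine ⟨?_, ?_⟩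
    · funext i
      exact congrFun h1 (Sum.inl i)
    · funext i
      have := congrFun h1 (Sum.inr i)
      simpa using this
  have hB : ∀ p ≤ w, ∀ x ∈ W' p, T.toBlocks₁₂ *ᵥ x = 0 := by
    intro p hp x hx
    have h1 := hT p hp _ (hsum' hx)
    rw [hm'] at h1
    funext i
    have := congrFun h1 (Sum.inl i)
    simpa using this
  have h21 : T.toBlocks₂₁ = 0 := by
    have key : ∀ x ∈ ⨆ p, W p, T.toBlocks₂₁ *ᵥ x = 0 := by
      intro x hx
      induction hx using Submodule.iSup_induction' with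
      | mem q x hx =>
        rcases le_or_gt q w with hq | hq
        · exact (hA q hq x hx).2
        · rw [sum_top h hV.top q hq, Submodule.mem_bot] at hx
          rw [hx, mulVec_zero]
      | zero => rw [mulVec_zero]
      | add a b _ _ ha hb => rw [mulVec_add, ha, hb, add_zero]
    apply Matrix.ext_of_mulVec_single
    intro j
    rw [key _ (by rw [sum_span h hV.span]; trivial), zero_mulVec]
  have h12 : T.toBlocks₁₂ = 0 := by
    have key : ∀ x ∈ ⨆ p, W' p, T.toBlocks₁₂ *ᵥ x = 0 := by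
      intro x hx
      induction hx using Submodule.iSup_induction' with
      | mem q x hx =>
        rcases le_or_gt q w with hq | hq
        · exact hB q hq x hx
        · rw [sum_top' hW' hV.top q hq, Submodule.mem_bot] at hx
          rw [hx, mulVec_zero]
      | zero => rw [mulVec_zero]
      | add a b _ _ ha hb => rw [mulVec_add, ha, hb, add_zero]
    apply Matrix.ext_of_mulVec_single
    intro j
    rw [key _ (by rw [sum_span' hW' hV.span]; trivial), zero_mulVec]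
  refine ⟨T.toBlocks₁₁, T.toBlocks₂₂, ?_, fun p hp x hx => (hA p hp x hx).1⟩
  conv_lhs => rw [← hb, h12, h21]

end sum

/-- the torus of a sum is in the pull back -/
theorem tor_pb {w : ℕ} {E : Matrix (d ⊕ e) (d ⊕ e) ℚ} {V : ℕ → Submodule ℂ (d ⊕ e → ℂ)}
    {W : ℕ → Submodule ℂ (d → ℂ)} (hV : PolHodge w E V) (h : Sum1 V W)
    {I : Set (MvPolynomial (d × d) ℚ)} :
    hodgeTorus w V ⊆ zeros (Pb e I) ℂ ↔ hodgeTorus w W ⊆ zeros I ℂ := by
  constructor
  · intro hs T hT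
    obtain ⟨a, ha, hTa⟩ := hT
    obtain ⟨π, hπ, h1, h2, h3⟩ := proj_of hV
    obtain ⟨T', hT', hT'a⟩ : ∃ T' ∈ hodgeTorus w V, ∀ p ≤ w, ∀ x ∈ V p,
        T' *ᵥ x = (a ^ p * star a ^ (w - p)) • x := by
      refine ⟨hz w π a, hz_torus hπ h2 ha, fun p hp x hx => ?_⟩
      unfold hz
      conv_lhs => rw [← h2 p x hx]
      rw [mulVec_mulVec, hπ.mul_sum (fun p => a ^ p * (starRingEnd ℂ a) ^ (w - p)) hp, smul_mulVec,
        h2 p x hx]
      rfl
    obtain ⟨A, B, hAB, hA⟩ := tor_sum hV h hT'a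
    have h4 : T = A := by
      apply Helper46_MT.ind (sum_span h hV.span) (sum_top h hV.top)
      intro p hp x hx
      rw [hTa p hp x hx, hA p hp x hx]
    obtain ⟨A', B', hAB', hA', -⟩ := mem_pb.1 (hs hT')
    rw [hAB] at hAB'
    have h5 := (fromBlocks_inj.1 hAB').1
    rw [h4, h5]
    exact hA'
  · intro hs T hT
    obtain ⟨a, ha, hTa⟩ := id hT
    obtain ⟨A, B, hAB, hA⟩ := tor_sum hV h hTa
    have hu := tor_unit hV hT
    rw [hAB, det_blk] at hu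
    exact mem_pb.2 ⟨A, B, hAB, hs ⟨a, ha, hA⟩, isUnit_of_mul_isUnit_right hu⟩

/-- the unipotents are in the pull back -/
theorem uni_pb {U : Set (Matrix (d ⊕ e) (d ⊕ e) ℂ)} (hU : BlkD U) (hd : ∀ u ∈ U, IsUnit u.det)
    {I : Set (MvPolynomial (d × d) ℚ)} : (∀ u ∈ U, u ∈ zeros (Pb e I) ℂ) ↔ Fst U ⊆ zeros I ℂ := by
  constructor
  · rintro hs u ⟨u', hu'⟩
    obtain ⟨A, B, hAB, hA, -⟩ := mem_pb.1 (hs _ hu')
    rw [(fromBlocks_inj.1 hAB).1]
    exact hA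
  · intro hs u hu
    obtain ⟨u1, u2, rfl⟩ := hU u hu
    have h1 := hd _ hu
    rw [det_blk] at h1
    exact mem_pb.2 ⟨u1, u2, rfl, hs ⟨u2, hu⟩, isUnit_of_mul_isUnit_right h1⟩

/-- the Mumford-Tate group of the first summand -/
theorem mt_sum {M : Set (Matrix (d ⊕ e) (d ⊕ e) ℂ)} (hB : BlkD (Uni M)) {w : ℕ}
    {E E0 : Matrix (d ⊕ e) (d ⊕ e) ℚ} {V V0 : ℕ → Submodule ℂ (d ⊕ e → ℂ)}
    {W W0 : ℕ → Submodule ℂ (d → ℂ)} (hV : PolHodge w E V) (hV0 : PolHodge w E0 V0)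
    (hW : Sum1 V W) (hW0 : Sum1 V0 W0) (hmt : mtGroup w V ℂ = GenM M w V0 ℂ)
    (K : Type u) [Field K] [CharZero K] : mtGroup w W K = GenU (Fst (Uni M)) w W0 K := by
  have hd : ∀ u ∈ Uni M, IsUnit u.det := by
    intro u hu
    rw [MT100A.H97.det_uni hu]
    exact isUnit_one
  refine Set.Subset.antisymm ?_ ?_
  · intro x hx I hI hT hU
    refine hx I hI fun T hT' => ?_
    have h1 := pb_group (e := e) hI
    have h2 := (tor_pb hV0 hW0 (I := I)).2 hT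
    have h3 := (uni_pb hB hd (I := I)).2 hU
    refine (tor_pb hV hW (I := I)).1 (fun T hT => ?_) hT'
    have h4 : T ∈ mtGroup w V ℂ := tor_mt hT
    rw [hmt] at h4
    exact h4 _ h1 h2 h3
  · intro x hx I hI hT
    have h1 := pb_group (e := e) hI
    have h2 := (tor_pb hV hW (I := I)).2 (fun T hT' => hT T hT')
    have h3 : ∀ y ∈ GenM M w V0 ℂ, y ∈ zeros (Pb e I) ℂ := by
      intro y hy
      rw [← hmt] at hy
      exact hy _ h1 (fun T hT => h2 hT)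
    refine hx I hI ((tor_pb hV0 hW0 (I := I)).1 fun T hT => h3 T ?_)
      ((uni_pb hB hd (I := I)).1 fun u hu => h3 u ?_)
    · exact fun J _ hJT _ => hJT hT
    · exact fun J _ _ hJU => hJU u hu

end Pool.Agent.MTPN.H39
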