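import Pool.Agent.MTPN.Stmts

/-! MTPN, modules NOE, IDX, GNO, GEO, DFI: Galois groups. -/

set_option autoImplicit false
set_option linter.unusedSectionVars false

namespace Pool.Agent.MTPN.H39

open Polynomial Matrix Pool.Agent.MT100 Pool.Agent.Helper78_MT Pool.Agent.MTL

/-- NOE -/
theorem noe : NoeStmt := by
  intro d _ _ ℓ _ Γ _ ρ
  classical
  let J : Subgroup Γ → Ideal (MvPolynomial (d × d) ℚ_[ℓ]) := fun H =>
    { carrier := {f | ∀ γ ∈ H, pev (ρ γ : Matrix d d ℚ_[ℓ]) f = 0}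
      add_mem' := fun {f g} hf hg γ hγ => by rw [map_add, hf γ hγ, hg γ hγ, add_zero]
      zero_mem' := fun γ _ => map_zero _
      smul_mem' := fun a f hf γ hγ => by rw [smul_eq_mul, map_mul, hf γ hγ, mul_zero] }
  have hJ : ∀ H f, f ∈ J H ↔ ∀ γ ∈ H, pev (ρ γ : Matrix d d ℚ_[ℓ]) f = 0 := fun H f => Iff.rfl
  obtain ⟨m, ⟨H, hH, rfl⟩, hmax⟩ := WellFounded.has_min
    (wellFounded_gt : WellFounded ((· > ·) : Ideal (MvPolynomial (d × d) ℚ_[ℓ]) → _ → Prop))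
    {I | ∃ H : Subgroup Γ, H.FiniteIndex ∧ J H = I} ⟨J ⊤, ⊤, inferInstance, rfl⟩
  refine ⟨H, hH, fun γ hγ Γ' hΓ' => ?_⟩
  refine ⟨(isUnit_iff_isUnit_det _).1 (ρ γ).isUnit, fun p hp => ?_⟩
  have hfin : (H ⊓ Γ').FiniteIndex := by
    have := hH
    have := hΓ'
    infer_instance
  have h1 : J H ≤ J (H ⊓ Γ') := fun f hf γ hγ => hf γ hγ.1
  have h2 : J (H ⊓ Γ') = J H := by
    by_contra hne
    exact hmax _ ⟨_, hfin, rfl⟩ (lt_of_le_of_ne h1 fun h => hne h.symm)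
  have h3 : p ∈ J (H ⊓ Γ') := fun γ hγ => hp _ ⟨γ, hγ.2, rfl⟩
  rw [h2] at h3
  exact h3 γ hγ

/-- IDX -/
theorem idx : IdxStmt := by
  intro G _ N X hN h1 h2
  have := h1
  have := h2
  rw [Subgroup.finiteIndex_iff_finite_quotient]
  let f : (G ⧸ (X ⊔ N)) × (N ⧸ X.subgroupOf N) → G ⧸ X := fun z =>
    ((z.1.out * (z.2.out : G) : G) : G ⧸ X)
  refine Finite.of_surjective f ?_
  intro z
  obtain ⟨g, rfl⟩ := QuotientGroup.mk_surjective z
  obtain ⟨g0, hg0⟩ : ∃ g0, g0 = ((g : G ⧸ (X ⊔ N))).out := ⟨_, rfl⟩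
  have h3 : g0⁻¹ * g ∈ X ⊔ N := by
    rw [← QuotientGroup.eq, hg0]
    exact QuotientGroup.out_eq' _
  rw [sup_comm, Subgroup.mem_sup_of_normal_left] at h3
  obtain ⟨n, hn, x, hx, hnx⟩ := h3
  refine ⟨((g : G ⧸ (X ⊔ N)), ((⟨n, hn⟩ : N) : N ⧸ X.subgroupOf N)), ?_⟩
  show ((((g : G ⧸ (X ⊔ N))).out * ((((⟨n, hn⟩ : N) : N ⧸ X.subgroupOf N)).out : G) : G) : G ⧸ X) =
    (g : G ⧸ X)
  rw [← hg0, QuotientGroup.eq]
  obtain ⟨n0, hn0⟩ : ∃ n0, n0 = (((⟨n, hn⟩ : N) : N ⧸ X.subgroupOf N)).out := ⟨_, rfl⟩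
  rw [← hn0]
  have h4 : n0⁻¹ * ⟨n, hn⟩ ∈ X.subgroupOf N := by
    rw [← QuotientGroup.eq, hn0]
    exact QuotientGroup.out_eq' _
  have h5 : (n0 : G)⁻¹ * n ∈ X := by
    rw [Subgroup.mem_subgroupOf] at h4
    exact h4
  have h6 : g = g0 * (n * x) := by rw [hnx, mul_inv_cancel_left]
  rw [h6]
  have h7 : (g0 * (n0 : G))⁻¹ * (g0 * (n * x)) = (n0 : G)⁻¹ * n * x := by group
  rw [h7]
  exact X.mul_mem h5 hx

/-- automorphisms preserve the algebraic numbers -/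
theorem alg_map (g : GT) {x : Om} (hx : IsAlgebraic ℚ x) : IsAlgebraic ℚ (g x) := by
  obtain ⟨p, hp, hpx⟩ := hx
  refine ⟨p, hp, ?_⟩
  have h1 := Polynomial.aeval_algHom_apply (g.restrictScalars ℚ : Om →ₐ[ℚ] Om) x p
  rw [hpx, map_zero] at h1
  exact h1

/-- GNO -/
theorem gno : GnoStmt := by
  refine ⟨fun σ hσ g x hx => ?_⟩
  show g (σ (g⁻¹ x)) = x
  rw [hσ _ (alg_map g⁻¹ hx)]
  exact g.apply_symm_apply x

/-- the field of the constants -/
noncomputable abbrev Cs : IntermediateField ℚ Om := algebraicClosure ℚ Om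

theorem cs_int (c : Cs) : IsIntegral ℚ[X] (c : Om) := by
  have h1 : IsIntegral ℚ (c : Om) := c.2
  exact h1.tower_top

/-- the constants as elements of `BB` -/
noncomputable def cB : Cs →+* BB where
  toFun := fun c => ⟨(c : Om), cs_int c⟩
  map_one' := rfl
  map_zero' := rfl
  map_mul' := fun _ _ => rfl
  map_add' := fun _ _ => rfl

theorem cB_coe (c : Cs) : ((cB c : BB) : Om) = (c : Om) := rfl

/-- the isomorphism of the constants with the algebraic closure of `ℚ` given by `π` -/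
theorem ex_iso (π : BB →+* AlgebraicClosure ℚ) :
    ∃ j : Cs ≃ₐ[ℚ] AlgebraicClosure ℚ, ∀ c : Cs, j c = π (cB c) := by
  let φ : Cs →+* AlgebraicClosure ℚ := π.comp cB
  let φ' : Cs →ₐ[ℚ] AlgebraicClosure ℚ := φ.toRatAlgHom
  letI : Algebra Cs (AlgebraicClosure ℚ) := φ.toAlgebra
  have : IsScalarTower ℚ Cs (AlgebraicClosure ℚ) := IsScalarTower.of_algebraMap_eq' (by
    exact Subsingleton.elim _ _)
  have : IsAlgClosed Cs := (algebraicClosure.isAlgClosure ℚ Om).isAlgClosed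
  have hal : Algebra.IsAlgebraic ℚ (AlgebraicClosure ℚ) := AlgebraicClosure.isAlgebraic ℚ
  have : Algebra.IsIntegral Cs (AlgebraicClosure ℚ) :=
    (Algebra.IsAlgebraic.tower_top (K := ℚ) Cs (A := AlgebraicClosure ℚ)).isIntegral
  have hb : Function.Bijective φ :=
    IsAlgClosed.algebraMap_bijective_of_isIntegral (k := Cs) (K := AlgebraicClosure ℚ)
  exact ⟨AlgEquiv.ofBijective φ' hb, fun c => rfl⟩

instance : Normal ℚ Cs := by
  have : IsAlgClosure ℚ Cs := algebraicClosure.isAlgClosure ℚ Om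
  exact IsAlgClosure.normal ℚ Cs

/-- the restriction to the constants -/
noncomputable def rsC : GT →* (Cs ≃ₐ[ℚ] Cs) :=
  (AlgEquiv.restrictNormalHom Cs).comp (AlgEquiv.restrictScalarsHom ℚ)

theorem rsC_apply (σ : GT) (c : Cs) : ((rsC σ c : Cs) : Om) = σ (c : Om) := by
  have h1 := AlgEquiv.restrictNormal_commutes (AlgEquiv.restrictScalarsHom ℚ σ : Om ≃ₐ[ℚ] Om) Cs c
  exact h1

/-- GEO -/
theorem geo (hD : DeaStmt) : GeoStmt := by
  intro a π hπ H hH hHa X hX1 hX2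
  obtain ⟨j, hj⟩ := ex_iso π
  let θ : GT →* GQ := (AlgEquiv.autCongr j).toMonoidHom.comp rsC
  have hθ : ∀ (σ : GT) (c : Cs), θ σ (π (cB c)) = π (σ • cB c) := by
    intro σ c
    have h1 : θ σ (j c) = j (rsC σ c) := by
      show j (rsC σ (j.symm (j c))) = _
      rw [AlgEquiv.symm_apply_apply]
    rw [hj, hj] at h1
    rw [h1]
    congr 1
    apply Subtype.ext
    rw [cB_coe, rsC_apply]
    rfl
  have hfi : (H.comap θ).FiniteIndex := by
    have := hH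
    refine ⟨?_⟩
    rw [Subgroup.index_comap]
    exact (inferInstance : (H.subgroupOf θ.range).FiniteIndex).index_ne_zero
  refine Subgroup.finiteIndex_of_le (H := H.comap θ) ?_
  intro σ hσ
  obtain ⟨δ, hδ⟩ := (hD a π hπ).2 (θ σ) (hHa _ hσ)
  have hδX : δ ∈ X := hX2 δ (θ σ) hσ hδ
  have hgeo : δ⁻¹ * σ ∈ Ggeo := by
    intro x hx
    have h1 : ∀ c : Cs, σ (c : Om) = δ (c : Om) := by
      intro c
      have h2 : π (σ • cB c) = π (δ • cB c) := by rw [hδ, hθ]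
      have h3 : σ • cB c = cB (rsC σ c) := Subtype.ext (by rw [cB_coe, rsC_apply]; rfl)
      have h4 : δ • cB c = cB (rsC δ c) := Subtype.ext (by rw [cB_coe, rsC_apply]; rfl)
      rw [h3, h4, ← hj, ← hj] at h2
      have h5 := congrArg (fun z : Cs => (z : Om)) (j.injective h2)
      simp only [rsC_apply] at h5
      exact h5
    have hxi : x ∈ Cs := mem_algebraicClosure_iff.2 hx
    show δ⁻¹ (σ x) = x
    rw [h1 ⟨x, hxi⟩]
    exact δ.symm_apply_apply x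
  have h6 : σ = δ * (δ⁻¹ * σ) := by rw [mul_inv_cancel_left]
  rw [h6]
  exact X.mul_mem hδX (hX1 hgeo)

/-- DFI -/
theorem dfi (hD : DeaStmt) : DfiStmt := by
  intro a π hπ H0 hH0 Γ' hΓ'
  have hmul : ∀ (σ σ' : GT) (g g' : H0), (∀ b : BB, π (σ • b) = (g : GQ) (π b)) →
      (∀ b : BB, π (σ' • b) = (g' : GQ) (π b)) →
      ∀ b : BB, π ((σ * σ') • b) = ((g * g' : H0) : GQ) (π b) := by
    intro σ σ' g g' h h' b
    rw [mul_smul, h, h']
    rfl
  have hinv : ∀ (σ : GT) (g : H0), (∀ b : BB, π (σ • b) = (g : GQ) (π b)) →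
      ∀ b : BB, π (σ⁻¹ • b) = ((g⁻¹ : H0) : GQ) (π b) := by
    intro σ g h b
    have h1 := h (σ⁻¹ • b)
    rw [smul_inv_smul] at h1
    rw [h1]
    exact ((g : GQ).symm_apply_apply _).symm
  let H : Subgroup H0 :=
    { carrier := {g | ∃ σ ∈ Γ', ∀ b : BB, π (σ • b) = ((g : H0) : GQ) (π b)}
      mul_mem' := fun {g g'} ⟨σ, h1, h2⟩ ⟨σ', h1', h2'⟩ =>
        ⟨σ * σ', Γ'.mul_mem h1 h1', hmul σ σ' g g' h2 h2'⟩
      one_mem' := ⟨1, Γ'.one_mem, fun b => by rw [one_smul]; rfl⟩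
      inv_mem' := fun {g} ⟨σ, h1, h2⟩ => ⟨σ⁻¹, Γ'.inv_mem h1, hinv σ g h2⟩ }
  refine ⟨H, ?_, fun g hg => hg⟩
  choose s hs using fun g : H0 => (hD a π hπ).2 (g : GQ) (hH0 _ g.2)
  have := hΓ'
  rw [Subgroup.finiteIndex_iff_finite_quotient]
  refine Finite.of_injective (fun q : H0 ⧸ H => ((s q.out : GT) : GT ⧸ Γ')) ?_
  intro q q' hq
  have h1 : (s q.out)⁻¹ * s q'.out ∈ Γ' := QuotientGroup.eq.1 hq
  have h2 : (q.out)⁻¹ * q'.out ∈ H :=
    ⟨_, h1, hmul _ _ _ _ (hinv _ _ (hs q.out)) (hs q'.out)⟩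
  have h3 := QuotientGroup.eq.2 h2
  rwa [QuotientGroup.out_eq', QuotientGroup.out_eq'] at h3

end Pool.Agent.MTPN.H39
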