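import Pool.Agent.MTPN.Stmts

/-! MTPN, module LIG: the Deligne torus of a second Hodge structure is in the group generated by the
torus of the first one and the unipotents (port of Helper34_MTA/Lie3). -/

set_option autoImplicit false
set_option linter.unusedSectionVars false

namespace Pool.Agent.MTPN.H39

open MvPolynomial Matrix Module Pool.Agent.Helper78_MT Pool.Agent.Helper3_MT
  Pool.Agent.Helper46_MT Pool.Agent.MT100 Pool.Agent.MT100G.H46 Pool.Agent.MT100GO.H46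
  Pool.Agent.MT100A Pool.Agent.MT100A.H64 Pool.Agent.MT100A.H34
open Pool.Agent.MT100D (GenM)

open scoped ComplexOrder

variable {n : Type} [Fintype n] [DecidableEq n] {w : ℕ} {E E' : Matrix n n ℚ}
  {π π' : ℕ → Matrix n n ℂ} {V V' : ℕ → Submodule ℂ (n → ℂ)} {I : Set (MvPolynomial (n × n) ℚ)}
  {M : Set (Matrix n n ℂ)}

/-- a tensor is determined by its values -/
theorem tens_inv {t : (Fin 4 → n) → ℂ} {g : Matrix n n ℂ}
    (h : ∀ x : Fin 4 → n → ℂ, ∑ β, t β * ∏ j, (g *ᵥ x j) (β j) = ∑ β, t β * ∏ j, x j (β j)) :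
    tA t g = t := by
  funext α
  have h1 := h (fun j => Pi.single (α j) 1)
  rw [tA_val] at h1
  have h2 : ∀ s : (Fin 4 → n) → ℂ,
      ∑ β, s β * ∏ j, (Pi.single (α j) (1 : ℂ) : n → ℂ) (β j) = s α := by
    intro s
    rw [Finset.sum_eq_single α]
    · rw [Finset.prod_eq_one, mul_one]
      intro j _
      rw [Pi.single_eq_same]
    · intro β _ hβ
      obtain ⟨j, hj⟩ := Function.ne_iff.1 hβ
      rw [Finset.prod_eq_zero (Finset.mem_univ j), mul_zero]
      rw [Pi.single_eq_of_ne hj]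
    · intro hα
      exact absurd (Finset.mem_univ _) hα
  rwa [h2, h2] at h1

/-- conjugation by an isometry in the group -/
theorem Ul_conj_iso (hG : IsAlgSubgroup I) {g g' : Matrix n n ℂ} (hgg : g * g' = 1)
    (hg : g ∈ zeros I ℂ) (hg' : g' ∈ zeros I ℂ)
    (hiso : gᵀ * E.map (algebraMap ℚ ℂ) * g = E.map (algebraMap ℚ ℂ)) {Z : Matrix n n ℂ}
    (hZ : Z ∈ Ul I E) : g * Z * g' ∈ Ul I E := by
  have hgg' : g' * g = 1 := mul_eq_one_comm.mp hgg
  refine ⟨lieOf_conj hgg' (fun a ha => hG.2.1 _ ha _ hg) (fun a ha => hG.2.1 _ ha _ hg') hZ.1, ?_⟩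
  obtain ⟨F, hF⟩ : ∃ F, F = E.map (algebraMap ℚ ℂ) := ⟨_, rfl⟩
  have hZ2 := hZ.2
  rw [← hF] at hiso hZ2 ⊢
  have h3 : gᵀ * F = F * g' := by
    calc gᵀ * F = gᵀ * F * (g * g') := by rw [hgg, mul_one]
      _ = (gᵀ * F * g) * g' := by simp only [mul_assoc]
      _ = _ := by rw [hiso]
  have h1t : g'ᵀ * gᵀ = 1 := by rw [← transpose_mul, hgg, transpose_one]
  have h4 : F * g = g'ᵀ * F := by
    calc F * g = (g'ᵀ * gᵀ) * (F * g) := by rw [h1t, one_mul]
      _ = g'ᵀ * (gᵀ * F * g) := by simp only [mul_assoc]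
      _ = _ := by rw [hiso]
  have e1 : (g * Z * g')ᵀ * F = g'ᵀ * (Zᵀ * F) * g' := by
    rw [transpose_mul, transpose_mul]
    calc g'ᵀ * (Zᵀ * gᵀ) * F = g'ᵀ * Zᵀ * (gᵀ * F) := by simp only [mul_assoc]
      _ = _ := by rw [h3]; simp only [mul_assoc]
  have e2 : F * (g * Z * g') = g'ᵀ * (F * Z) * g' := by
    calc F * (g * Z * g') = (F * g) * Z * g' := by simp only [mul_assoc]
      _ = _ := by rw [h4]; simp only [mul_assoc]
  rw [e1, e2, ← add_mul, ← mul_add, hZ2, mul_zero, zero_mul]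

/-- the whole one parameter group -/
theorem uni_all {X : Matrix n n ℂ} (hX : IsNilpotent X) (hcl : ∀ s : ℂ, ue X s ∈ zclosure ℂ ℂ M)
    (s : ℂ) : ue X s ∈ Uni M := by
  refine ⟨s • X, ?_, ?_, fun s' => ?_⟩
  · obtain ⟨k, hk⟩ := hX
    exact ⟨k, by rw [smul_pow, hk, smul_zero]⟩
  · rw [ue_smul, one_mul]
  · rw [ue_smul]
    exact hcl _

/-- the tensor attached to the orthogonal basis is invariant under the unipotents in the group -/
theorem tt_inv (hG : IsAlgSubgroup I) (hU : ∀ u ∈ Uni M, u ∈ zeros I ℂ)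
    (hiso : ∀ u ∈ Uni M, uᵀ * E.map (algebraMap ℚ ℂ) * u = E.map (algebraMap ℚ ℂ))
    {d : ℕ} {Y : Fin d → Matrix n n ℚ} {c : Fin d → ℚ} (hob : OB I E Y c) :
    ∀ u ∈ Uni M, tA (fun β => (tt E Y c β : ℂ)) u = fun β => (tt E Y c β : ℂ) := by
  rintro u ⟨X, hX, rfl, hcl⟩
  have h1 := ue_inv hX 1
  have h2 : ue X (-1) * ue X 1 = 1 := mul_eq_one_comm.mp h1
  have hm := fun s => uni_all (M := M) hX hcl s
  apply tens_inv
  intro x
  rw [tt_val, tt_val]
  have h3 := hob.tv_sim (μ := 1) h1 h2 (by rw [one_smul]; exact hiso _ (hm 1))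
    (fun Z hZ => Ul_conj_iso hG h1 (hU _ (hm 1)) (hU _ (hm (-1))) (hiso _ (hm 1)) hZ)
    (fun Z hZ => Ul_conj_iso hG h2 (hU _ (hm (-1))) (hU _ (hm 1)) (hiso _ (hm (-1))) hZ) x
  rw [h3, one_pow, one_mul]

/-- the tensor attached to a rational matrix which commutes with the unipotents is invariant -/
theorem zt_inv (hiso : ∀ u ∈ Uni M, uᵀ * E.map (algebraMap ℚ ℂ) * u = E.map (algebraMap ℚ ℂ))
    {Q : Matrix n n ℚ}
    (hQ : ∀ u ∈ Uni M, u * Q.map (algebraMap ℚ ℂ) = Q.map (algebraMap ℚ ℂ) * u) :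
    ∀ u ∈ Uni M, tA (fun β => (zt E Q β : ℂ)) u = fun β => (zt E Q β : ℂ) := by
  intro u hu
  apply tens_inv
  intro x
  rw [zt_val, zt_val]
  have h1 : uᵀ * (E.map (algebraMap ℚ ℂ) * Q.map (algebraMap ℚ ℂ)) * u =
      E.map (algebraMap ℚ ℂ) * Q.map (algebraMap ℚ ℂ) := by
    calc uᵀ * (E.map (algebraMap ℚ ℂ) * Q.map (algebraMap ℚ ℂ)) * u
        = uᵀ * E.map (algebraMap ℚ ℂ) * (Q.map (algebraMap ℚ ℂ) * u) := by simp only [mul_assoc]
      _ = (uᵀ * E.map (algebraMap ℚ ℂ) * u) * Q.map (algebraMap ℚ ℂ) := by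
          rw [← hQ u hu]; simp only [mul_assoc]
      _ = _ := by rw [hiso u hu]
  rw [dot_conj, dot_conj, h1, hiso u hu]

/-- the logarithms of the unipotents are in the Lie algebra -/
theorem log_mem (hG : IsAlgSubgroup I) (hU : ∀ u ∈ Uni M, u ∈ zeros I ℂ)
    (hiso : ∀ u ∈ Uni M, uᵀ * E.map (algebraMap ℚ ℂ) * u = E.map (algebraMap ℚ ℂ))
    {X : Matrix n n ℂ} (hX : IsNilpotent X) (hcl : ∀ s : ℂ, ue X s ∈ zclosure ℂ ℂ M) :
    X ∈ Ul I E := by
  refine ⟨?_, deriv_inv hX fun s => hiso _ (uni_all hX hcl s)⟩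
  exact MT100A.H97.UP_lie (M := M) hG.2.1 hU (Submodule.subset_span ⟨hX, hcl⟩)

/-- a matrix which commutes with the Lie algebra commutes with the unipotents -/
theorem comm_uni (hG : IsAlgSubgroup I) (hU : ∀ u ∈ Uni M, u ∈ zeros I ℂ)
    (hiso : ∀ u ∈ Uni M, uᵀ * E.map (algebraMap ℚ ℂ) * u = E.map (algebraMap ℚ ℂ))
    {z : Matrix n n ℂ} (hz : z ∈ Zz I E) : ∀ u ∈ Uni M, u * z = z * u := by
  rintro u ⟨X, hX, rfl, hcl⟩
  have h1 : z * X = X * z := hz.1 X (log_mem hG hU hiso hX hcl)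
  have h2 : ∀ t : ℕ, X ^ t * z = z * X ^ t := by
    intro t
    have h3 : Commute z X := h1
    exact (h3.pow_right t).eq.symm
  unfold ue
  rw [Finset.sum_mul, Finset.mul_sum]
  refine Finset.sum_congr rfl fun t _ => ?_
  rw [smul_mul_assoc, mul_smul_comm, h2]

/-- **LIG** -/
theorem lig : LigStmt := by
  intro n _ _ w E E' V V' M hw hV hV' hiso hT hQ T hTV I hG hI hU
  obtain ⟨π, hπ, h1, h2, h3⟩ := proj_of hV
  obtain ⟨π', hπ'0, h1', h2', h3'⟩ := proj_of hV'
  have hE := det_ne hV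
  have hFd := det_map hE
  have hI' : ∀ z : ℂ, z ≠ 0 → hz w π z ∈ zeros I ℂ := fun z hz0 => hI (hz_torus hπ h2 hz0)
  have nd : ∀ X ∈ Ul I E, (∀ Y ∈ Ul I E, (X * Y).trace = 0) → X = 0 := by
    intro X hX hX0
    rcases Nat.even_or_odd w with he | ho
    · exact trace_nd_even hV he hw hπ h1 hG hI' hX hX0
    · exact trace_nd hV ho hπ h1 hG hI' hX hX0
  obtain ⟨d, Y, c, hc1, hc2, hc3, hc4⟩ := exists_orth (I := I) (E := E) nd
  have hob : OB I E Y c := ⟨hc1, hc2, hc3, hc4⟩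
  -- Hodge forms of `V`
  have hztH : ∀ Q : Matrix n n ℚ, (∀ p, ∀ x ∈ V p, Q.map (algebraMap ℚ ℂ) *ᵥ x ∈ V p) →
      Hdg w V (zt E Q) := by
    intro Q hQp p x hx hp
    rw [zt_val]
    by_cases h01 : p 0 + p 1 = w
    · have h23 : p 2 + p 3 ≠ w := by
        intro h23
        apply hp
        rw [Fin.sum_univ_four]
        omega
      rw [hV.orth _ _ h23 _ (hx 2) _ (hx 3), mul_zero]
    · rw [← mulVec_mulVec, hV.orth _ _ h01 _ (hx 0) _ (hQp _ _ (hx 1)), zero_mul]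
  have hEE : Hdg w V' (zt E 1) := by
    refine hT _ (zt_inv hiso fun u _ => by
      rw [Matrix.map_one _ (map_zero _) (map_one _), mul_one, one_mul]) (hztH 1 fun p x hx => ?_)
    rw [Matrix.map_one _ (map_zero _) (map_one _), one_mulVec]
    exact hx
  have hπ' : Proj w E π' := proj_pair hEE hπ'0 h1'
  have httH : Hdg w V (tt E Y c) := by
    intro p x hx hp
    rw [tt_val]
    exact hob.hodge hπ hw hG hI' h2 hV.top hx (Ne.symm hp)
  have htt' := hT _ (tt_inv hG hU hiso hob) httH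
  -- the operator of the second structure
  obtain ⟨X, hX⟩ : ∃ X, X = Phi' w π' := ⟨_, rfl⟩
  have hXs : Xᵀ * E.map (algebraMap ℚ ℂ) + E.map (algebraMap ℚ ℂ) * X = 0 := by
    have h4 := hπ'.form (fun p => (p : ℂ)) (fun _ => 1)
    have h5 := hπ'.form (fun _ => 1) (fun p => (p : ℂ))
    simp only [one_smul, mul_one, one_mul] at h4 h5
    rw [hπ'.sum] at h4 h5
    rw [mul_one] at h4
    rw [transpose_one, one_mul] at h5
    have h6 : (Phi w π')ᵀ * E.map (algebraMap ℚ ℂ) + E.map (algebraMap ℚ ℂ) * Phi w π' =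
        (w : ℂ) • E.map (algebraMap ℚ ℂ) := by
      unfold Phi
      rw [h4, h5, ← Finset.sum_add_distrib]
      conv_rhs => rw [hπ'.form_one, Finset.smul_sum]
      apply Finset.sum_congr rfl
      intro p hp
      have hp' := Nat.lt_succ_iff.1 (Finset.mem_range.1 hp)
      rw [← add_smul]
      congr 1
      rw [Nat.cast_sub hp']
      ring
    rw [hX]
    unfold Phi'
    rw [transpose_sub, transpose_smul, transpose_one, sub_mul, mul_sub, smul_mul_assoc,
      mul_smul_comm, one_mul, mul_one]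
    have h7 : (Phi w π')ᵀ * E.map (algebraMap ℚ ℂ) - ((w : ℂ) / 2) • E.map (algebraMap ℚ ℂ) +
        (E.map (algebraMap ℚ ℂ) * Phi w π' - ((w : ℂ) / 2) • E.map (algebraMap ℚ ℂ)) =
        ((Phi w π')ᵀ * E.map (algebraMap ℚ ℂ) + E.map (algebraMap ℚ ℂ) * Phi w π') -
        (w : ℂ) • E.map (algebraMap ℚ ℂ) := by
      module
    rw [h7, h6, sub_self]
  have hcom : ∀ Z : Matrix n n ℂ, X * Z - Z * X = Phi w π' * Z - Z * Phi w π' := by
    intro Z
    rw [hX]
    unfold Phi'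
    rw [sub_mul, mul_sub, smul_mul_assoc, mul_smul_comm, one_mul, mul_one]
    abel
  -- the Lie algebra is stable
  have hst : ∀ Z ∈ Ul I E, X * Z - Z * X ∈ Ul I E := by
    intro Z hZ
    rw [hcom]
    exact phi_stab hπ' fun t ht => torus_stab hob hFd hπ' h1' htt' ht hZ
  -- rational elements of the centralizer
  have hrat : ∀ Q : Matrix n n ℚ, Q.map (algebraMap ℚ ℂ) ∈ Zz I E →
      (∀ p, ∀ x ∈ V p, Q.map (algebraMap ℚ ℂ) *ᵥ x ∈ V p) ∧
      ∀ p ≤ w, π' p * Q.map (algebraMap ℚ ℂ) = Q.map (algebraMap ℚ ℂ) * π' p := by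
    intro Q hQz
    have h4 : ∀ p, ∀ x ∈ V p, Q.map (algebraMap ℚ ℂ) *ᵥ x ∈ V p := fun p x hx =>
      piece hπ hw hG hI' hQz hV h1 h2 hx
    exact ⟨h4, fun p hp => rat_comm hFd hπ' h1'
      (hT _ (zt_inv hiso (comm_uni hG hU hiso hQz)) (hztH Q h4)) hp⟩
  have hcz : ∀ z ∈ Zz I E, X * z = z * X := by
    intro z hz
    have hdes := desc (Zz I E) (fun τ X hX => Zz_aut τ hX) hz
    clear hz
    induction hdes using Submodule.span_induction with
    | mem z hz =>
      obtain ⟨Q, rfl, hQ'⟩ := hz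
      have h4 := (hrat Q hQ').2
      rw [← sub_eq_zero, hcom]
      unfold Phi
      rw [Finset.sum_mul, Finset.mul_sum, ← Finset.sum_sub_distrib]
      refine Finset.sum_eq_zero fun p hp => ?_
      rw [smul_mul_assoc, mul_smul_comm, h4 p (Nat.lt_succ_iff.1 (Finset.mem_range.1 hp)), sub_self]
    | zero => rw [mul_zero, zero_mul]
    | add a b _ _ ha hb => rw [mul_add, add_mul, ha, hb]
    | smul r a _ ha => rw [mul_smul_comm, smul_mul_assoc, ha]
  -- the components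
  obtain ⟨u, hu⟩ : ∃ u, u = prU Y c X := ⟨_, rfl⟩
  have huU : u ∈ Ul I E := by rw [hu]; exact prU_mem hob X
  have hvo : ∀ Z ∈ Ul I E, ((X - u) * Z).trace = 0 := by
    intro Z hZ
    rw [hu]
    exact prU_orth hob X hZ
  have hvz : X - u ∈ Zz I E := by
    refine orth_comm nd (fun Z hZ => ?_) hvo (skew_sub hXs huU.2)
    have h5 : (X - u) * Z - Z * (X - u) = (X * Z - Z * X) - (u * Z - Z * u) := by
      rw [sub_mul, mul_sub]
      abel
    rw [h5]
    exact Submodule.sub_mem _ (hst Z hZ) (Ul_br huU hZ)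
  -- the centre of the centralizer
  obtain ⟨Cc, hCc⟩ : ∃ Cc : Submodule ℂ (Matrix n n ℂ), ∀ z, z ∈ Cc ↔
      z ∈ Zz I E ∧ ∀ y ∈ Zz I E, z * y = y * z := by
    refine ⟨{ carrier := {z | z ∈ Zz I E ∧ ∀ y ∈ Zz I E, z * y = y * z}
              zero_mem' := ⟨Submodule.zero_mem _, fun y _ => by rw [zero_mul, mul_zero]⟩
              add_mem' := ?_
              smul_mem' := ?_ }, fun z => Iff.rfl⟩
    · rintro a b ⟨ha, ha'⟩ ⟨hb, hb'⟩
      exact ⟨Submodule.add_mem _ ha hb, fun y hy => by rw [add_mul, mul_add, ha' y hy, hb' y hy]⟩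
    · rintro r a ⟨ha, ha'⟩
      exact ⟨Submodule.smul_mem _ _ ha, fun y hy => by rw [smul_mul_assoc, mul_smul_comm, ha' y hy]⟩
  have hCaut : ∀ (τ : ℂ ≃+* ℂ), ∀ z ∈ Cc, z.map τ ∈ Cc := by
    intro τ z hz
    rw [hCc] at hz ⊢
    refine ⟨Zz_aut τ hz.1, fun y hy => ?_⟩
    have h4 := hz.2 _ (Zz_aut τ.symm hy)
    have h5 : (y.map τ.symm).map τ = y := by
      ext i j
      simp
    have h6 := congrArg (fun M : Matrix n n ℂ => M.map τ) h4
    simp only [map_mul', h5] at h6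
    exact h6
  have hUz : ∀ Z ∈ Ul I E, ∀ y ∈ Zz I E, Z * y = y * Z := fun Z hZ y hy => (hy.1 Z hZ).symm
  have hvC : X - u ∈ Cc := by
    rw [hCc]
    exact ⟨hvz, fun y hy => by rw [sub_mul, mul_sub, hcz y hy, hUz u huU y hy]⟩
  -- orthogonality to the centre
  have htrC : ∀ y ∈ Cc, (Phi w π * y).trace = (Phi w π' * y).trace := by
    intro y hy
    have hdes := desc Cc hCaut hy
    clear hy
    induction hdes using Submodule.span_induction with
    | mem z hz =>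
      obtain ⟨Q, rfl, hQ'⟩ := hz
      have h4 := ((hCc _).1 hQ').1
      obtain ⟨h5, h6⟩ := hrat Q h4
      rw [trace_mul_comm, trace_mul_comm (Phi w π')]
      refine hQ Q (comm_uni hG hU hiso h4) h5 (fun p x hx => ?_) π π' hπ hπ' h1 h1' h2 h2'
      by_cases hp : p ≤ w
      · rw [← h2' p x hx, mulVec_mulVec, ← h6 p hp, ← mulVec_mulVec]
        exact h1' _ _
      · rw [hV'.top p (by omega), Submodule.mem_bot] at hx
        rw [hx, mulVec_zero]
        exact Submodule.zero_mem _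
    | zero => rw [mul_zero, mul_zero]
    | add a b _ _ ha hb => rw [mul_add, mul_add, trace_add, trace_add, ha, hb]
    | smul r a _ ha => rw [mul_smul_comm, mul_smul_comm, trace_smul, trace_smul, ha]
  have horth : ∀ y ∈ Cc, ((X - u) * y).trace = 0 := by
    intro y hy
    obtain ⟨hy1, hy2⟩ := (hCc y).1 hy
    obtain ⟨cy, hcy⟩ : ∃ cy, cy = prU Y c y := ⟨_, rfl⟩
    have hcU : cy ∈ Ul I E := by rw [hcy]; exact prU_mem hob y
    have hyo : ∀ Z ∈ Ul I E, ((y - cy) * Z).trace = 0 := by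
      intro Z hZ
      rw [hcy]
      exact prU_orth hob y hZ
    have hyz : y - cy ∈ Zz I E := by
      refine orth_comm nd (fun Z hZ => ?_) hyo (skew_sub hy1.2 hcU.2)
      have h5 : (y - cy) * Z - Z * (y - cy) = (y * Z - Z * y) - (cy * Z - Z * cy) := by
        rw [sub_mul, mul_sub]
        abel
      rw [h5, hy1.1 Z hZ, sub_self]
      exact Submodule.sub_mem _ (Submodule.zero_mem _) (Ul_br hcU hZ)
    have hyC : y - cy ∈ Cc := by
      rw [hCc]
      exact ⟨hyz, fun y' hy' => by rw [sub_mul, mul_sub, hy2 y' hy', hUz cy hcU y' hy']⟩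
    have h5 : ((X - u) * cy).trace = 0 := hvo cy hcU
    have h6 : (u * (y - cy)).trace = 0 := by
      rw [trace_mul_comm]
      exact hyo u huU
    have h7 : (Phi' w π * (y - cy)).trace = 0 := by
      rw [trace_mul_comm]
      exact hyo _ (Phi'_mem hπ hw hG hI')
    have h8 : (X * (y - cy)).trace = 0 := by
      have h9 := htrC _ hyC
      rw [hX]
      unfold Phi' at h7 ⊢
      rw [sub_mul, trace_sub] at h7 ⊢
      rw [← h9]
      exact h7
    have h10 : (X - u) * y = (X - u) * cy + (X * (y - cy) - u * (y - cy)) := by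
      rw [sub_mul, sub_mul, mul_sub, mul_sub]
      abel
    rw [h10, trace_add, trace_sub, h5, h6, h8, sub_zero, add_zero]
  -- so it vanishes
  have hv0 : X - u = 0 := by
    obtain ⟨v, hv⟩ : ∃ v, v = X - u := ⟨_, rfl⟩
    rw [← hv] at hvC hvz horth ⊢
    have hvb : v.map (starRingEnd ℂ) ∈ Zz I E := Zz_aut (starRingAut : ℂ ≃+* ℂ) hvz
    have hvbC : v.map (starRingEnd ℂ) ∈ Cc := hCaut (starRingAut : ℂ ≃+* ℂ) _ hvC
    have hcomm := comm_C hπ hw hG hI' hvb
    have hsk := eq_neg_of_add_eq_zero_left hvb.2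
    have htr : (v * -v.map (starRingEnd ℂ)).trace = 0 := horth _ (Submodule.neg_mem _ hvbC)
    have e1 : vᴴ = (v.map (starRingEnd ℂ))ᵀ := rfl
    rcases Nat.even_or_odd w with he | ho
    · refine nd_gen (gram_even hV he hπ h1) ?_ htr
      rw [e1, mul_neg, mul_assoc, hcomm, ← mul_assoc, ← neg_mul, ← hsk, mul_assoc]
    · refine nd_gen (gram hV ho hπ h1) ?_ htr
      rw [e1, mul_neg, neg_mul, neg_neg, mul_assoc, hcomm, ← mul_assoc, mul_neg, ← mul_assoc, hsk,
        neg_mul, neg_neg]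
  have hXU : X ∈ Ul I E := by
    rw [sub_eq_zero.1 hv0]
    exact huU
  have hPhi : Phi w π' ∈ lieOf (zeros I ℂ) := by
    have h5 : Phi w π' = X + ((w : ℂ) / 2) • 1 := by
      rw [hX]
      unfold Phi'
      abel
    rw [h5]
    exact Submodule.add_mem _ hXU.1 (Submodule.smul_mem _ _ (one_mem_lie hπ hw hG hI'))
  obtain ⟨z, hz0, hTz⟩ := torus_eq hV' hπ' h2' hTV
  have hc : starRingEnd ℂ z ≠ 0 := (map_ne_zero _).2 hz0
  rw [hTz, hz_eq hz0]
  have h6 := hG.2.1 _ (scal_mem hπ hw hI' (pow_ne_zero w hc)) _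
    (torus_of_phi hπ' hG hPhi (div_ne_zero hz0 hc))
  rw [smul_mul_assoc, one_mul] at h6
  exact h6

end Pool.Agent.MTPN.H39
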